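import Pool.Agent.Y205.AV.All

/-! Sets of exponents on which small multiplicities are almost exact, up to a given error. -/

set_option autoImplicit false

namespace Pool.Agent.K7.H33.BP

open Pool.Agent.TH2

open Finset Pool.Agent.TH176.Nag Pool.Agent.TH603.Sur Pool.Agent.TH2.NU
open Pool.Agent.Y205.MD Pool.Agent.Y205.FW Pool.Agent.Y205.AV
open Pool.Agent.TH641.UM (ms EmpM)

open Pool.Agent.TH387.SH (TF coe_TF card_TF)

theorem crk_le_card {ι : Type} (S : Finset (ℤ × ℤ)) (w : ι → ℕ) : crk S w ≤ S.card :=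
  crk_le ⟨∅, empty_subset _, by simp, Emp_nil w⟩

theorem crkM_le_card (S : Finset (ℤ × ℤ)) (M : Multiset ℕ) : crkM S M ≤ S.card :=
  crk_le_card S _

/-- an injective affine map into a larger set -/
theorem crk_map {ι : Type} {S S' : Finset (ℤ × ℤ)} {w : ι → ℕ} (a b c d u v : ℤ)
    (hdet : a * d - b * c ≠ 0)
    (hS : ∀ m ∈ S, (a * m.1 + b * m.2 + u, c * m.1 + d * m.2 + v) ∈ S') : crk S w ≤ crk S' w := by
  classical
  obtain ⟨T', h1, h2, h3⟩ := crk_spec S' w
  obtain ⟨φ, hφ⟩ : ∃ φ : ℤ × ℤ → ℤ × ℤ, ∀ m, φ m = (a * m.1 + b * m.2 + u, c * m.1 + d * m.2 + v) :=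
    ⟨_, fun _ => rfl⟩
  have hinj : Function.Injective φ := by
    rintro ⟨p, q⟩ ⟨p', q'⟩ h
    rw [hφ, hφ] at h
    simp only [Prod.mk.injEq] at h
    obtain ⟨h1, h2⟩ := h
    have e1 : (a * d - b * c) * (p - p') = 0 := by linear_combination d * h1 - b * h2
    have e2 : (a * d - b * c) * (q - q') = 0 := by linear_combination a * h2 - c * h1
    have e3 := (mul_eq_zero.1 e1).resolve_left hdet
    have e4 := (mul_eq_zero.1 e2).resolve_left hdet
    ext
    · simp only; omega
    · simp only; omega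
  have hle : S.card ≤ (S.filter fun m => φ m ∈ T').card + (S'.card - T'.card) := by
    have e1 := card_filter_add_card_filter_not (s := S) (fun m => φ m ∈ T')
    have e2 : (S.filter fun m => ¬ φ m ∈ T').card ≤ (S' \ T').card := by
      refine card_le_card_of_injOn φ ?_ hinj.injOn
      intro m hm
      rw [mem_coe, mem_filter] at hm
      rw [mem_coe, mem_sdiff]
      exact ⟨by rw [hφ]; exact hS m hm.1, hm.2⟩
    rw [card_sdiff_of_subset h1] at e2
    omega
  have hc := card_le_card (filter_subset (fun m => φ m ∈ T') S)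
  have h4 : crk S w ≤ S.card - (S.filter fun m => φ m ∈ T').card := by
    refine crk_le ⟨S.filter fun m => φ m ∈ T', filter_subset _ _, by omega, ?_⟩
    refine h3.comap a b c d u v hdet ?_
    intro m hm
    rw [mem_coe, mem_filter, hφ] at hm
    exact mem_coe.2 hm.2
  omega

theorem crk_mono {ι : Type} {S S' : Finset (ℤ × ℤ)} {w : ι → ℕ} (h : S ⊆ S') :
    crk S w ≤ crk S' w := by
  refine crk_map 1 0 0 1 0 0 (by norm_num) fun m hm => ?_
  have e : ((1 * m.1 + 0 * m.2 + 0, 0 * m.1 + 1 * m.2 + 0) : ℤ × ℤ) = m := by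
    ext <;> simp
  rw [e]
  exact h hm

/-- two sets separated by a line -/
theorem crk_cut {ι κ : Type} [Finite ι] [Finite κ] {w : ι → ℕ} {v : κ → ℕ}
    {S T : Finset (ℤ × ℤ)} (hS0 : ∀ m ∈ S, 0 ≤ m.1 ∧ 0 ≤ m.2) (hT0 : ∀ m ∈ T, 0 ≤ m.1 ∧ 0 ≤ m.2)
    (a b : ℤ) (hcut : ∀ m ∈ S, ∀ m' ∈ T, a * m.1 + b * m.2 < a * m'.1 + b * m'.2) :
    crk (S ∪ T) (Sum.elim w v) ≤ crk S w + crk T v := by
  classical
  obtain ⟨S1, a1, a2, a3⟩ := crk_spec S w
  obtain ⟨T1, b1, b2, b3⟩ := crk_spec T v
  have hd : Disjoint S T := by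
    rw [disjoint_left]
    intro p hp hq
    exact lt_irrefl _ (hcut p hp p hq)
  refine crk_le ⟨S1 ∪ T1, union_subset_union a1 b1, ?_, ?_⟩
  · rw [card_union_of_disjoint hd, card_union_of_disjoint (disjoint_of_subset_left a1
      (disjoint_of_subset_right b1 hd))]
    omega
  · rw [coe_union]
    exact Pool.Agent.TH698.NagT3.Emp_cut S1.finite_toSet T1.finite_toSet
      (fun p hp => hS0 p (a1 hp)) (fun p hp => hT0 p (b1 hp)) a b
      (fun p hp q hq => hcut p (a1 hp) q (b1 hq)) a3 b3

theorem crkM_cut {M N : Multiset ℕ}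
    {S T : Finset (ℤ × ℤ)} (hS0 : ∀ m ∈ S, 0 ≤ m.1 ∧ 0 ≤ m.2) (hT0 : ∀ m ∈ T, 0 ≤ m.1 ∧ 0 ≤ m.2)
    (a b : ℤ) (hcut : ∀ m ∈ S, ∀ m' ∈ T, a * m.1 + b * m.2 < a * m'.1 + b * m'.2) :
    crkM (S ∪ T) (M + N) ≤ crkM S M + crkM T N := by
  have h : ∀ t : ℕ → ℕ, ∑ p, t (Sum.elim (vec M) (vec N) p) = ((M + N).map t).sum := by
    intro t
    rw [Fintype.sum_sum_type, Multiset.map_add, Multiset.sum_add]
    simp only [Sum.elim_inl, Sum.elim_inr]
    rw [sum_vec, sum_vec]
  rw [crkM_eq h]
  exact crk_cut hS0 hT0 a b hcut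

/-- near emptiness: the corank is zero, or at most the expected one, up to an error -/
def CE (B : ℕ) (S : Finset (ℤ × ℤ)) (E : ℕ) : Prop :=
  ∀ M : Multiset ℕ, (∀ v ∈ M, 1 ≤ v ∧ v ≤ B) →
    crkM S M = 0 ∨ 2 * crkM S M + sqs M ≤ 2 * S.card + E

/-- near independence -/
def CS (B : ℕ) (S : Finset (ℤ × ℤ)) (E : ℕ) : Prop :=
  ∀ M : Multiset ℕ, (∀ v ∈ M, v + 1 ≤ B) → sq1 M + E ≤ 2 * S.card →
    crkM S M + NU.condM M ≤ S.card

/-- the set of exponents `S` is almost exact for multiplicities up to `B`, with the error `E` -/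
structure Ap (B : ℕ) (S : Finset (ℤ × ℤ)) (E : ℕ) : Prop where
  ce : CE B S E
  cs : CS B S E

theorem Ap.mono {B E E' : ℕ} {S : Finset (ℤ × ℤ)} (h : Ap B S E) (hE : E ≤ E') : Ap B S E' := by
  refine ⟨fun M hM => ?_, fun M hM h1 => h.cs M hM (by omega)⟩
  rcases h.ce M hM with h1 | h1
  · exact Or.inl h1
  · exact Or.inr (by omega)

theorem condM_zero : NU.condM 0 = 0 := rfl

theorem sqs_zero : sqs 0 = 0 := rfl

theorem Ap.empty (B : ℕ) : Ap B ∅ 0 := by
  refine ⟨fun M _ => Or.inl ?_, fun M _ h => ?_⟩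
  · have := crkM_le_card ∅ M
    rw [card_empty] at this
    omega
  · rw [card_empty] at h ⊢
    have h0 : M = 0 := by
      induction M using Multiset.induction_on with
      | empty => rfl
      | cons a M _ =>
        exfalso
        rw [sq1_cons] at h
        have : 1 ≤ (a + 1) ^ 2 := Nat.one_le_pow _ _ (by omega)
        omega
    subst h0
    have := crkM_le_card ∅ 0
    rw [card_empty] at this
    rw [condM_zero]
    omega

/-- the affine image -/
theorem Ap.map {B E : ℕ} {S S' : Finset (ℤ × ℤ)} (h : Ap B S' E) (a b c d u v : ℤ)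
    (hdet : a * d - b * c ≠ 0)
    (hS : ∀ m ∈ S, (a * m.1 + b * m.2 + u, c * m.1 + d * m.2 + v) ∈ S')
    (hcard : S.card = S'.card) : Ap B S E := by
  have key : ∀ M, crkM S M ≤ crkM S' M := fun M => crk_map a b c d u v hdet hS
  refine ⟨fun M hM => ?_, fun M hM h1 => ?_⟩
  · have h2 := key M
    rcases h.ce M hM with h1 | h1
    · exact Or.inl (by omega)
    · exact Or.inr (by omega)
  · have h2 := key M
    have h3 := h.cs M hM (by omega)
    omega

/-- a part of a set -/
theorem Ap.sub {B E : ℕ} {S S' : Finset (ℤ × ℤ)} (h : Ap B S' E) (hS : S ⊆ S') :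
    Ap B S (E + 2 * S'.card) := by
  have key : ∀ M, crkM S M ≤ crkM S' M := fun M => crk_mono hS
  have hc := card_le_card hS
  refine ⟨fun M hM => ?_, fun M hM h1 => ?_⟩
  · have h2 := key M
    rcases h.ce M hM with h1 | h1
    · exact Or.inl (by omega)
    · exact Or.inr (by omega)
  · have h0 : M = 0 := by
      induction M using Multiset.induction_on with
      | empty => rfl
      | cons a M _ =>
        exfalso
        rw [sq1_cons] at h1
        have : 1 ≤ (a + 1) ^ 2 := Nat.one_le_pow _ _ (by omega)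
        omega
    subst h0
    have := crkM_le_card S 0
    rw [condM_zero]
    omega

theorem condM_add (M N : Multiset ℕ) : NU.condM (M + N) = NU.condM M + NU.condM N := by
  unfold Pool.Agent.TH2.NU.condM
  rw [Multiset.map_add, Multiset.sum_add]

/-- a greedy choice of a part of a multiset -/
theorem exists_part (f : ℕ → ℕ) {C : ℕ} (M : Multiset ℕ) (hf : ∀ v ∈ M, f v ≤ C) (L : ℕ) :
    (M.map f).sum ≤ L ∨ ∃ N R, M = N + R ∧ L < (N.map f).sum ∧ (N.map f).sum ≤ L + C := by
  induction M using Multiset.induction_on with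
  | empty => left; simp
  | cons a M ih =>
    rcases ih (fun v hv => hf v (Multiset.mem_cons_of_mem hv)) with h | ⟨N, R, h1, h2, h3⟩
    · by_cases h4 : ((a ::ₘ M).map f).sum ≤ L
      · exact Or.inl h4
      · right
        refine ⟨a ::ₘ M, 0, by simp, by omega, ?_⟩
        have := hf a (Multiset.mem_cons_self a M)
        rw [Multiset.map_cons, Multiset.sum_cons]
        omega
    · right
      refine ⟨N, a ::ₘ R, ?_, h2, h3⟩
      rw [h1, Multiset.add_cons]

/-- a greedy choice of a part of a multiset, below the bound -/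
theorem exists_part' (f : ℕ → ℕ) {C : ℕ} (M : Multiset ℕ) (hf : ∀ v ∈ M, f v ≤ C) (L : ℕ) :
    (M.map f).sum ≤ L ∨ ∃ N R, M = N + R ∧ (N.map f).sum ≤ L ∧ L < (N.map f).sum + C := by
  induction M using Multiset.induction_on with
  | empty => left; simp
  | cons a M ih =>
    rcases ih (fun v hv => hf v (Multiset.mem_cons_of_mem hv)) with h | ⟨N, R, h1, h2, h3⟩
    · by_cases h4 : ((a ::ₘ M).map f).sum ≤ L
      · exact Or.inl h4
      · right
        refine ⟨M, {a}, ?_, h, ?_⟩
        · rw [← Multiset.singleton_add, add_comm]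
        · have := hf a (Multiset.mem_cons_self a M)
          rw [Multiset.map_cons, Multiset.sum_cons] at h4
          omega
    · right
      refine ⟨N, a ::ₘ R, ?_, h2, h3⟩
      rw [h1, Multiset.add_cons]

/-- two sets separated by a line -/
theorem Ap.union {B E1 E2 : ℕ} {S T : Finset (ℤ × ℤ)} (h1 : Ap B S E1) (h2 : Ap B T E2)
    (hS0 : ∀ m ∈ S, 0 ≤ m.1 ∧ 0 ≤ m.2) (hT0 : ∀ m ∈ T, 0 ≤ m.1 ∧ 0 ≤ m.2)
    (a b : ℤ) (hcut : ∀ m ∈ S, ∀ m' ∈ T, a * m.1 + b * m.2 < a * m'.1 + b * m'.2) :
    Ap B (S ∪ T) (E1 + E2 + B ^ 2) := by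
  classical
  have hd : Disjoint S T := by
    rw [disjoint_left]
    intro p hp hq
    exact lt_irrefl _ (hcut p hp p hq)
  have key : ∀ M N, crkM (S ∪ T) (M + N) ≤ crkM S M + crkM T N := fun M N =>
    crkM_cut hS0 hT0 a b hcut
  have hc := card_union_of_disjoint hd
  refine ⟨fun M hM => ?_, fun M hM h => ?_⟩
  · rcases exists_part (fun v => v ^ 2) (C := B ^ 2) M
      (fun v hv => Nat.pow_le_pow_left (hM v hv).2 2) (2 * S.card + E1) with h3 | ⟨N, R, h3, h4, h5⟩
    · change sqs M ≤ _ at h3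
      have h4 := key M 0
      rw [add_zero] at h4
      have h5 := crkM_le_card T 0
      rcases h1.ce M hM with h6 | h6
      · right; omega
      · right; omega
    · change 2 * S.card + E1 < sqs N at h4
      change sqs N ≤ _ at h5
      have h6 : crkM S N = 0 := by
        rcases h1.ce N (fun v hv => hM v (by rw [h3]; exact Multiset.mem_add.2 (Or.inl hv)))
          with h6 | h6
        · exact h6
        · omega
      have h7 := key N R
      rw [← h3] at h7
      have h9 : sqs M = sqs N + sqs R := by rw [h3, sqs_add]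
      rcases h2.ce R (fun v hv => hM v (by rw [h3]; exact Multiset.mem_add.2 (Or.inr hv)))
        with h8 | h8
      · left; omega
      · right; omega
  · rcases Nat.lt_or_ge (2 * S.card) E1 with hlt | hge
    · have h3 := h2.cs M hM (by omega)
      have h4 := key 0 M
      rw [zero_add] at h4
      have h5 := crkM_le_card S 0
      omega
    · rcases exists_part' (fun v => (v + 1) ^ 2) (C := B ^ 2) M
        (fun v hv => Nat.pow_le_pow_left (hM v hv) 2) (2 * S.card - E1) with h3 | ⟨N, R, h3, h4, h5⟩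
      · change sq1 M ≤ _ at h3
        have h4 := h1.cs M hM (by omega)
        have h5 := key M 0
        rw [add_zero] at h5
        have h6 := crkM_le_card T 0
        omega
      · change sq1 N ≤ _ at h4
        change _ < sq1 N + _ at h5
        have h9 : sq1 M = sq1 N + sq1 R := by rw [h3, sq1_add]
        have h10 : NU.condM M = NU.condM N + NU.condM R := by rw [h3, condM_add]
        have h6 := h1.cs N (fun v hv => hM v (by rw [h3]; exact Multiset.mem_add.2 (Or.inl hv)))
          (by omega)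
        have h7 := h2.cs R (fun v hv => hM v (by rw [h3]; exact Multiset.mem_add.2 (Or.inr hv)))
          (by omega)
        have h8 := key N R
        rw [← h3] at h8
        omega

end Pool.Agent.K7.H33.BP
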