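import Pool.Agent.K7.H33.BP.Pack

/-! Exactness for small points on a region with large points. -/

set_option autoImplicit false

namespace Pool.Agent.K7.H33.BP

open Pool.Agent.TH2

open Finset Pool.Agent.TH176.Nag Pool.Agent.TH603.Sur Pool.Agent.TH2.NU H932R3
open Pool.Agent.Y205.MD Pool.Agent.Y205.FW Pool.Agent.Y205.AV
open Pool.Agent.TH387.SH (TF coe_TF card_TF)

theorem leaf_big {B E : ℕ} {R : Finset (ℤ × ℤ)} {M : Multiset ℕ}
    (hce : ∀ W : Multiset ℕ, (∀ v ∈ W, 1 ≤ v ∧ v ≤ B) →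
      crkM R (M + W) = 0 ∨ 2 * crkM R (M + W) + sqs W + 2 * NU.condM M ≤ 2 * R.card + E)
    (hcs : ∀ W : Multiset ℕ, (∀ v ∈ W, v + 1 ≤ B) → sq1 W + E + 2 * NU.condM M ≤ 2 * R.card →
      crkM R (M + W) + NU.condM M + NU.condM W ≤ R.card)
    {A : Multiset ℕ} {μ c G0 G1 T X L δ e0 e1 : ℕ} (hB : B = 8 * (μ + 1))
    (hM : ∀ x ∈ A, 1 ≤ x ∧ x + 1 ≤ 8 * (μ + 1)) (hL : 17 * A.sum ≤ 136 * X + 4 * G1 + 17 * e1)
    (hn : A.card ≤ X + e0) (he1 : 2 * e1 ≤ 63 * (μ + 1) ^ 2) (he0 : 4 * e0 ≤ 63 * (μ + 1) ^ 2)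
    (hX : L = 64 * X + e1) (hcd : NU.condM A + G0 = T + G1) (hgain : 56 * X ≤ 2 * (G0 + G1))
    (hδ : 2 * R.card = 2 * NU.condM M + 2 * T + δ ∨ 2 * R.card + δ = 2 * NU.condM M + 2 * T)
    (h : 8 * E + 320 * (μ + 1) ^ 2 ≤ L + 2 * δ) (hc : R.card ≤ c + NU.condM M + T) :
    crkM R (M + A) ≤ c + G0 := by
  subst hB
  obtain ⟨P, hP⟩ : ∃ P, P = (μ + 1) ^ 2 := ⟨_, rfl⟩
  rw [← hP] at he1 he0 h
  have hc2 := two_condM A
  have hsq := sq1_eq A
  by_cases hsur : sq1 A + E + 2 * NU.condM M ≤ 2 * R.card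
  · have h1 := hcs A (fun v hv => (hM v hv).2) hsur
    omega
  · push Not at hsur
    rcases hce A (fun v hv => ⟨(hM v hv).1, by have := (hM v hv).2; omega⟩) with h0 | h0
    · rw [h0]
      exact Nat.zero_le _
    · omega

theorem crkM_sum {S : Finset (ℤ × ℤ)} {A A' : Multiset ℕ}
    (h : ∀ t : ℕ → ℕ, (A.map t).sum = (A'.map t).sum) : crkM S A = crkM S A' := by
  refine crkM_eq (w := vec A') fun t => ?_
  rw [sum_vec, h]

/-- exactness of small multiplicities -/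
theorem ex_big {μ δ E : ℕ} {R : Finset (ℤ × ℤ)} {M W : Multiset ℕ}
    (hR0 : ∀ u ∈ R, 0 ≤ u.1 ∧ 0 ≤ u.2)
    (hce : ∀ W : Multiset ℕ, (∀ v ∈ W, 1 ≤ v ∧ v ≤ 8 * (μ + 1)) →
      crkM R (M + W) = 0 ∨ 2 * crkM R (M + W) + sqs W + 2 * NU.condM M ≤ 2 * R.card + E)
    (hcs : ∀ W : Multiset ℕ, (∀ v ∈ W, v + 1 ≤ 8 * (μ + 1)) →
      sq1 W + E + 2 * NU.condM M ≤ 2 * R.card →
      crkM R (M + W) + NU.condM M + NU.condM W ≤ R.card)
    (hW : ∀ v ∈ W, 1 ≤ v ∧ v ≤ μ)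
    (hδ : 2 * R.card = 2 * NU.condM M + 2 * NU.condM W + δ ∨
      2 * R.card + δ = 2 * NU.condM M + 2 * NU.condM W)
    (h : 8 * E + 320 * (μ + 1) ^ 2 ≤ W.sum + 2 * δ) :
    crkM R (M + W) ≤ R.card - (NU.condM M + NU.condM W) := by
  classical
  obtain ⟨n, w, hwW⟩ : ∃ (n : ℕ) (w : Fin n → ℕ), (∀ t : ℕ → ℕ, ∑ p, t (w p) = (W.map t).sum) ∧
      ∀ p, w p ∈ W := ⟨_, vec W, fun t => sum_vec W t, fun p => by
    unfold vec
    rw [← Multiset.mem_toList]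
    exact List.get_mem _ _⟩
  obtain ⟨hwW, hmem⟩ := hwW
  have hpos : ∀ p, 1 ≤ w p := fun p => (hW _ (hmem p)).1
  have hμ : ∀ p, w p ≤ μ := fun p => (hW _ (hmem p)).2
  obtain ⟨V, hV⟩ : ∃ V : Finset ℕ, V = univ.image w := ⟨_, rfl⟩
  have hVv : ∀ v ∈ V, 1 ≤ v ∧ v ≤ μ := by
    intro v hv
    rw [hV] at hv
    obtain ⟨p, -, hp⟩ := mem_image.1 hv
    rw [← hp]
    exact ⟨hpos p, hμ p⟩
  obtain ⟨L, hL⟩ : ∃ L, L = ∑ p, w p := ⟨_, rfl⟩
  obtain ⟨T, hTd⟩ : ∃ T, T = ∑ p, (w p + 1).choose 2 := ⟨_, rfl⟩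
  have hT2 : NU.condM W = T := by
    rw [hTd, hwW fun x => (x + 1).choose 2]
    rfl
  have hL2 : W.sum = L := by
    rw [hL, hwW fun x => x, Multiset.map_id']
  rw [hT2] at hδ ⊢
  rw [hL2] at h
  -- the classes
  obtain ⟨Nf, hNf⟩ : ∃ Nf : ℕ → ℕ, ∀ v, Nf v = nb w v / 64 := ⟨_, fun _ => rfl⟩
  obtain ⟨Rf, hRf⟩ : ∃ Rf : ℕ → ℕ, ∀ v, Rf v = nb w v % 64 := ⟨_, fun _ => rfl⟩
  have hNR : ∀ v, 64 * Nf v + Rf v = nb w v := fun v => by
    rw [hNf, hRf]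
    exact Nat.div_add_mod _ _
  have hR63 : ∀ v, Rf v ≤ 63 := fun v => by
    rw [hRf]
    have := Nat.mod_lt (nb w v) (show 0 < 64 by norm_num)
    omega
  obtain ⟨E', hE⟩ : ∃ E' : Multiset ℕ, E' = ∑ v ∈ V, Multiset.replicate (Rf v) v := ⟨_, rfl⟩
  have hEsum : ∀ t : ℕ → ℕ, (E'.map t).sum = ∑ v ∈ V, Rf v * t v := by
    intro t
    rw [hE, map_sum_fin]
    refine sum_congr rfl fun v _ => ?_
    rw [Multiset.map_replicate, Multiset.sum_replicate]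
    rfl
  have hwsum : ∀ t : ℕ → ℕ, ∑ p, t (w p) = ∑ v ∈ V, nb w v * t v := by
    intro t
    rw [Finset.sum_comp t w, hV]
    rfl
  have hw : ∀ t : ℕ → ℕ, ((M + W).map t).sum =
      ((∑ v ∈ V, Multiset.replicate (4 ^ 3 * Nf v) v + (E' + M)).map t).sum := by
    intro t
    rw [Multiset.map_add, Multiset.sum_add, Multiset.map_add, Multiset.sum_add, Multiset.map_add,
      Multiset.sum_add, hEsum, map_sum_fin, ← hwW, hwsum, ← add_assoc, add_comm (M.map t).sum]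
    congr 1
    rw [← sum_add_distrib]
    refine sum_congr rfl fun v _ => ?_
    rw [Multiset.map_replicate, Multiset.sum_replicate, smul_eq_mul, ← hNR v]
    ring
  rw [crkM_sum hw]
  refine classes_acc hR0 3 Nf V fun a g0 g1 hleaf => ?_
  have hlo : ∀ v ∈ V, 8 * v ≤ a v := fun v hv => by simpa using (hleaf v hv).lo
  have hhi : ∀ v ∈ V, a v + 1 ≤ 8 * (v + 1) := fun v hv => by simpa using (hleaf v hv).hi
  have hcd : ∀ v ∈ V, Nf v * (a v + 1).choose 2 + g0 v =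
      64 * Nf v * (v + 1).choose 2 + g1 v := fun v hv => by simpa using (hleaf v hv).cd
  have hga : ∀ v ∈ V, Nf v * v * 64 ≤ 2 * (g0 v + g1 v) + Nf v * v * 8 := fun v hv => by
    simpa using (hleaf v hv).gain
  obtain ⟨A, hM⟩ : ∃ A, A = ∑ v ∈ V, Multiset.replicate (Nf v) (a v) + E' := ⟨_, rfl⟩
  rw [← add_assoc, ← hM, add_comm A M]
  have hMsum : ∀ t : ℕ → ℕ, (A.map t).sum = ∑ v ∈ V, (Nf v * t (a v) + Rf v * t v) := by
    intro t
    rw [hM, Multiset.map_add, Multiset.sum_add, hEsum, map_sum_fin, ← sum_add_distrib]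
    refine sum_congr rfl fun v _ => ?_
    rw [Multiset.map_replicate, Multiset.sum_replicate, smul_eq_mul]
  have hMV : ∀ x ∈ A, ∃ v ∈ V, x = a v ∨ x = v := by
    intro x hx
    rw [hM, Multiset.mem_add, hE] at hx
    rcases hx with hx | hx
    · obtain ⟨v, hv, hx⟩ := mem_sum_fin V _ x hx
      exact ⟨v, hv, Or.inl (Multiset.eq_of_mem_replicate hx)⟩
    · obtain ⟨v, hv, hx⟩ := mem_sum_fin V _ x hx
      exact ⟨v, hv, Or.inr (Multiset.eq_of_mem_replicate hx)⟩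
  obtain ⟨X, hX⟩ : ∃ X, X = ∑ v ∈ V, Nf v * v := ⟨_, rfl⟩
  obtain ⟨e1, he1⟩ : ∃ e1, e1 = ∑ v ∈ V, Rf v * v := ⟨_, rfl⟩
  obtain ⟨e0, he0⟩ : ∃ e0, e0 = ∑ v ∈ V, Rf v := ⟨_, rfl⟩
  have hVsub : V ⊆ Finset.Icc 1 μ := fun v hv => Finset.mem_Icc.2 (hVv v hv)
  have hLX : L = 64 * X + e1 := by
    have h1 := hwsum fun x => x
    rw [hL, h1, hX, he1, mul_sum, ← sum_add_distrib]
    refine sum_congr rfl fun v _ => ?_
    rw [← hNR v]
    ring
  have hsumV : 2 * ∑ v ∈ V, v ≤ μ * (μ + 1) := by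
    have h1 : ∑ v ∈ V, v ≤ ∑ v ∈ Finset.range (μ + 1), v :=
      sum_le_sum_of_subset fun v hv => by
        rw [Finset.mem_range]
        have := (hVv v hv).2
        omega
    have h2 := Finset.sum_range_id_mul_two (μ + 1)
    rw [Nat.add_sub_cancel] at h2
    have e : μ * (μ + 1) = (μ + 1) * μ := mul_comm _ _
    omega
  have hcardV : V.card ≤ μ := by
    have := card_le_card hVsub
    rwa [Nat.card_Icc, Nat.add_sub_cancel] at this
  have hP1 : μ * (μ + 1) ≤ (μ + 1) ^ 2 := by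
    rw [sq]
    exact Nat.mul_le_mul_right _ (Nat.le_succ μ)
  have hP2 : 4 * μ ≤ (μ + 1) ^ 2 := by
    zify
    have := sq_nonneg ((μ : ℤ) - 1)
    linarith [this]
  refine leaf_big hce hcs (c := R.card - (NU.condM M + T)) (G0 := ∑ v ∈ V, g0 v)
    (G1 := ∑ v ∈ V, g1 v) (T := T) (X := X) (L := L) (δ := δ) (e0 := e0) (e1 := e1) rfl
    ?_ ?_ ?_ ?_ ?_ hLX ?_ ?_ hδ h (by omega)
  · intro x hx
    obtain ⟨v, hv, h | h⟩ := hMV _ hx
    · have h1 := hlo v hv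
      have h2 := hVv v hv
      have h3 := hhi v hv
      constructor <;> omega
    · have h2 := hVv v hv
      constructor <;> omega
  · have h1 := hMsum fun x => x
    rw [Multiset.map_id'] at h1
    have h2 : ∑ v ∈ V, 17 * (Nf v * a v + Rf v * v) ≤
        ∑ v ∈ V, (136 * (Nf v * v) + 4 * g1 v + 17 * (Rf v * v)) := by
      refine sum_le_sum fun v hv => ?_
      have h3 := leaf_lin (hVv v hv).1 (hlo v hv) (hcd v hv) (hga v hv)
      omega
    have h4 : ∑ v ∈ V, (136 * (Nf v * v) + 4 * g1 v + 17 * (Rf v * v)) =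
        136 * X + 4 * ∑ v ∈ V, g1 v + 17 * e1 := by
      rw [sum_add_distrib, sum_add_distrib, ← mul_sum, ← mul_sum, ← mul_sum, ← hX, ← he1]
    rw [← mul_sum] at h2
    rw [h1]
    omega
  · have h1 := hMsum fun _ => 1
    simp only [mul_one, Multiset.map_const', Multiset.sum_replicate, smul_eq_mul] at h1
    rw [h1, sum_add_distrib, ← he0]
    refine Nat.add_le_add_right ?_ _
    rw [hX]
    refine sum_le_sum fun v hv => ?_
    calc Nf v = Nf v * 1 := (mul_one _).symm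
      _ ≤ Nf v * v := Nat.mul_le_mul_left _ (hVv v hv).1
  · have h1 : e1 ≤ 63 * ∑ v ∈ V, v := by
      rw [he1, mul_sum]
      exact sum_le_sum fun v _ => Nat.mul_le_mul_right _ (hR63 v)
    omega
  · have h1 : e0 ≤ 63 * V.card := by
      rw [he0]
      refine (sum_le_sum fun v _ => hR63 v).trans ?_
      rw [sum_const, smul_eq_mul, mul_comm]
    omega
  · have h1 := hMsum fun x => (x + 1).choose 2
    have h2 := hwsum fun x => (x + 1).choose 2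
    have h3 : Pool.Agent.TH2.NU.condM A = ∑ v ∈ V, (Nf v * (a v + 1).choose 2 + Rf v * (v + 1).choose 2) := h1
    rw [h3, hTd, h2, ← sum_add_distrib, ← sum_add_distrib]
    refine sum_congr rfl fun v hv => ?_
    have h4 := hcd v hv
    have e : nb w v * (v + 1).choose 2 = 64 * Nf v * (v + 1).choose 2 +
        Rf v * (v + 1).choose 2 := by
      rw [← hNR v]
      ring
    omega
  · have h1 : ∑ v ∈ V, Nf v * v * 64 ≤ ∑ v ∈ V, (2 * (g0 v + g1 v) + Nf v * v * 8) :=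
      sum_le_sum hga
    rw [sum_add_distrib, ← mul_sum, sum_add_distrib, ← sum_mul, ← sum_mul, ← hX] at h1
    omega

theorem crkM_anti1 {S : Finset (ℤ × ℤ)} (hS : ∀ m ∈ S, 0 ≤ m.1 ∧ 0 ≤ m.2) {v v' : ℕ}
    (h : v ≤ v') (N : Multiset ℕ) : crkM S (v' ::ₘ N) ≤ crkM S (v ::ₘ N) := by
  have e : ∀ u, crkM S (u ::ₘ N) = crk S (Sum.elim (fun _ : Unit => u) (vec N)) := fun u =>
    crkM_eq (w := Sum.elim (fun _ : Unit => u) (vec N)) fun t => by
      rw [Fintype.sum_sum_type, Multiset.map_cons, Multiset.sum_cons, ← sum_vec]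
      simp
  rw [e, e]
  exact crk_anti hS (by
    rintro (i | i)
    · exact h
    · exact le_rfl)

theorem crkM_zero {S : Finset (ℤ × ℤ)} (M : Multiset ℕ) : crkM S M ≤ crkM S (M + {0}) := by
  obtain ⟨T, h1, h2, h3⟩ := crk_spec S (vec (M + {0}))
  have h4 : Pool.Agent.TH641.UM.EmpM (M + {0}) (↑T : Set (ℤ × ℤ)) := h3
  exact crk_le ⟨T, h1, h2, Pool.Agent.TH745.MN.EmpM_zero.1 h4⟩

theorem crkM_zeros {S : Finset (ℤ × ℤ)} (k : ℕ) : ∀ M : Multiset ℕ,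
    crkM S M ≤ crkM S (M + Multiset.replicate k 0) := by
  induction k with
  | zero => intro M; simp
  | succ k ih =>
    intro M
    refine (crkM_zero M).trans ?_
    have h1 := ih (M + {0})
    have e : M + {0} + Multiset.replicate k 0 = M + Multiset.replicate (k + 1) 0 := by
      rw [Multiset.replicate_succ, add_assoc, Multiset.singleton_add]
    rwa [e] at h1

end Pool.Agent.K7.H33.BP
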