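import Pool.Agent.K7.H33.BP.Main

/-! Examples of toric multiplicities, and the numerical conditions. -/

set_option autoImplicit false

namespace Pool.Agent.K7.H33.BP

open Finset Pool.Agent.Y205.AV

/-- a chain of triangles along an edge -/
theorem corner_chain : ∀ (n : ℕ) (M : Multiset ℕ), M.card ≤ n →
    ∃ f, Corner M.sum f M ∧ (∀ v ∈ M, v ≤ f) ∧ (f = 0 ∨ f ∈ M) := by
  intro n
  induction n with
  | zero =>
    intro M hM
    have h0 : M = 0 := Multiset.card_eq_zero.1 (Nat.le_zero.1 hM)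
    subst h0
    exact ⟨0, Corner.nil _ _, by simp, Or.inl rfl⟩
  | succ n ih =>
    intro M hM
    rcases Nat.eq_zero_or_pos M.card with h0 | h0
    · rw [Multiset.card_eq_zero] at h0
      subst h0
      exact ⟨0, Corner.nil _ _, by simp, Or.inl rfl⟩
    · obtain ⟨v, M', hM', hv⟩ := exists_max_cons h0
      subst hM'
      rw [Multiset.card_cons] at hM
      obtain ⟨f, h1, h2, h3⟩ := ih M' (by omega)
      have hfv : f ≤ v := by
        rcases h3 with rfl | h3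
        · exact Nat.zero_le _
        · exact hv f h3
      refine ⟨v, ?_, ?_, Or.inr (Multiset.mem_cons_self _ _)⟩
      · have h4 : Corner (v + M'.sum) v (v ::ₘ (M' + 0)) := by
          refine Corner.cut (x := f) (y := 0) (by omega) le_rfl (by omega) ?_ (Corner.nil _ _)
          rw [Nat.add_sub_cancel_left]
          exact h1
        rw [add_zero] at h4
        rw [Multiset.sum_cons]
        exact h4
      · intro x hx
        rcases Multiset.mem_cons.1 hx with rfl | hx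
        · exact le_rfl
        · exact hv x hx

/-- three chains -/
theorem toric_chains {d : ℕ} {N : Fin 3 → Multiset ℕ} (h1 : ∀ i, (N i).sum ≤ d)
    (h2 : ∀ i, ∀ v ∈ N (i + 1), (N i).sum + v ≤ d) : Toric d (N 0 + N 1 + N 2) := by
  choose f hf1 hf2 hf3 using fun i => corner_chain (N i).card (N i) le_rfl
  refine ⟨fun i => (N i).sum, f, N, hf1, fun i => ?_, rfl⟩
  rcases hf3 (i + 1) with h | h
  · have := h1 i
    simp only
    omega
  · exact h2 i _ h

theorem numeric {n : ℕ} {m : Fin n → ℕ} {d μ : ℕ} {I : Finset (Fin n)} (hμ : ∀ i, i ∉ I → m i ≤ μ)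
    (h : 4000000 * (((μ : ℤ) + 1) * (d + μ + 2)) ≤
        ∑ i ∈ Iᶜ, (m i : ℤ) + 2 * |((d : ℤ) + 1) * (d + 2) - ∑ i, (m i : ℤ) * (m i + 1)| ∨
      8000000 * (((μ : ℤ) + 1) ^ 2 * (d + μ + 2)) ≤
        ((d : ℤ) + 1) * (d + 2) - ∑ i ∈ I, (m i : ℤ) * (m i + 1)) :
    4000000 * ((μ + 1) * (d + μ + 2)) ≤ ∑ i ∈ Iᶜ, m i + 2 * gap m d := by
  classical
  have hgap : (gap m d : ℤ) = |((d : ℤ) + 1) * (d + 2) - ∑ i, (m i : ℤ) * (m i + 1)| := by
    unfold gap
    have e1 : ((∑ i, m i * (m i + 1) : ℕ) : ℤ) = ∑ i, (m i : ℤ) * (m i + 1) := by push_cast; rfl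
    have e2 : (((d + 1) * (d + 2) : ℕ) : ℤ) = ((d : ℤ) + 1) * (d + 2) := by push_cast; rfl
    rw [← e1, ← e2]
    rcases le_total ((d + 1) * (d + 2)) (∑ i, m i * (m i + 1)) with h3 | h3
    · rw [abs_of_nonpos (by omega)]
      omega
    · rw [abs_of_nonneg (by omega)]
      omega
  have hgoal : 4000000 * (((μ : ℤ) + 1) * (d + μ + 2)) ≤
      ∑ i ∈ Iᶜ, (m i : ℤ) + 2 * |((d : ℤ) + 1) * (d + 2) - ∑ i, (m i : ℤ) * (m i + 1)| := by
    rcases h with h | h
    · exact h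
    · obtain ⟨s, hs⟩ : ∃ s : ℤ, s = ∑ i ∈ Iᶜ, (m i : ℤ) := ⟨_, rfl⟩
      obtain ⟨T1, hT1⟩ : ∃ T1 : ℤ, T1 = ∑ i ∈ I, (m i : ℤ) * (m i + 1) := ⟨_, rfl⟩
      obtain ⟨T2, hT2⟩ : ∃ T2 : ℤ, T2 = ∑ i ∈ Iᶜ, (m i : ℤ) * (m i + 1) := ⟨_, rfl⟩
      have hT : ∑ i, (m i : ℤ) * (m i + 1) = T1 + T2 := by
        rw [hT1, hT2, sum_add_sum_compl]
      have hle : T2 ≤ (μ + 1) * s := by
        rw [hT2, hs, mul_sum]
        refine sum_le_sum fun i hi => ?_
        have h3 : (m i : ℤ) ≤ μ := by exact_mod_cast hμ i (mem_compl.1 hi)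
        have h4 : (0 : ℤ) ≤ m i := Nat.cast_nonneg _
        rw [mul_comm]
        exact mul_le_mul_of_nonneg_right (by linarith) h4
      rw [hT, ← hs]
      rw [← hT1] at h
      obtain ⟨Q, hQ⟩ : ∃ Q : ℤ, Q = ((μ : ℤ) + 1) * (d + μ + 2) := ⟨_, rfl⟩
      have hμ0 : (0 : ℤ) ≤ μ := Nat.cast_nonneg _
      have hd0 : (0 : ℤ) ≤ d := Nat.cast_nonneg _
      have hQ0 : 0 ≤ Q := by rw [hQ]; positivity
      have hs0 : 0 ≤ s := by rw [hs]; exact sum_nonneg fun i _ => Nat.cast_nonneg _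
      have e : ((μ : ℤ) + 1) ^ 2 * (d + μ + 2) = (μ + 1) * Q := by rw [hQ]; ring
      rw [e] at h
      rw [← hQ]
      have hK : Q ≤ (μ + 1) * Q := by
        have := mul_nonneg hμ0 hQ0
        linarith
      have habs := le_abs_self (((d : ℤ) + 1) * (d + 2) - (T1 + T2))
      by_cases h2 : 2 * T2 ≤ ((d : ℤ) + 1) * (d + 2) - T1
      · linarith
      · push Not at h2
        have h5 : (μ + 1) * (4000000 * Q) < (μ + 1) * s := by linarith
        have h6 : 4000000 * Q < s := lt_of_mul_lt_mul_left h5 (by linarith)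
        have h7 := abs_nonneg (((d : ℤ) + 1) * (d + 2) - (T1 + T2))
        linarith
  rw [← hgap] at hgoal
  have h8 : ((∑ i ∈ Iᶜ, m i : ℕ) : ℤ) = ∑ i ∈ Iᶜ, (m i : ℤ) := by push_cast; rfl
  rw [← h8] at hgoal
  exact_mod_cast hgoal

end Pool.Agent.K7.H33.BP
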