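import Pool.Agent.K7.H33.BP.Region

/-! Cutting off the corners of a triangle of exponents. -/

set_option autoImplicit false

namespace Pool.Agent.K7.H33.BP

open Pool.Agent.TH2

open Finset Pool.Agent.TH176.Nag Pool.Agent.TH603.Sur Pool.Agent.TH2.NU
open Pool.Agent.Y205.MD Pool.Agent.Y205.FW Pool.Agent.Y205.AV
open Pool.Agent.TH387.SH (TF coe_TF card_TF)

/-- one point on a triangle -/
theorem crkM_single (u : ℕ) : crkM (TF u) {u + 1} = 0 := by
  have h : Emp (fun _ : Unit => u + 1) (TZ u) := by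
    refine (Pool.Agent.TH603.Sur.Emp_rows (fun _ : Unit => u + 1) 0).mono ?_
    rintro m ⟨h1, h2, h3⟩
    refine ⟨h2, h1, ?_⟩
    simp only [univ_unique, sum_const, card_singleton, one_smul]
    omega
  have h2 : crkM (TF u) {u + 1} = crk (TF u) (fun _ : Unit => u + 1) :=
    crkM_eq (w := fun _ : Unit => u + 1) fun t => by simp
  rw [h2]
  exact crk_zero_of_Emp (by rw [coe_TF]; exact h)

/-- an affine unimodular frame -/
structure Fr where
  (a b c d u v : ℤ)
  det : a * d - b * c = 1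

/-- the first coordinate -/
def Fr.s (φ : Fr) (m : ℤ × ℤ) : ℤ := φ.a * m.1 + φ.b * m.2 + φ.u

/-- the second coordinate -/
def Fr.t (φ : Fr) (m : ℤ × ℤ) : ℤ := φ.c * m.1 + φ.d * m.2 + φ.v

/-- the inverse map -/
def Fr.inv (φ : Fr) (p : ℤ × ℤ) : ℤ × ℤ :=
  (φ.d * (p.1 - φ.u) - φ.b * (p.2 - φ.v), -φ.c * (p.1 - φ.u) + φ.a * (p.2 - φ.v))

theorem Fr.s_inv (φ : Fr) (p : ℤ × ℤ) : φ.s (φ.inv p) = p.1 := by
  unfold Fr.s Fr.inv
  simp only
  linear_combination (p.1 - φ.u) * φ.det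

theorem Fr.t_inv (φ : Fr) (p : ℤ × ℤ) : φ.t (φ.inv p) = p.2 := by
  unfold Fr.t Fr.inv
  simp only
  linear_combination (p.2 - φ.v) * φ.det

theorem Fr.inj (φ : Fr) {m m' : ℤ × ℤ} (h1 : φ.s m = φ.s m') (h2 : φ.t m = φ.t m') : m = m' := by
  unfold Fr.s at h1
  unfold Fr.t at h2
  ext
  · linear_combination φ.d * h1 - φ.b * h2 + (m'.1 - m.1) * φ.det
  · linear_combination (-φ.c) * h1 + φ.a * h2 + (m'.2 - m.2) * φ.det

/-- the frame at the end of the first edge of a corner triangle -/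
def Fr.L (φ : Fr) (u : ℤ) : Fr where
  a := φ.a + φ.c
  b := φ.b + φ.d
  c := φ.c
  d := φ.d
  u := φ.u + φ.v - u
  v := φ.v
  det := by linear_combination φ.det

/-- the frame at the end of the second edge of a corner triangle -/
def Fr.R (φ : Fr) (u : ℤ) : Fr where
  a := φ.a
  b := φ.b
  c := φ.a + φ.c
  d := φ.b + φ.d
  u := φ.u
  v := φ.u + φ.v - u
  det := by linear_combination φ.det

theorem Fr.L_s (φ : Fr) (u : ℤ) (m : ℤ × ℤ) : (φ.L u).s m = φ.s m + φ.t m - u := by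
  unfold Fr.s Fr.t Fr.L
  simp only
  ring

theorem Fr.L_t (φ : Fr) (u : ℤ) (m : ℤ × ℤ) : (φ.L u).t m = φ.t m := rfl

theorem Fr.R_s (φ : Fr) (u : ℤ) (m : ℤ × ℤ) : (φ.R u).s m = φ.s m := rfl

theorem Fr.R_t (φ : Fr) (u : ℤ) (m : ℤ × ℤ) : (φ.R u).t m = φ.s m + φ.t m - u := by
  unfold Fr.s Fr.t Fr.R
  simp only
  ring

/-- cutting off one triangle -/
theorem cut_one (φ : Fr) (u : ℕ) {R : Finset (ℤ × ℤ)} (hR0 : ∀ m ∈ R, 0 ≤ m.1 ∧ 0 ≤ m.2)
    (hR : ∀ m ∈ R, 0 ≤ φ.s m ∧ 0 ≤ φ.t m)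
    (hfull : ∀ m, 0 ≤ φ.s m → 0 ≤ φ.t m → φ.s m + φ.t m < u → m ∈ R) :
    (∀ w, crkM R ({u} + w) ≤ crkM (R.filter fun m => (u : ℤ) ≤ φ.s m + φ.t m) w) ∧
      R.card = (R.filter fun m => (u : ℤ) ≤ φ.s m + φ.t m).card + (u + 1).choose 2 := by
  classical
  obtain ⟨R', hR'⟩ : ∃ R', R' = R.filter fun m => (u : ℤ) ≤ φ.s m + φ.t m := ⟨_, rfl⟩
  obtain ⟨T, hT⟩ : ∃ T, T = R.filter fun m => ¬ (u : ℤ) ≤ φ.s m + φ.t m := ⟨_, rfl⟩
  have hTR : R = T ∪ R' := by
    rw [hT, hR', union_comm, filter_union_filter_not_eq]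
  have hmT : ∀ m, m ∈ T ↔ 0 ≤ φ.s m ∧ 0 ≤ φ.t m ∧ φ.s m + φ.t m < u := by
    intro m
    rw [hT, mem_filter, not_le]
    constructor
    · rintro ⟨h1, h2⟩
      exact ⟨(hR m h1).1, (hR m h1).2, h2⟩
    · rintro ⟨h1, h2, h3⟩
      exact ⟨hfull m h1 h2 h3, h3⟩
  rw [← hR']
  have hcard : T.card = (u + 1).choose 2 := by
    rcases Nat.eq_zero_or_pos u with h0 | h0
    · subst h0
      rw [Nat.choose_eq_zero_of_lt (by norm_num), card_eq_zero, eq_empty_iff_forall_notMem]
      intro m hm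
      rw [hmT] at hm
      push_cast at hm
      omega
    · obtain ⟨k, rfl⟩ : ∃ k, u = k + 1 := ⟨u - 1, by omega⟩
      rw [← card_TF k]
      refine card_bij' (fun m _ => (φ.s m, φ.t m)) (fun p _ => φ.inv p) ?_ ?_ ?_ ?_
      · intro m hm
        rw [hmT] at hm
        rw [mem_TF]
        push_cast at hm
        refine ⟨hm.1, hm.2.1, ?_⟩
        change φ.s m + φ.t m ≤ k
        omega
      · intro p hp
        rw [mem_TF] at hp
        rw [hmT, φ.s_inv, φ.t_inv]
        push_cast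
        refine ⟨hp.1, hp.2.1, ?_⟩
        omega
      · intro m _
        exact φ.inj (by rw [φ.s_inv]) (by rw [φ.t_inv])
      · intro p _
        rw [φ.s_inv, φ.t_inv]
  have hdis : Disjoint T R' := by
    rw [disjoint_left]
    intro m h1 h2
    rw [hmT] at h1
    rw [hR', mem_filter] at h2
    omega
  have hzero : crkM T {u} = 0 := by
    rcases Nat.eq_zero_or_pos u with h0 | h0
    · subst h0
      have h1 := crkM_le_card T {0}
      rw [hcard] at h1
      simpa using h1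
    · obtain ⟨k, rfl⟩ : ∃ k, u = k + 1 := ⟨u - 1, by omega⟩
      have h1 : crkM T {k + 1} ≤ crkM (TF k) {k + 1} := by
        refine crk_map φ.a φ.b φ.c φ.d φ.u φ.v (by rw [φ.det]; norm_num) ?_
        intro m hm
        rw [hmT] at hm
        rw [mem_TF]
        push_cast at hm
        unfold Fr.s Fr.t at hm
        refine ⟨hm.1, hm.2.1, ?_⟩
        have := hm.2.2
        change φ.a * m.1 + φ.b * m.2 + φ.u + (φ.c * m.1 + φ.d * m.2 + φ.v) ≤ k
        omega
      rw [crkM_single] at h1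
      omega
  refine ⟨fun w => ?_, ?_⟩
  · have h1 := crkM_cut (M := {u}) (N := w) (S := T) (T := R')
      (fun m hm => hR0 m (by rw [hTR]; exact mem_union_left _ hm))
      (fun m hm => hR0 m (by rw [hTR]; exact mem_union_right _ hm))
      (φ.a + φ.c) (φ.b + φ.d) (by
        intro m hm m' hm'
        rw [hmT] at hm
        rw [hR', mem_filter] at hm'
        have h2 := hm.2.2
        have h3 := hm'.2
        unfold Fr.s Fr.t at h2 h3
        linarith)
    rw [← hTR, hzero, zero_add] at h1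
    exact h1
  · conv_lhs => rw [hTR, card_union_of_disjoint hdis, hcard]
    ring

/-- The multiplicities of points which can be cut off at a corner, using the length `e` of the
first edge and the length `f` of the second. -/
inductive Corner : ℕ → ℕ → Multiset ℕ → Prop
  | nil (e f : ℕ) : Corner e f 0
  | cut {e f u x y : ℕ} {L R : Multiset ℕ} (he : u ≤ e) (hf : u ≤ f) (h : x + y ≤ u)
      (hL : Corner (e - u) x L) (hR : Corner y (f - u) R) : Corner e f (u ::ₘ (L + R))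

/-- the region which remains at the corner -/
structure Good (e f : ℕ) (M : Multiset ℕ) (P : ℤ × ℤ → Prop) : Prop where
  poly : IsPoly P
  tri : ∀ s t : ℤ, 0 ≤ s → 0 ≤ t → ¬ P (s, t) → f * s + e * t < e * f
  cut : ∀ (φ : Fr) (R : Finset (ℤ × ℤ)), (∀ m ∈ R, 0 ≤ m.1 ∧ 0 ≤ m.2) →
    (∀ m ∈ R, 0 ≤ φ.s m ∧ 0 ≤ φ.t m) →
    (∀ m, 0 ≤ φ.s m → 0 ≤ φ.t m → ¬ P (φ.s m, φ.t m) → m ∈ R) →
    ∃ R' : Finset (ℤ × ℤ), (∀ m, m ∈ R' ↔ m ∈ R ∧ P (φ.s m, φ.t m)) ∧
      (∀ w, crkM R (M + w) ≤ crkM R' w) ∧ R.card = R'.card + NU.condM M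

/-- larger second edge -/
theorem tri_mono {e f f' : ℕ} {s t : ℤ} (ht : 0 ≤ t) (hf : f ≤ f')
    (h : (f : ℤ) * s + e * t < e * f) : (f' : ℤ) * s + e * t < e * f' := by
  have he : (0 : ℤ) ≤ e := Nat.cast_nonneg _
  have hf0 : (0 : ℤ) < f := by
    rcases Nat.eq_zero_or_pos f with h0 | h0
    · exfalso
      subst h0
      have := mul_nonneg he ht
      push_cast at h
      linarith
    · exact_mod_cast h0
  have hff : (f : ℤ) ≤ f' := by exact_mod_cast hf
  have h1 : (f : ℤ) * s < e * (f - t) := by linarith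
  have h2 : (f' : ℤ) * (f * s) < f' * (e * (f - t)) :=
    mul_lt_mul_of_pos_left h1 (by linarith)
  have h3 : 0 ≤ (e : ℤ) * (t * (f' - f)) := mul_nonneg he (mul_nonneg ht (by linarith))
  have h4 : (f : ℤ) * (f' * s) < f * (e * (f' - t)) := by
    have e1 : (f : ℤ) * (f' * s) = f' * (f * s) := by ring
    have e2 : (f : ℤ) * (e * (f' - t)) = f' * (e * (f - t)) + e * (t * (f' - f)) := by ring
    rw [e1, e2]
    linarith
  have h5 := lt_of_mul_lt_mul_left h4 hf0.le
  linarith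

/-- larger first edge -/
theorem tri_mono' {e e' f : ℕ} {s t : ℤ} (hs : 0 ≤ s) (he : e ≤ e')
    (h : (f : ℤ) * s + e * t < e * f) : (f : ℤ) * s + e' * t < e' * f := by
  have h1 := tri_mono (e := f) (f := e) (f' := e') (s := t) (t := s) hs he (by linarith)
  linarith

theorem lt_of_tri {e f : ℕ} {s t : ℤ} (hs : 0 ≤ s)
    (h : (f : ℤ) * s + e * t < e * f) : t < f := by
  by_contra hcon
  push Not at hcon
  have h1 : (e : ℤ) * f ≤ e * t := mul_le_mul_of_nonneg_left hcon (Nat.cast_nonneg _)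
  have h2 : 0 ≤ (f : ℤ) * s := mul_nonneg (Nat.cast_nonneg _) hs
  linarith

theorem lt_of_tri' {e f : ℕ} {s t : ℤ} (ht : 0 ≤ t)
    (h : (f : ℤ) * s + e * t < e * f) : s < e :=
  lt_of_tri (e := f) (f := e) ht (by linarith)

theorem condM_cons (u : ℕ) (M : Multiset ℕ) : NU.condM (u ::ₘ M) = (u + 1).choose 2 + NU.condM M := by
  unfold Pool.Agent.TH2.NU.condM
  rw [Multiset.map_cons, Multiset.sum_cons]

theorem condM_single (u : ℕ) : NU.condM {u} = (u + 1).choose 2 := by
  unfold Pool.Agent.TH2.NU.condM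
  simp

theorem exists_good {e f : ℕ} {M : Multiset ℕ} (h : Corner e f M) : ∃ P, Good e f M P := by
  classical
  induction h with
  | nil e f =>
    refine ⟨fun _ => True, IsPoly.true, fun s t _ _ h => absurd trivial h, ?_⟩
    intro φ R _ _ _
    refine ⟨R, fun m => by simp, fun w => by simp, ?_⟩
    unfold Pool.Agent.TH2.NU.condM
    simp
  | @cut e f u x y L R he hf hxy _ _ ihL ihR =>
    obtain ⟨PL, hL⟩ := ihL
    obtain ⟨PR, hR⟩ := ihR
    -- the left and the right corners are disjoint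
    have hLt : ∀ s t : ℤ, 0 ≤ s + t - u → 0 ≤ t → ¬ PL (s + t - u, t) →
        (0 ≤ s ∧ t < x) ∧ (u : ℤ) * s + e * t < e * u := by
      intro s t h1 h2 h3
      have h4 := hL.tri _ _ h1 h2 h3
      have h5 : t < x := lt_of_tri h1 h4
      have h6 := tri_mono (f' := u) h2 (by omega) h4
      have hue : ((e - u : ℕ) : ℤ) = e - u := Nat.cast_sub he
      rw [hue] at h6
      refine ⟨⟨by omega, h5⟩, ?_⟩
      linarith
    have hRt : ∀ s t : ℤ, 0 ≤ s → 0 ≤ s + t - u → ¬ PR (s, s + t - u) →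
        (0 ≤ t ∧ s < y) ∧ (f : ℤ) * s + u * t < u * f := by
      intro s t h1 h2 h3
      have h4 := hR.tri _ _ h1 h2 h3
      have h5 : s < y := lt_of_tri' h2 h4
      have h6 := tri_mono' (e' := u) h1 (by omega) h4
      have hue : ((f - u : ℕ) : ℤ) = f - u := Nat.cast_sub hf
      rw [hue] at h6
      refine ⟨⟨by omega, h5⟩, ?_⟩
      linarith
    refine ⟨fun m => (u : ℤ) ≤ 1 * m.1 + 1 * m.2 ∧
      (PL (1 * m.1 + 1 * m.2 + (-u), 0 * m.1 + 1 * m.2 + 0) ∧
        PR (1 * m.1 + 0 * m.2 + 0, 1 * m.1 + 1 * m.2 + (-u))), ?_, ?_, ?_⟩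
    · exact (IsPoly.half 1 1 u).and ((hL.poly.subst 1 1 0 1 (-u) 0).and
        (hR.poly.subst 1 0 1 1 0 (-u)))
    · intro s t hs ht h
      have e1 : ((1 * s + 1 * t + (-u), 0 * s + 1 * t + 0) : ℤ × ℤ) = (s + t - u, t) := by
        ext
        · ring
        · ring
      have e2 : ((1 * s + 0 * t + 0, 1 * s + 1 * t + (-u)) : ℤ × ℤ) = (s, s + t - u) := by
        ext
        · ring
        · ring
      simp only [e1, e2] at h
      by_cases h1 : (u : ℤ) ≤ 1 * s + 1 * t
      · by_cases h2 : PL (s + t - u, t)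
        · by_cases h3 : PR (s, s + t - u)
          · exact absurd ⟨h1, h2, h3⟩ h
          · have h4 := hRt s t hs (by linarith) h3
            exact tri_mono' hs he h4.2
        · have h4 := hLt s t (by linarith) ht h2
          exact tri_mono ht hf h4.2
      · push Not at h1
        have h2 : (u : ℤ) * s + u * t < u * u := by
          have h3 : (0 : ℤ) < u := by linarith
          have h4 := mul_lt_mul_of_pos_left h1 h3
          linarith
        exact tri_mono ht hf (tri_mono' hs he h2)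
    · intro φ R0 hR0 hRs hfull
      have e1 : ∀ m, ((1 * φ.s m + 1 * φ.t m + (-u), 0 * φ.s m + 1 * φ.t m + 0) : ℤ × ℤ) =
          (φ.s m + φ.t m - u, φ.t m) := by
        intro m
        ext
        · ring
        · ring
      have e2 : ∀ m, ((1 * φ.s m + 0 * φ.t m + 0, 1 * φ.s m + 1 * φ.t m + (-u)) : ℤ × ℤ) =
          (φ.s m, φ.s m + φ.t m - u) := by
        intro m
        ext
        · ring
        · ring
      simp only [e1, e2] at hfull ⊢
      simp only [one_mul] at hfull ⊢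
      obtain ⟨c1, c2⟩ := cut_one φ u hR0 hRs (fun m h1 h2 h3 => hfull m h1 h2 (by
        rintro ⟨h4, -⟩
        omega))
      obtain ⟨R1, hR1⟩ : ∃ R1, R1 = R0.filter fun m => (u : ℤ) ≤ φ.s m + φ.t m := ⟨_, rfl⟩
      rw [← hR1] at c1 c2
      have hm1 : ∀ m, m ∈ R1 ↔ m ∈ R0 ∧ (u : ℤ) ≤ φ.s m + φ.t m := by
        intro m
        rw [hR1, mem_filter]
      obtain ⟨R2, hR2, c3, c4⟩ := hL.cut (φ.L u) R1 (fun m hm => hR0 m ((hm1 m).1 hm).1) (by
          intro m hm
          rw [Fr.L_s, Fr.L_t]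
          have := (hm1 m).1 hm
          exact ⟨by linarith [this.2], (hRs m this.1).2⟩) (by
          intro m h1 h2 h3
          rw [Fr.L_s] at h1
          rw [Fr.L_t] at h2
          rw [Fr.L_s, Fr.L_t] at h3
          obtain ⟨h4, h5⟩ := hLt _ _ h1 h2 h3
          rw [hm1]
          refine ⟨hfull m h4.1 h2 ?_, by linarith⟩
          rintro ⟨-, h6, -⟩
          exact h3 h6)
      simp only [Fr.L_s, Fr.L_t] at hR2
      obtain ⟨R3, hR3, c5, c6⟩ := hR.cut (φ.R u) R2 (fun m hm =>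
          hR0 m ((hm1 m).1 ((hR2 m).1 hm).1).1) (by
          intro m hm
          rw [Fr.R_s, Fr.R_t]
          have := (hm1 m).1 ((hR2 m).1 hm).1
          exact ⟨(hRs m this.1).1, by linarith [this.2]⟩) (by
          intro m h1 h2 h3
          rw [Fr.R_s] at h1
          rw [Fr.R_t] at h2
          rw [Fr.R_s, Fr.R_t] at h3
          obtain ⟨h4, h5⟩ := hRt _ _ h1 h2 h3
          rw [hR2, hm1]
          refine ⟨⟨hfull m h1 h4.1 ?_, by linarith⟩, ?_⟩
          · rintro ⟨-, -, h6⟩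
            exact h3 h6
          · by_contra h6
            have h7 := hLt _ _ h2 h4.1 h6
            have := h7.1.2
            omega)
      simp only [Fr.R_s, Fr.R_t] at hR3
      refine ⟨R3, fun m => ?_, fun w => ?_, ?_⟩
      · rw [hR3, hR2, hm1]
        tauto
      · have g1 := c1 (L + (R + w))
        have g2 := c3 (R + w)
        have g3 := c5 w
        have e3 : u ::ₘ (L + R) + w = {u} + (L + (R + w)) := by
          rw [← Multiset.singleton_add, add_assoc, add_assoc]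
        rw [e3]
        omega
      · rw [condM_cons, condM_add]
        omega

end Pool.Agent.K7.H33.BP
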