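import Pool.Agent.K7.H33.SH.Segre

set_option autoImplicit false

/-!
# A `(-1)`-curve meeting a nonempty system at most `-2` times makes it special
-/

namespace Pool.Agent.K7.H33.BP.HH

open MvPolynomial Pool.Agent.W609 Pool.Agent.W609.CR Pool.Agent.K7.H33.SH

/-- A nonempty system which meets a `(-1)`-curve at most `-2` times is special. -/
theorem special_of_curve {K : Type} [Field K] {s : ℕ} {P : Fin s → Fin 2 → K}
    (hP : Function.Injective P) {d : ℕ} {w : Fin s → ℕ} {C : MvPolynomial (Fin 3) K} {e : ℕ}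
    {u : Fin s → ℕ} (hC : Exc P C e u) (h2 : ip d w e u ≤ -2)
    (hV : 0 < Module.finrank K ↥(VS (fun j => aff (P j)) w d)) : Special P d w := by
  classical
  obtain ⟨N, hN⟩ : ∃ N : ℕ, (N : ℤ) = - ip d w e u := ⟨(- ip d w e u).toNat, by omega⟩
  have hN2 : 2 ≤ N := by omega
  have hfin0 := vs_fin (fun j => aff (P j)) w d
  have hNe : N * e ≤ d := by
    have h1 : Nontrivial ↥(VS (fun j => aff (P j)) w d) := Module.finrank_pos_iff.1 hV
    obtain ⟨⟨f, hf⟩, hf0⟩ := exists_ne (0 : ↥(VS (fun j => aff (P j)) w d))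
    have hf1 : f ≠ 0 := fun h => hf0 (Subtype.ext h)
    obtain ⟨g, hg⟩ := exc_pow_dvd hP hC N d w (by omega) f hf
    have hg0 : g ≠ 0 := by
      rintro rfl
      exact hf1 (by rw [hg, mul_zero])
    rw [mem_VS] at hf
    have hdeg : f.totalDegree = d := hf.1.totalDegree hf1
    have hCN : C ^ N ≠ 0 := pow_ne_zero _ hC.irr.ne_zero
    have hdeg2 : (C ^ N).totalDegree = e * N := (hC.hom.pow N).totalDegree hCN
    rw [hg, MvPolynomial.totalDegree_mul_of_isDomain hCN hg0, hdeg2] at hdeg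
    rw [mul_comm]
    omega
  obtain ⟨w', hw'⟩ : ∃ w' : Fin s → ℕ, w' = fun j => w j - N * u j := ⟨_, rfl⟩
  have hle : Submodule.map (LinearMap.mulLeft K (C ^ N)) (VS (fun j => aff (P j)) w' (d - N * e)) ≤
      VS (fun j => aff (P j)) w d := by
    rintro _ ⟨g, hg, rfl⟩
    have hg' : g ∈ VS (fun j => aff (P j)) w' (d - N * e) := hg
    rw [mem_VS] at hg' ⊢
    rw [LinearMap.mulLeft_apply]
    constructor
    · have h1 : (C ^ N).IsHomogeneous (e * N) := hC.hom.pow N
      have h3 := h1.mul hg'.1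
      have h4 : e * N + (d - N * e) = d := by
        rw [mul_comm e N]
        omega
      rw [h4] at h3
      exact h3
    · intro j
      have h3 := van_mul (van_pow (hC.ord j).1 N) (hg'.2 j)
      refine van_mono ?_ h3
      rw [hw']
      simp only
      omega
  have hfr : Module.finrank K ↥(VS (fun j => aff (P j)) w' (d - N * e)) ≤
      Module.finrank K ↥(VS (fun j => aff (P j)) w d) := by
    have hinj : Function.Injective (LinearMap.mulLeft K (C ^ N)) := by
      intro a b hab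
      rw [LinearMap.mulLeft_apply, LinearMap.mulLeft_apply] at hab
      exact mul_left_cancel₀ (pow_ne_zero _ hC.irr.ne_zero) hab
    have h1 := (LinearEquiv.finrank_eq (Submodule.equivMapOfInjective _ hinj
      (VS (fun j => aff (P j)) w' (d - N * e)))).symm
    have hf := vs_fin (fun j => aff (P j)) w d
    rw [← h1]
    exact Submodule.finrank_mono hle
  have hchi : 2 * chi d w + N * ((N : ℤ) - 1) ≤ 2 * chi (d - N * e) w' := by
    have hx : ∀ (d : ℕ) (w : Fin s → ℕ), 2 * chi d w =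
        ((d : ℤ) + 1) * (d + 2) - ∑ j, (w j : ℤ) * (w j + 1) := by
      intro d w
      rw [two_chi]
      unfold ip kk
      have h2 : ∀ j, (w j : ℤ) * (w j + 1) = (w j : ℤ) * w j + w j := fun j => by ring
      rw [Finset.sum_congr rfl fun j _ => h2 j, Finset.sum_add_distrib]
      ring
    rw [hx, hx, Nat.cast_sub hNe]
    have h3 : ∑ j, (w' j : ℤ) * (w' j + 1) ≤
        ∑ j, ((w j : ℤ) * (w j + 1) - N * (2 * ((w j : ℤ) * u j) + u j) +
          (N : ℤ) ^ 2 * ((u j : ℤ) * u j)) := by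
      refine Finset.sum_le_sum fun j _ => ?_
      have h4 : (w j : ℤ) * (w j + 1) - N * (2 * ((w j : ℤ) * u j) + u j) +
          (N : ℤ) ^ 2 * ((u j : ℤ) * u j) = ((w j : ℤ) - N * u j) * (((w j : ℤ) - N * u j) + 1) := by
        ring
      rw [h4, hw']
      simp only
      rcases le_total (N * u j) (w j) with h5 | h5
      · rw [Nat.cast_sub h5]
        push_cast
        exact le_rfl
      · have h6 : w j - N * u j = 0 := by omega
        rw [h6]
        have h7 : (w j : ℤ) - N * u j ≤ 0 := by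
          have : (w j : ℤ) ≤ ((N * u j : ℕ) : ℤ) := by exact_mod_cast h5
          push_cast at this
          linarith
        rcases h7.eq_or_lt with h8 | h8
        · rw [h8]
          norm_num
        · have h9 : ((w j : ℤ) - N * u j) + 1 ≤ 0 := by omega
          have := mul_nonneg_of_nonpos_of_nonpos h7 h9
          simpa using this
    have h5 := self_iff.1 hC.self
    have h6 := can_iff.1 hC.can
    unfold ip at h5 hN
    unfold kk at h6
    rw [Finset.sum_add_distrib, Finset.sum_sub_distrib, ← Finset.mul_sum, ← Finset.mul_sum,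
      Finset.sum_add_distrib, ← Finset.mul_sum] at h3
    obtain ⟨a1, ha1⟩ : ∃ a1, a1 = ∑ j, (w j : ℤ) * u j := ⟨_, rfl⟩
    obtain ⟨a2, ha2⟩ : ∃ a2, a2 = ∑ j, (u j : ℤ) * u j := ⟨_, rfl⟩
    obtain ⟨a3, ha3⟩ : ∃ a3, a3 = ∑ j, (u j : ℤ) := ⟨_, rfl⟩
    rw [← ha1, ← ha2, ← ha3] at h3
    rw [← ha2] at h5
    rw [← ha1] at hN
    rw [← ha3] at h6
    push_cast
    have g1 : a2 = (e : ℤ) * e + 1 := by linarith
    have g2 : a3 = 3 * (e : ℤ) - 1 := by linarith
    have g3 : a1 = (d : ℤ) * e + N := by linarith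
    rw [g1, g2, g3] at h3
    have e1 : ((d : ℤ) - N * e + 1) * ((d : ℤ) - N * e + 2) = ((d : ℤ) + 1) * (d + 2) -
      N * (2 * (d * e) + 3 * e) + (N : ℤ) ^ 2 * (e * e) := by ring
    rw [e1]
    have e2 : (N : ℤ) * (2 * ((d : ℤ) * e + N) + (3 * (e : ℤ) - 1)) =
      N * (2 * (d * e) + 3 * e) + 2 * (N : ℤ) ^ 2 - N := by ring
    have e3 : (N : ℤ) ^ 2 * ((e : ℤ) * e + 1) = (N : ℤ) ^ 2 * (e * e) + (N : ℤ) ^ 2 := by ring
    rw [e2, e3] at h3
    have e4 : (N : ℤ) * ((N : ℤ) - 1) = (N : ℤ) ^ 2 - N := by ring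
    rw [e4]
    linarith
  have h4 := chi_le_dim P (d - N * e) w'
  rw [special_iff]
  refine ⟨hV, ?_⟩
  have h5 : (2 : ℤ) ≤ N * ((N : ℤ) - 1) := by
    have : (2 : ℤ) ≤ N := by exact_mod_cast hN2
    nlinarith
  have h6 : (Module.finrank K ↥(VS (fun j => aff (P j)) w' (d - N * e)) : ℤ) ≤
    (Module.finrank K ↥(VS (fun j => aff (P j)) w d) : ℤ) := by exact_mod_cast hfr
  omega

end Pool.Agent.K7.H33.BP.HH
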