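import Pool.Agent.K7.H33.BP.HHNine
import Pool.Agent.K7.H33.BP.Crv

set_option autoImplicit false

/-!
# The Harbourne-Hirschowitz statement in terms of curves
-/

namespace Pool.Agent.K7.H33.BP.HH

open MvPolynomial Pool.Agent.W609 Pool.Agent.W609.CR Pool.Agent.K7.H33.SH

theorem room_cases {r : ℕ} {d μ : ℕ} {w : Fin (r + 4) → ℕ}
    (h : 60000002 * (((μ : ℤ) + 1) ^ 2 * (d + μ + 2)) ≤ room μ d w) :
    30000000 * (((μ : ℤ) + 1) * (d + μ + 2)) ≤ 4 * chi d w ∨ Iv μ d w := by
  obtain ⟨Q, hQ⟩ : ∃ Q : ℤ, Q = ((μ : ℤ) + 1) * (d + μ + 2) := ⟨_, rfl⟩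
  have hμ0 : (0 : ℤ) ≤ μ := Nat.cast_nonneg _
  have hd0 : (0 : ℤ) ≤ d := Nat.cast_nonneg _
  have hQ0 : 0 ≤ Q := by rw [hQ]; positivity
  obtain ⟨T, hT⟩ : ∃ T : ℤ, T = ∑ j, if w j ≤ μ then (w j : ℤ) * (w j + 1) else 0 := ⟨_, rfl⟩
  have hchi : 2 * chi d w = room μ d w - T := by
    rw [two_chi]
    unfold ip kk room gA
    rw [hT]
    have h2 : ∀ j, (w j : ℤ) * w j + w j = (if μ < w j then (w j : ℤ) * (w j + 1) else 0) +
        (if w j ≤ μ then (w j : ℤ) * (w j + 1) else 0) := by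
      intro j
      rcases Nat.lt_or_ge μ (w j) with h | h
      · rw [if_pos h, if_neg (by omega)]
        ring
      · rw [if_neg (by omega), if_pos h]
        ring
    have h3 := Finset.sum_congr rfl fun j (_ : j ∈ Finset.univ) => h2 j
    rw [Finset.sum_add_distrib, Finset.sum_add_distrib] at h3
    linarith
  have hle : T ≤ (μ + 1) * small μ w := by
    rw [hT]
    unfold small gS
    rw [Finset.mul_sum]
    refine Finset.sum_le_sum fun i _ => ?_
    split_ifs with h3
    · have h4 : (w i : ℤ) ≤ μ := by exact_mod_cast h3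
      have h5 : (0 : ℤ) ≤ w i := Nat.cast_nonneg _
      rw [mul_comm]
      exact mul_le_mul_of_nonneg_right (by linarith) h5
    · simp
  have e : ((μ : ℤ) + 1) ^ 2 * (d + μ + 2) = (μ + 1) * Q := by rw [hQ]; ring
  rw [e] at h
  have hK : Q ≤ (μ + 1) * Q := by
    have := mul_nonneg hμ0 hQ0
    linarith
  unfold Iv
  rw [← hQ]
  by_cases h2 : 2 * T ≤ room μ d w
  · left
    linarith
  · right
    push Not at h2
    constructor
    · have h5 : (μ + 1) * (30000001 * Q) < (μ + 1) * small μ w := by linarith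
      exact (lt_of_mul_lt_mul_left h5 (by linarith)).le
    · linarith

/-- General points are different. -/
theorem inj_general (r : ℕ) : ∃ F' : MvPolynomial (Fin (r + 4) × Fin 2) ℚ, F' ≠ 0 ∧
    ∀ (K : Type) [Field K] [CharZero K] (P : Fin (r + 4) → Fin 2 → K), evP P F' ≠ 0 →
      Function.Injective P := by
  classical
  refine ⟨∏ i ∈ Finset.univ.filter (fun i : Fin 3 → Fin (r + 4) => Function.Injective i),
      (mR i).det, ?_, ?_⟩
  · refine Finset.prod_ne_zero_iff.2 fun i hi => ?_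
    rw [Finset.mem_filter] at hi
    intro h0
    obtain ⟨K, _, _, P, hP⟩ := exists_generic (r + 4)
    obtain ⟨P', hP', hr⟩ := exists_crel hP hi.2
    have h1 := mR_det P i
    rw [h0, map_zero] at h1
    exact hr.det h1.symm
  · intro K' _ _ P' hP'
    rw [map_prod] at hP'
    refine inj_of_det fun i hi => ?_
    rw [← mR_det]
    exact Finset.prod_ne_zero_iff.1 hP' i (Finset.mem_filter.2 ⟨Finset.mem_univ _, hi⟩)

/-- For all systems, all but nine of whose multiplicities are at most `μ`. -/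
theorem conv_nine {r : ℕ} (d μ : ℕ) (w : Fin (r + 4) → ℕ)
    (h9 : (Finset.univ.filter fun i => μ < w i).card ≤ 9)
    (h : (30000000 * (((μ : ℤ) + 1) * (d + μ + 2)) ≤ 4 * chi d w ∨ Iv μ d w) ∨
      (Reduced d w ∧ 30000000 * (((μ : ℤ) + 1) * (d + μ + 2)) ≤ small μ w + 4 * |chi d w|)) :
    ∃ F : MvPolynomial (Fin (r + 4) × Fin 2) ℂ, F ≠ 0 ∧
      ∀ P : Fin (r + 4) → Fin 2 → ℂ,
        MvPolynomial.eval (fun ij : Fin (r + 4) × Fin 2 => P ij.1 ij.2) F ≠ 0 →
          (Pool.Agent.TH167.SHDefs.Special P d w ↔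
            Pool.Agent.TH167.SHDefs.sys P d w ≠ ⊥ ∧
              ∃ (G : MvPolynomial (Fin 3) ℂ) (e : ℕ) (u : Fin (r + 4) → ℕ),
                Pool.Agent.TH167.SHDefs.MinusOne P G e u ∧
                  Pool.Agent.TH167.SHDefs.inter d w e u ≤ -2) ∧
          (Reduced d w → ¬ Pool.Agent.TH167.SHDefs.Special P d w) := by
  classical
  obtain ⟨F, hF, h1⟩ : ∃ F : MvPolynomial (Fin (r + 4) × Fin 2) ℚ, F ≠ 0 ∧
      ∀ (K : Type) [Field K] [CharZero K] (P : Fin (r + 4) → Fin 2 → K), evP P F ≠ 0 →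
        (Special P d w → MSpecial P d w) := by
    rcases h with (h | h) | ⟨h, h0⟩
    · obtain ⟨F, hF, hF'⟩ := hh_nine_big d μ w h9 h
      exact ⟨F, hF, fun K _ _ P hP => (hF' K P hP).1⟩
    · obtain ⟨F, hF, hF'⟩ := hh_nine_many d μ w h9 h
      exact ⟨F, hF, fun K _ _ P hP => (hF' K P hP).1⟩
    · obtain ⟨F, hF, hF'⟩ := nine_points w
      refine ⟨F, hF, fun K _ _ P hP hs => ?_⟩
      exfalso
      have hE := hF' P hP d μ _ (nineStd_of h h9) (fun i hi => by
        by_contra h2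
        exact hi (Finset.mem_filter.2 ⟨Finset.mem_univ _, by omega⟩)) (num_nine h0)
      have hE' : Module.finrank K ↥(VS (fun j => aff (P j)) w d) =
          (d + 2).choose 2 - ∑ j, (w j + 1).choose 2 := by
        rw [vs_eq_forms]
        exact hE
      rw [special_iff, hE'] at hs
      unfold chi at hs
      have h6 : (∑ j, ((w j + 1).choose 2 : ℤ)) = ((∑ j, (w j + 1).choose 2 : ℕ) : ℤ) := by
        push_cast
        rfl
      rw [h6] at hs
      omega
  obtain ⟨F', hF', h'⟩ := inj_general r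
  refine ⟨(F * F').map (algebraMap ℚ ℂ), map_ne (mul_ne_zero hF hF'), fun P hP => ?_⟩
  rw [evP_eval, map_mul] at hP
  have hinj := h' ℂ P (right_ne_zero_of_mul hP)
  have h2 := h1 ℂ P (left_ne_zero_of_mul hP)
  have hbot : Pool.Agent.TH167.SHDefs.sys P d w ≠ ⊥ ↔
      0 < Module.finrank ℂ ↥(VS (fun j => aff (P j)) w d) := by
    rw [sys_eq]
    have hf := vs_fin (fun j => aff (P j)) w d
    rw [Nat.pos_iff_ne_zero, Ne, Ne, Submodule.finrank_eq_zero]
  constructor
  · constructor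
    · intro hs
      have h3 := (special_conv P d w).1 hs
      refine ⟨hbot.2 ((special_iff P d w).1 h3).1, ?_⟩
      exact mspecial_curve ((mspecial_conv P d w).2 (h2 h3))
    · rintro ⟨hV, G, e, u, hG, hG2⟩
      rw [special_conv]
      exact special_of_curve hinj (minusOne_iff.1 hG) hG2 (hbot.1 hV)
  · intro hred hs
    obtain ⟨G, e, u, hG, hG2⟩ :=
      mspecial_curve ((mspecial_conv P d w).2 (h2 ((special_conv P d w).1 hs)))
    have h3 := red_nef hred (minusOne_iff.1 hG)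
    rw [← inter_eq] at h3
    omega

end Pool.Agent.K7.H33.BP.HH
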