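import Pool.Agent.K7.H33.SH.Main

set_option autoImplicit false

/-!
# Invariants of the reduction
-/

namespace Pool.Agent.K7.H33.BP.HH

open Pool.Agent.W609 Pool.Agent.W609.CR Pool.Agent.K7.H33.SH

/-- the conditions of a large multiplicity, doubled -/
def gA (μ x : ℕ) : ℤ := if μ < x then (x : ℤ) * (x + 1) else 0

/-- a small multiplicity -/
def gS (μ x : ℕ) : ℤ := if x ≤ μ then (x : ℤ) else 0

/-- the room which is left by the large multiplicities, doubled -/
def room {s : ℕ} (μ d : ℕ) (w : Fin s → ℕ) : ℤ :=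
  ((d : ℤ) + 1) * (d + 2) - ∑ j, gA μ (w j)

/-- the sum of the small multiplicities -/
def small {s : ℕ} (μ : ℕ) (w : Fin s → ℕ) : ℤ := ∑ j, gS μ (w j)

theorem gA_nonneg (μ x : ℕ) : 0 ≤ gA μ x := by
  unfold gA
  split_ifs
  · positivity
  · exact le_rfl

theorem gA_le (μ x : ℕ) : gA μ x ≤ (x : ℤ) * (x + 1) := by
  unfold gA
  split_ifs
  · exact le_rfl
  · positivity

theorem gS_nonneg (μ x : ℕ) : 0 ≤ gS μ x := by
  unfold gS
  split_ifs
  · positivity
  · exact le_rfl

theorem gA_drop {μ x t : ℕ} (h : μ < x) (ht : t ≤ x) :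
    (t : ℤ) * (2 * x + 1 - t) ≤ gA μ x - gA μ (x - t) := by
  have h1 := gA_le μ (x - t)
  have h2 : gA μ x = (x : ℤ) * (x + 1) := by
    unfold gA
    rw [if_pos h]
  rw [h2]
  rw [Nat.cast_sub ht] at h1
  have e : (t : ℤ) * (2 * x + 1 - t) = (x : ℤ) * (x + 1) - ((x : ℤ) - t) * ((x : ℤ) - t + 1) := by ring
  linarith

theorem gS_large {μ x : ℕ} (h : μ < x) : gS μ x = 0 := by
  unfold gS
  rw [if_neg (by omega)]

theorem split3 {s : ℕ} {a b c : Fin s} (hab : a ≠ b) (hac : a ≠ c) (hbc : b ≠ c) (f : Fin s → ℤ) :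
    ∑ j, f j = f a + f b + f c + ∑ j ∈ ({a, b, c} : Finset (Fin s))ᶜ, f j := by
  rw [← Finset.sum_add_sum_compl ({a, b, c} : Finset (Fin s)) f,
    Finset.sum_insert (by simp [hab, hac]), Finset.sum_insert (by simp [hbc]),
    Finset.sum_singleton]
  ring

theorem room_le_one {s : ℕ} {μ d : ℕ} {w : Fin s → ℕ} (a : Fin s) (h : μ < w a) :
    room μ d w ≤ ((d : ℤ) + 1) * (d + 2) - (w a : ℤ) * (w a + 1) := by
  unfold room
  have h1 : gA μ (w a) ≤ ∑ j, gA μ (w j) :=
    Finset.single_le_sum (f := fun j => gA μ (w j)) (fun j _ => gA_nonneg _ _) (Finset.mem_univ a)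
  have h2 : gA μ (w a) = (w a : ℤ) * (w a + 1) := by
    unfold gA
    rw [if_pos h]
  linarith

theorem room_le_all {s : ℕ} (μ d : ℕ) (w : Fin s → ℕ) :
    room μ d w ≤ ((d : ℤ) + 1) * (d + 2) := by
  unfold room
  have : 0 ≤ ∑ j, gA μ (w j) := Finset.sum_nonneg fun j _ => gA_nonneg _ _
  linarith

/-- there is room beyond each single point -/
theorem far {s : ℕ} {μ d : ℕ} {w : Fin s → ℕ} (a : Fin s) (ha : w a ≤ d)
    (h : 5 * (((μ : ℤ) + 1) * (d + μ + 2)) ≤ room μ d w) : w a + 2 * μ ≤ d := by
  by_contra hcon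
  push Not at hcon
  have hμ : (0 : ℤ) ≤ μ := Nat.cast_nonneg _
  have hd : (0 : ℤ) ≤ d := Nat.cast_nonneg _
  have h0 : (0 : ℤ) ≤ μ * d := mul_nonneg hμ hd
  rcases Nat.lt_or_ge μ (w a) with h1 | h1
  · have h2 := room_le_one a h1 (d := d)
    rcases Nat.lt_or_ge (d + 1) (2 * μ) with h3 | h3
    · have h4 : (d : ℤ) + 1 ≤ 2 * μ := by exact_mod_cast h3.le
      have h5 : ((d : ℤ) + 1) * (d + 2) ≤ 2 * μ * (d + 2) :=
        mul_le_mul_of_nonneg_right h4 (by linarith)
      have h6 : (0 : ℤ) ≤ (w a : ℤ) * (w a + 1) := by positivity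
      nlinarith
    · obtain ⟨x, hx⟩ : ∃ x : ℕ, d + 1 = 2 * μ + x := ⟨d + 1 - 2 * μ, by omega⟩
      have h4 : x ≤ w a := by omega
      have h5 : (x : ℤ) * (x + 1) ≤ (w a : ℤ) * (w a + 1) := by
        have h6 : (x : ℤ) ≤ w a := by exact_mod_cast h4
        have h7 : (0 : ℤ) ≤ x := Nat.cast_nonneg _
        nlinarith
      have h6 : (d : ℤ) = 2 * μ + x - 1 := by
        have : (d : ℤ) + 1 = 2 * μ + x := by exact_mod_cast hx
        linarith
      have h7 : (0 : ℤ) ≤ x := Nat.cast_nonneg _
      have h8 : (0 : ℤ) ≤ μ * x := mul_nonneg hμ h7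
      rw [h6] at h h2
      nlinarith
  · have h2 := room_le_all μ d w
    have h3 : (d : ℤ) + 1 ≤ 3 * μ := by
      have : d + 1 ≤ 3 * μ := by omega
      exact_mod_cast this
    have h5 : ((d : ℤ) + 1) * (d + 2) ≤ 3 * μ * (d + 2) :=
      mul_le_mul_of_nonneg_right h3 (by linarith)
    nlinarith

/-- the invariant -/
def Iv {s : ℕ} (μ d : ℕ) (w : Fin s → ℕ) : Prop :=
  30000001 * (((μ : ℤ) + 1) * (d + μ + 2)) ≤ small μ w ∧
    5 * (((μ : ℤ) + 1) * (d + μ + 2)) ≤ room μ d w

/-- the final invariant -/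
def Iw {s : ℕ} (μ d : ℕ) (w : Fin s → ℕ) : Prop :=
  Reduced d w ∧ 30000000 * (((μ : ℤ) + 1) * (d + μ + 2)) ≤ small μ w

theorem base_mono {μ d d' : ℕ} (h : d' ≤ d) :
    ((μ : ℤ) + 1) * (d' + μ + 2) ≤ ((μ : ℤ) + 1) * (d + μ + 2) := by
  have h5 : (d' : ℤ) ≤ d := by exact_mod_cast h
  exact mul_le_mul_of_nonneg_left (by linarith) (by positivity)

/-- a line -/
theorem Iv.line {s : ℕ} {μ d k : ℕ} {w : Fin s → ℕ} {a b : Fin s} (hab : a ≠ b)
    (hd : ∀ j, w j ≤ d) (hba : w b ≤ w a) (hk : w a + w b = d + k) (h : Iv μ d w) (hk0 : 0 < k) :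
    Iv μ (d - k) (sb a b k w) := by
  classical
  obtain ⟨h1, h2⟩ := h
  have h3 := far a (hd a) h2
  have h4 : μ < w b := by omega
  have hkb : k ≤ w b := by
    have := hd a
    omega
  have hka : k ≤ w a := by omega
  have hkd : k ≤ d := by
    have := hd b
    omega
  have hm := base_mono (μ := μ) (Nat.sub_le d k)
  have hsplit : ∀ f : Fin s → ℤ, ∑ j, f j = f a + f b + ∑ j ∈ ({a, b} : Finset (Fin s))ᶜ, f j := by
    intro f
    rw [← Finset.sum_add_sum_compl ({a, b} : Finset (Fin s)) f, Finset.sum_pair hab]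
  have ha' : sb a b k w a = w a - k := by
    unfold sb
    rw [if_pos (Or.inl rfl)]
  have hb' : sb a b k w b = w b - k := by
    unfold sb
    rw [if_pos (Or.inr rfl)]
  have hr' : ∀ j ∈ ({a, b} : Finset (Fin s))ᶜ, sb a b k w j = w j := by
    intro j hj
    rw [Finset.mem_compl, Finset.mem_insert, Finset.mem_singleton] at hj
    unfold sb
    rw [if_neg hj]
  constructor
  · have h5 : small μ w ≤ small μ (sb a b k w) := by
      unfold small
      rw [hsplit, hsplit (fun j => gS μ (sb a b k w j)), ha', hb', gS_large h4,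
        gS_large (lt_of_lt_of_le h4 hba)]
      have e : ∑ j ∈ ({a, b} : Finset (Fin s))ᶜ, gS μ (sb a b k w j) =
          ∑ j ∈ ({a, b} : Finset (Fin s))ᶜ, gS μ (w j) :=
        Finset.sum_congr rfl fun j hj => by rw [hr' j hj]
      rw [e]
      have := gS_nonneg μ (w a - k)
      have := gS_nonneg μ (w b - k)
      linarith
    linarith
  · have h5 : room μ d w ≤ room μ (d - k) (sb a b k w) := by
      unfold room
      rw [hsplit, hsplit (fun j => gA μ (sb a b k w j)), ha', hb']
      have e : ∑ j ∈ ({a, b} : Finset (Fin s))ᶜ, gA μ (sb a b k w j) =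
          ∑ j ∈ ({a, b} : Finset (Fin s))ᶜ, gA μ (w j) :=
        Finset.sum_congr rfl fun j hj => by rw [hr' j hj]
      rw [e]
      have g1 := gA_drop (μ := μ) (lt_of_lt_of_le h4 hba) hka
      have g2 := gA_drop (μ := μ) h4 hkb
      rw [Nat.cast_sub hkd]
      have e2 : ((d : ℤ) + 1) * (d + 2) = ((d : ℤ) - k + 1) * ((d : ℤ) - k + 2) +
        k * (2 * d + 3 - k) := by ring
      have e3 : (w a : ℤ) + w b = d + k := by exact_mod_cast hk
      have e4 : (k : ℤ) * (2 * w a + 1 - k) + k * (2 * w b + 1 - k) =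
        k * (2 * (w a + w b) + 2 - 2 * k) := by ring
      have e5 : (1 : ℤ) ≤ k := by exact_mod_cast hk0
      have e6 : (k : ℤ) * (2 * (d + k) + 2 - 2 * k) = k * (2 * d + 3 - k) + k * (k - 1) := by ring
      have e7 : (0 : ℤ) ≤ (k : ℤ) * (k - 1) := mul_nonneg (by linarith) (by linarith)
      rw [e3, e6] at e4
      linarith
    linarith

/-- a quadratic transformation -/
theorem Iv.quad {s : ℕ} {μ d t : ℕ} {w w' : Fin s → ℕ} {a b c : Fin s} (hab : a ≠ b)
    (hac : a ≠ c) (hbc : b ≠ c) (hd : ∀ j, w j ≤ d) (hba : w b ≤ w a) (hcb : w c ≤ w b)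
    (hj : ∀ j, j ≠ a → j ≠ b → w j ≤ w c) (hp : w a + w b ≤ d)
    (ht : w a + w b + w c = d + t) (h : Iv μ d w) (ha' : w' a = w a - t) (hb' : w' b = w b - t)
    (hc' : w' c = w c - t) (hr' : ∀ j, j ≠ a → j ≠ b → j ≠ c → w' j = w j) (ht0 : 0 < t) :
    Iv μ (d - t) w' ∨ Iw μ (d - t) w' := by
  classical
  obtain ⟨h1, h2⟩ := h
  have h3 := far a (hd a) h2
  have htc : t ≤ w c := by omega
  have h4 : μ < w b := by omega
  have htd : t ≤ d := by
    have := hd c
    omega
  have hm := base_mono (μ := μ) (Nat.sub_le d t)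
  have hrest : ∀ (g : ℕ → ℤ), ∑ j ∈ ({a, b, c} : Finset (Fin s))ᶜ, g (w' j) =
      ∑ j ∈ ({a, b, c} : Finset (Fin s))ᶜ, g (w j) := by
    intro g
    refine Finset.sum_congr rfl fun j hj => ?_
    rw [Finset.mem_compl, Finset.mem_insert, Finset.mem_insert, Finset.mem_singleton] at hj
    rw [hr' j (fun h => hj (Or.inl h)) (fun h => hj (Or.inr (Or.inl h)))
      (fun h => hj (Or.inr (Or.inr h)))]
  rcases Nat.lt_or_ge μ (w c) with hc | hc
  · left
    constructor
    · have h5 : small μ w ≤ small μ w' := by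
        unfold small
        rw [split3 hab hac hbc, split3 hab hac hbc (fun j => gS μ (w' j)), ha', hb', hc',
          gS_large h4, gS_large (lt_of_lt_of_le h4 hba), gS_large hc, hrest]
        have := gS_nonneg μ (w a - t)
        have := gS_nonneg μ (w b - t)
        have := gS_nonneg μ (w c - t)
        linarith
      linarith
    · have h5 : room μ d w ≤ room μ (d - t) w' := by
        unfold room
        rw [split3 hab hac hbc, split3 hab hac hbc (fun j => gA μ (w' j)), ha', hb', hc', hrest]
        have g1 := gA_drop (μ := μ) (lt_of_lt_of_le h4 hba) (by omega : t ≤ w a)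
        have g2 := gA_drop (μ := μ) h4 (by omega : t ≤ w b)
        have g3 := gA_drop (μ := μ) hc htc
        rw [Nat.cast_sub htd]
        have e2 : ((d : ℤ) + 1) * (d + 2) = ((d : ℤ) - t + 1) * ((d : ℤ) - t + 2) +
          t * (2 * d + 3 - t) := by ring
        have e3 : (w a : ℤ) + w b + w c = d + t := by exact_mod_cast ht
        have e4 : (t : ℤ) * (2 * w a + 1 - t) + t * (2 * w b + 1 - t) + t * (2 * w c + 1 - t) =
          t * (2 * (w a + w b + w c) + 3 - 3 * t) := by ring
        have e6 : (t : ℤ) * (2 * (d + t) + 3 - 3 * t) = t * (2 * d + 3 - t) := by ring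
        rw [e3, e6] at e4
        linarith
      linarith
  · right
    constructor
    · -- the class is reduced
      have k1 : ∀ j, j ≠ a → j ≠ b → w' j ≤ w c := by
        intro j hja hjb
        by_cases hjc : j = c
        · rw [hjc, hc']
          omega
        · rw [hr' j hja hjb hjc]
          exact hj j hja hjb
      have k2 := hd a
      have k3 : ∀ x y z : Fin s, x ≠ y → x ≠ z → y ≠ z → (x = a → y ≠ b → z ≠ b →
          w' x + w' y + w' z ≤ d - t) ∧ (x = b → y ≠ a → z ≠ a → w' x + w' y + w' z ≤ d - t) ∧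
          (x = a → y = b → w' x + w' y + w' z ≤ d - t) ∧
          (x ≠ a → x ≠ b → y ≠ a → y ≠ b → z ≠ a → z ≠ b → w' x + w' y + w' z ≤ d - t) := by
        intro x y z hxy hxz hyz
        refine ⟨fun hx hy hz => ?_, fun hx hy hz => ?_, fun hx hy => ?_,
          fun q1 q2 q3 q4 q5 q6 => ?_⟩
        · subst hx
          have := k1 y hxy.symm hy
          have := k1 z hxz.symm hz
          rw [ha']
          omega
        · subst hx
          have := k1 y hy hxy.symm
          have := k1 z hz hxz.symm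
          rw [hb']
          omega
        · subst hx
          subst hy
          have := k1 z hxz.symm hyz.symm
          rw [ha', hb']
          omega
        · have := k1 x q1 q2
          have := k1 y q3 q4
          have := k1 z q5 q6
          omega
      intro x y z hxy hxz hyz
      obtain ⟨p1, p2, p3, p4⟩ := k3 x y z hxy hxz hyz
      obtain ⟨p5, p6, p7, -⟩ := k3 y x z hxy.symm hyz hxz
      obtain ⟨p8, p9, p10, -⟩ := k3 z x y hxz.symm hyz.symm hxy
      obtain ⟨-, -, p11, -⟩ := k3 x z y hxz hxy hyz.symm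
      obtain ⟨-, -, p12, -⟩ := k3 y z x hyz hxy.symm hxz.symm
      obtain ⟨-, -, p13, -⟩ := k3 z y x hyz.symm hxz.symm hxy.symm
      by_cases xa : x = a
      · by_cases yb : y = b
        · exact p3 xa yb
        · by_cases zb : z = b
          · have := p11 xa zb
            omega
          · exact p1 xa yb zb
      · by_cases xb : x = b
        · by_cases ya : y = a
          · have := p7 ya xb
            omega
          · by_cases za : z = a
            · have := p10 za xb
              omega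
            · exact p2 xb ya za
        · by_cases ya : y = a
          · by_cases zb : z = b
            · have := p12 ya zb
              omega
            · have := p5 ya xb zb
              omega
          · by_cases yb : y = b
            · by_cases za : z = a
              · have := p13 za yb
                omega
              · have := p6 yb xa za
                omega
            · by_cases za : z = a
              · have := p8 za xb yb
                omega
              · by_cases zb : z = b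
                · have := p9 zb xa ya
                  omega
                · exact p4 xa xb ya yb za zb
    · have h5 : small μ w ≤ small μ w' + μ := by
        unfold small
        rw [split3 hab hac hbc, split3 hab hac hbc (fun j => gS μ (w' j)), ha', hb', hc',
          gS_large h4, gS_large (lt_of_lt_of_le h4 hba), hrest]
        have g1 := gS_nonneg μ (w a - t)
        have g2 := gS_nonneg μ (w b - t)
        have g3 := gS_nonneg μ (w c - t)
        have g4 : gS μ (w c) ≤ μ := by
          unfold gS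
          rw [if_pos hc]
          exact_mod_cast hc
        linarith
      have hμ : (0 : ℤ) ≤ μ := Nat.cast_nonneg _
      have hd0 : (0 : ℤ) ≤ d := Nat.cast_nonneg _
      have h6 : (μ : ℤ) ≤ ((μ : ℤ) + 1) * (d + μ + 2) := by nlinarith
      linarith

end Pool.Agent.K7.H33.BP.HH
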