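import Pool.Agent.K7.H33.BP.Nine
import Pool.Agent.K7.H33.BP.Chains

/-! Nine large points in standard form: general points of the plane. -/

set_option autoImplicit false

namespace Pool.Agent.K7.H33.BP

open Pool.Agent.TH2

open Finset Pool.Agent.TH176.Nag Pool.Agent.TH603.Sur Pool.Agent.TH2.NU H932R3
open Pool.Agent.Y205.MD Pool.Agent.Y205.FW Pool.Agent.Y205.AV
open Pool.Agent.TH387.SH (TF coe_TF card_TF)

/-- The points of `J` are at most nine, and the sum of the multiplicities of at most three of them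
is at most `d`. -/
def NineStd {n : ℕ} (m : Fin n → ℕ) (d : ℕ) (J : Finset (Fin n)) : Prop :=
  J.card ≤ 9 ∧ ∀ K ⊆ J, K.card ≤ 3 → ∑ i ∈ K, m i ≤ d

theorem nine_list {n : ℕ} {m : Fin n → ℕ} {d : ℕ} {J : Finset (Fin n)} (h : NineStd m d J) :
    ∃ a1 a2 a3 a4 a5 a6 a7 a8 a9 k : ℕ, a2 ≤ a1 ∧ a3 ≤ a2 ∧ a4 ≤ a3 ∧ a5 ≤ a4 ∧ a6 ≤ a5 ∧ a7 ≤ a6 ∧
      a8 ≤ a7 ∧ a9 ≤ a8 ∧ a1 + a2 + a3 ≤ d ∧ J.val.map m + Multiset.replicate k 0 =
        {a1} + {a2} + {a3} + {a4} + {a5} + {a6} + {a7} + {a8} + {a9} := by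
  classical
  obtain ⟨h9, h3⟩ := h
  obtain ⟨l, hl⟩ : ∃ l, l = J.toList.mergeSort (fun i j => decide (m j ≤ m i)) := ⟨_, rfl⟩
  have hperm : l.Perm J.toList := by
    rw [hl]
    exact List.mergeSort_perm _ _
  have hsort : l.Pairwise (fun i j => m j ≤ m i) := by
    have := List.pairwise_mergeSort (le := fun i j => decide (m j ≤ m i)) (by
      intro a b c h1 h2
      simp only [decide_eq_true_eq] at *
      omega) (by
      intro a b
      simp only [Bool.or_eq_true, decide_eq_true_eq]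
      omega) J.toList
    rw [← hl] at this
    simpa using this
  have hlen : l.length ≤ 9 := by
    rw [hperm.length_eq, Finset.length_toList]
    exact h9
  have hcoe : (↑(l.map m) : Multiset ℕ) = J.val.map m := by
    rw [← Multiset.map_coe, Multiset.coe_eq_coe.2 hperm, Finset.coe_toList]
  have htake : ((l.take 3).map m).sum ≤ d := by
    have hnd : l.Nodup := hperm.nodup_iff.2 (Finset.nodup_toList J)
    have hnd3 : (l.take 3).Nodup := hnd.sublist (List.take_sublist 3 l)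
    have h4 := h3 (l.take 3).toFinset (fun x hx => by
      rw [List.mem_toFinset] at hx
      have := (List.take_subset 3 l) hx
      rw [hperm.mem_iff, Finset.mem_toList] at this
      exact this) ((List.toFinset_card_le _).trans (by
        rw [List.length_take]
        omega))
    rw [List.sum_toFinset _ hnd3] at h4
    exact h4
  obtain ⟨L, hL⟩ : ∃ L, L = l.map m ++ List.replicate (9 - l.length) 0 := ⟨_, rfl⟩
  have hLlen : L.length = 9 := by
    rw [hL, List.length_append, List.length_map, List.length_replicate]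
    omega
  have hLs : L.Pairwise (fun a b => b ≤ a) := by
    rw [hL, List.pairwise_append]
    refine ⟨?_, ?_, ?_⟩
    · rw [List.pairwise_map]
      exact hsort
    · rw [List.pairwise_replicate]
      exact Or.inr le_rfl
    · intro a _ b hb
      rw [List.eq_of_mem_replicate hb]
      exact Nat.zero_le _
  have hL3 : (L.take 3).sum ≤ d := by
    rw [hL, List.take_append, List.sum_append, List.take_replicate, List.sum_replicate,
      ← List.map_take, smul_zero, add_zero]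
    exact htake
  have hLm : (↑L : Multiset ℕ) = J.val.map m + Multiset.replicate (9 - l.length) 0 := by
    rw [hL, ← Multiset.coe_add, hcoe, Multiset.coe_replicate]
  clear hL hcoe htake hlen hsort hperm hl
  match L, hLlen with
  | [a1, a2, a3, a4, a5, a6, a7, a8, a9], _ =>
    refine ⟨a1, a2, a3, a4, a5, a6, a7, a8, a9, 9 - l.length, ?_, ?_, ?_, ?_, ?_, ?_, ?_, ?_, ?_, ?_⟩
    · simp only [List.pairwise_cons] at hLs
      exact hLs.1 _ (by simp)
    · simp only [List.pairwise_cons] at hLs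
      exact hLs.2.1 _ (by simp)
    · simp only [List.pairwise_cons] at hLs
      exact hLs.2.2.1 _ (by simp)
    · simp only [List.pairwise_cons] at hLs
      exact hLs.2.2.2.1 _ (by simp)
    · simp only [List.pairwise_cons] at hLs
      exact hLs.2.2.2.2.1 _ (by simp)
    · simp only [List.pairwise_cons] at hLs
      exact hLs.2.2.2.2.2.1 _ (by simp)
    · simp only [List.pairwise_cons] at hLs
      exact hLs.2.2.2.2.2.2.1 _ (by simp)
    · simp only [List.pairwise_cons] at hLs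
      exact hLs.2.2.2.2.2.2.2.1 _ (by simp)
    · simpa [add_assoc] using hL3
    · rw [← hLm]
      rfl

/-- **Nine large points in standard form and arbitrary small points.** -/
theorem dec_nine {n : ℕ} {w : Fin n → ℕ} {I : Finset (Fin n)} {d μ : ℕ}
    (hI : NineStd w d I) (hμ : ∀ i, i ∉ I → w i ≤ μ)
    (h : 30000000 * ((μ + 1) * (d + μ + 2)) ≤ ∑ i ∈ Iᶜ, w i + 2 * gap w d) :
    ((d + 1) * (d + 2) ≤ ∑ p, w p * (w p + 1) → Emp w (TZ d)) ∧
      (∑ p, w p * (w p + 1) ≤ (d + 1) * (d + 2) → Sur w (TZ d)) := by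
  classical
  obtain ⟨a1, a2, a3, a4, a5, a6, a7, a8, a9, k, q1, q2, q3, q4, q5, q6, q7, q8, q9, hMk⟩ :=
    nine_list hI
  obtain ⟨M, hM⟩ : ∃ M, M = I.val.map w := ⟨_, rfl⟩
  obtain ⟨W0, hW0⟩ : ∃ W0, W0 = (Iᶜ).val.map w := ⟨_, rfl⟩
  obtain ⟨W, hW⟩ : ∃ W, W = W0.filter fun v => v ≠ 0 := ⟨_, rfl⟩
  have hall : ∀ t : ℕ → ℕ, ∑ p, t (w p) = ((M + W0).map t).sum := by
    intro t
    rw [Multiset.map_add, Multiset.sum_add, hM, hW0, Multiset.map_map, Multiset.map_map,
      ← sum_add_sum_compl I]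
    rfl
  have hfil : ∀ t : ℕ → ℕ, t 0 = 0 → (W0.map t).sum = (W.map t).sum := by
    intro t ht
    rw [hW]
    clear hW hall hW0
    induction W0 using Multiset.induction_on with
    | empty => simp
    | cons a W0 ih =>
      by_cases ha : a = 0
      · subst ha
        rw [Multiset.filter_cons_of_neg _ (by simp), Multiset.map_cons, Multiset.sum_cons, ht,
          zero_add, ih]
      · rw [Multiset.filter_cons_of_pos _ (by simpa using ha), Multiset.map_cons,
          Multiset.sum_cons, Multiset.map_cons, Multiset.sum_cons, ih]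
  have hsum0 : ∑ i ∈ Iᶜ, w i = W.sum := by
    have h1 := hfil (fun x => x) rfl
    rw [Multiset.map_id', Multiset.map_id'] at h1
    rw [← h1, hW0]
    rfl
  have hcond : cond w = NU.condM (M + W) := by
    have h1 := hall fun x => (x + 1).choose 2
    have h2 := hfil (fun x => (x + 1).choose 2) (by norm_num)
    unfold Pool.Agent.TH603.Sur.cond Pool.Agent.TH2.NU.condM
    rw [h1, Multiset.map_add, Multiset.sum_add, h2, Multiset.map_add, Multiset.sum_add]
  have hc2 := two_sum w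
  have hcw : cond w = ∑ p, (w p + 1).choose 2 := rfl
  have hWμ : ∀ v ∈ W, 1 ≤ v ∧ v ≤ μ := by
    intro v hv
    rw [hW, Multiset.mem_filter, hW0, Multiset.mem_map] at hv
    obtain ⟨⟨i, hi, rfl⟩, h2⟩ := hv
    exact ⟨by omega, hμ i (mem_compl.1 hi)⟩
  rw [← hM] at hMk
  have hck : NU.condM (M + Multiset.replicate k 0) = NU.condM M := by
    rw [condM_add]
    have : NU.condM (Multiset.replicate k 0) = 0 := by
      unfold Pool.Agent.TH2.NU.condM
      rw [Multiset.map_replicate, Multiset.sum_replicate]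
      norm_num
    omega
  have hadd : NU.condM (M + W) = NU.condM M + NU.condM W := condM_add _ _
  have key : crkM (TF d) (M + Multiset.replicate k 0 + W) ≤
      (TF d).card - (NU.condM (M + Multiset.replicate k 0) + NU.condM W) := by
    refine main9 (μ := μ) (δ := gap w d) q1 q2 q3 q4 q5 q6 q7 q8 q9 hWμ hMk ?_ ?_
    · rw [hck]
      unfold gap
      omega
    · rw [← hsum0]
      exact h
  have hzero : crkM (TF d) (M + W) ≤ crkM (TF d) (M + Multiset.replicate k 0 + W) := by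
    have := crkM_zeros (S := TF d) k (M + W)
    rw [add_right_comm] at this
    exact this
  have hex : Ex (TF d) w := by
    unfold Ex
    rw [← crkM_eq hall, hcond, hadd, ← hck]
    refine le_trans ?_ (hzero.trans key)
    rw [hW]
    refine crkM_filter (fun m hm => ?_) _ _
    rw [mem_TF] at hm
    exact ⟨hm.1, hm.2.1⟩
  have hTF := two_card_TF d
  constructor
  · intro hle
    have hE : Emp w (↑(TF d) : Set (ℤ × ℤ)) := Emp_of_Ex hex (by omega)
    rw [coe_TF] at hE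
    exact hE
  · intro hle
    have hS : Sur w (↑(TF d) : Set (ℤ × ℤ)) := Sur_of_Ex hex (by omega)
    rw [coe_TF] at hS
    exact hS

/-- for general points -/
theorem nine_points {n : ℕ} (w : Fin n → ℕ) :
    ∃ F : MvPolynomial (Fin n × Fin 2) ℚ, F ≠ 0 ∧ ∀ {L : Type} [Field L] [CharZero L]
      (P : Fin n → Fin 2 → L), MvPolynomial.aeval (fun ij : Fin n × Fin 2 => P ij.1 ij.2) F ≠ 0 →
      ∀ (d μ : ℕ) (I : Finset (Fin n)), NineStd w d I → (∀ i, i ∉ I → w i ≤ μ) →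
        30000000 * ((μ + 1) * (d + μ + 2)) ≤ ∑ i ∈ Iᶜ, w i + 2 * gap w d →
        ExpDim L w P d := by
  obtain ⟨F, h1, h2⟩ := expDim_two (w := w)
    (A := fun d => (d + 1) * (d + 2) ≤ ∑ p, w p * (w p + 1) ∧
      ∃ (μ : ℕ) (I : Finset (Fin n)), NineStd w d I ∧ (∀ i, i ∉ I → w i ≤ μ) ∧
        30000000 * ((μ + 1) * (d + μ + 2)) ≤ ∑ i ∈ Iᶜ, w i + 2 * gap w d)
    (B := fun d => ∑ p, w p * (w p + 1) ≤ (d + 1) * (d + 2) ∧
      ∃ (μ : ℕ) (I : Finset (Fin n)), NineStd w d I ∧ (∀ i, i ∉ I → w i ≤ μ) ∧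
        30000000 * ((μ + 1) * (d + μ + 2)) ≤ ∑ i ∈ Iᶜ, w i + 2 * gap w d)
    (N := ∑ p, w p * (w p + 1))
    (fun d hd => by
      have h := hd.1
      have e : (d + 1) * (d + 2) = d * d + 3 * d + 2 := by ring
      omega)
    (fun d hd => by
      obtain ⟨h, μ, I, hI, hμ, hd⟩ := hd
      exact (dec_nine hI hμ hd).1 h)
    (fun d hd => by
      obtain ⟨h, μ, I, hI, hμ, hd⟩ := hd
      exact (dec_nine hI hμ hd).2 h)
  refine ⟨F, h1, fun {L} _ _ P hP d μ I hI hμ hd => h2 P hP d ?_⟩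
  rcases le_total ((d + 1) * (d + 2)) (∑ p, w p * (w p + 1)) with h | h
  · exact Or.inl ⟨h, μ, I, hI, hμ, hd⟩
  · exact Or.inr ⟨h, μ, I, hI, hμ, hd⟩

/-- the numerical condition, with a constant `K ≥ 1` -/
theorem numericK {n : ℕ} {m : Fin n → ℕ} {d μ K : ℕ} {I : Finset (Fin n)}
    (hμ : ∀ i, i ∉ I → m i ≤ μ)
    (h : (K : ℤ) * (((μ : ℤ) + 1) * (d + μ + 2)) ≤
        ∑ i ∈ Iᶜ, (m i : ℤ) + 2 * |((d : ℤ) + 1) * (d + 2) - ∑ i, (m i : ℤ) * (m i + 1)| ∨
      2 * (K : ℤ) * (((μ : ℤ) + 1) ^ 2 * (d + μ + 2)) ≤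
        ((d : ℤ) + 1) * (d + 2) - ∑ i ∈ I, (m i : ℤ) * (m i + 1)) :
    K * ((μ + 1) * (d + μ + 2)) ≤ ∑ i ∈ Iᶜ, m i + 2 * gap m d := by
  classical
  have hgap : (gap m d : ℤ) = |((d : ℤ) + 1) * (d + 2) - ∑ i, (m i : ℤ) * (m i + 1)| := by
    unfold gap
    have e1 : ((∑ i, m i * (m i + 1) : ℕ) : ℤ) = ∑ i, (m i : ℤ) * (m i + 1) := by push_cast; rfl
    have e2 : (((d + 1) * (d + 2) : ℕ) : ℤ) = ((d : ℤ) + 1) * (d + 2) := by push_cast; rfl
    rw [← e1, ← e2]
    rcases le_total ((d + 1) * (d + 2)) (∑ i, m i * (m i + 1)) with h3 | h3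
    · rw [abs_of_nonpos (by omega)]
      omega
    · rw [abs_of_nonneg (by omega)]
      omega
  have hgoal : (K : ℤ) * (((μ : ℤ) + 1) * (d + μ + 2)) ≤
      ∑ i ∈ Iᶜ, (m i : ℤ) + 2 * |((d : ℤ) + 1) * (d + 2) - ∑ i, (m i : ℤ) * (m i + 1)| := by
    rcases h with h | h
    · exact h
    · obtain ⟨s, hs⟩ : ∃ s : ℤ, s = ∑ i ∈ Iᶜ, (m i : ℤ) := ⟨_, rfl⟩
      obtain ⟨T1, hT1⟩ : ∃ T1 : ℤ, T1 = ∑ i ∈ I, (m i : ℤ) * (m i + 1) := ⟨_, rfl⟩
      obtain ⟨T2, hT2⟩ : ∃ T2 : ℤ, T2 = ∑ i ∈ Iᶜ, (m i : ℤ) * (m i + 1) := ⟨_, rfl⟩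
      have hT : ∑ i, (m i : ℤ) * (m i + 1) = T1 + T2 := by
        rw [hT1, hT2, sum_add_sum_compl]
      have hle : T2 ≤ (μ + 1) * s := by
        rw [hT2, hs, mul_sum]
        refine sum_le_sum fun i hi => ?_
        have h3 : (m i : ℤ) ≤ μ := by exact_mod_cast hμ i (mem_compl.1 hi)
        have h4 : (0 : ℤ) ≤ m i := Nat.cast_nonneg _
        rw [mul_comm]
        exact mul_le_mul_of_nonneg_right (by linarith) h4
      rw [hT, ← hs]
      rw [← hT1] at h
      obtain ⟨Q, hQ⟩ : ∃ Q : ℤ, Q = (K : ℤ) * (((μ : ℤ) + 1) * (d + μ + 2)) := ⟨_, rfl⟩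
      have hμ0 : (0 : ℤ) ≤ μ := Nat.cast_nonneg _
      have hd0 : (0 : ℤ) ≤ d := Nat.cast_nonneg _
      have hK0 : (0 : ℤ) ≤ K := Nat.cast_nonneg _
      have hQ0 : 0 ≤ Q := by rw [hQ]; positivity
      have hs0 : 0 ≤ s := by rw [hs]; exact sum_nonneg fun i _ => Nat.cast_nonneg _
      have e : 2 * (K : ℤ) * (((μ : ℤ) + 1) ^ 2 * (d + μ + 2)) = 2 * ((μ + 1) * Q) := by
        rw [hQ]; ring
      rw [e] at h
      rw [← hQ]
      have hK : Q ≤ (μ + 1) * Q := by
        have := mul_nonneg hμ0 hQ0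
        linarith
      have habs := le_abs_self (((d : ℤ) + 1) * (d + 2) - (T1 + T2))
      by_cases h2 : 2 * T2 ≤ ((d : ℤ) + 1) * (d + 2) - T1
      · linarith
      · push Not at h2
        have h5 : (μ + 1) * Q < (μ + 1) * s := by linarith
        have h6 : Q < s := lt_of_mul_lt_mul_left h5 (by linarith)
        have h7 := abs_nonneg (((d : ℤ) + 1) * (d + 2) - (T1 + T2))
        linarith
  rw [← hgap] at hgoal
  have h8 : ((∑ i ∈ Iᶜ, m i : ℕ) : ℤ) = ∑ i ∈ Iᶜ, (m i : ℤ) := by push_cast; rfl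
  rw [← h8] at hgoal
  exact_mod_cast hgoal

end Pool.Agent.K7.H33.BP
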