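import Pool.Agent.K7.H33.BP.Redu
import Pool.Agent.K7.H33.BP.Inv
import Pool.Agent.K7.H33.BP.NinePts

set_option autoImplicit false

/-!
# The Harbourne-Hirschowitz statement for systems with at most nine large multiplicities
-/

namespace Pool.Agent.K7.H33.BP.HH

open MvPolynomial Pool.Agent.W609 Pool.Agent.W609.CR Pool.Agent.K7.H33.SH Pool.Agent.Y205.AV

/-- The reduction to reduced classes. -/
theorem hhg {r : ℕ} {I : ℕ → (Fin (r + 4) → ℕ) → Prop}
    (hI1 : ∀ (d k : ℕ) (w : Fin (r + 4) → ℕ) (a b : Fin (r + 4)), a ≠ b → (∀ j, w j ≤ d) →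
      w b ≤ w a → w a + w b = d + k → 0 < k → I d w → I (d - k) (sb a b k w))
    (hI2 : ∀ (d t : ℕ) (w w' : Fin (r + 4) → ℕ) (a b c : Fin (r + 4)), a ≠ b → a ≠ c → b ≠ c →
      (∀ j, w j ≤ d) → w b ≤ w a → w c ≤ w b → (∀ j, j ≠ a → j ≠ b → w j ≤ w c) →
      w a + w b ≤ d → w a + w b + w c = d + t → 0 < t → w' a = w a - t → w' b = w b - t →
      w' c = w c - t → (∀ j, j ≠ a → j ≠ b → j ≠ c → w' j = w j) → I d w → I (d - t) w')
    (d : ℕ) (w : Fin (r + 4) → ℕ) (hI : I d w) :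
    ∃ F : MvPolynomial (Fin (r + 4) × Fin 2) ℚ, F ≠ 0 ∧ ∀ (K : Type) [Field K] [CharZero K]
      (P : Fin (r + 4) → Fin 2 → K), evP P F ≠ 0 → Special P d w →
        MSpecial P d w ∨
        ∃ (d' : ℕ) (w' : Fin (r + 4) → ℕ) (k : ℕ) (C : Fin k → MvPolynomial (Fin 3) K)
          (e : Fin k → ℕ) (u : Fin k → Fin (r + 4) → ℕ) (N : Fin k → ℕ) (d1 : ℕ)
          (w1 : Fin (r + 4) → ℕ),
          Dcp P d w d' w' C e u N ∧ Relation.ReflTransGen Quad (d', w') (d1, w1) ∧
          Reduced d1 w1 ∧ (∀ j, w1 j ≤ w j) ∧ d1 ≤ d ∧ chi d w ≤ chi d1 w1 ∧ I d1 w1 ∧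
          Special P d1 w1 := by
  classical
  obtain ⟨g, Fg, hFg, hg⟩ := dim_gen w d
  obtain ⟨K0, i1, i2, P0, hP0⟩ := exists_generic (r + 4)
  rcases Nat.eq_zero_or_pos g with hg0 | hg0
  · refine ⟨Fg, hFg, fun K _ _ P hP hs => ?_⟩
    exfalso
    rw [special_iff, hg K P hP, hg0] at hs
    omega
  · have hg1 := hg K0 P0 (evP_ne hP0 hFg)
    obtain ⟨d', w', k, C0, e, u, N, hD, hdim, P1, d1, w1, hP1, hchain, hle, hred, hdim1⟩ :=
      redu hI1 hI2 d P0 hP0 w hI (by rw [hg1]; exact hg0)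
    obtain ⟨g', Fg', hFg', hg'⟩ := dim_gen w' d'
    obtain ⟨g1, Fg1, hFg1, hg1'⟩ := dim_gen w1 d1
    have hge : g' = g := by
      rw [← hg' K0 P0 (evP_ne hP0 hFg'), hdim, hg1]
    have hg1e : g1 = g := by
      rw [← hg1' K0 P1 (evP_ne hP1 hFg1), hdim1, hdim, hg1]
    have hspr := fun a => exc_spread (e a) (u a) ⟨K0, i1, i2, P0, C0 a, hP0, hD.exc a⟩
    choose Fa hFa hFa' using hspr
    refine ⟨Fg * Fg' * Fg1 * ∏ a, Fa a, mul_ne_zero (mul_ne_zero (mul_ne_zero hFg hFg') hFg1)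
      (Finset.prod_ne_zero_iff.2 fun a _ => hFa a), fun K _ _ P hP hs => ?_⟩
    rw [map_mul, map_mul, map_mul, map_prod] at hP
    have q0 := hg K P (left_ne_zero_of_mul (left_ne_zero_of_mul (left_ne_zero_of_mul hP)))
    have q1 := hg' K P (right_ne_zero_of_mul (left_ne_zero_of_mul (left_ne_zero_of_mul hP)))
    have q2 := hg1' K P (right_ne_zero_of_mul (left_ne_zero_of_mul hP))
    have q3 := Finset.prod_ne_zero_iff.1 (right_ne_zero_of_mul hP)
    choose C hC using fun a => hFa' a K P (q3 a (Finset.mem_univ a))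
    have hDcp : Dcp P d w d' w' C e u N := ⟨hC, hD.pos, hD.orth, hD.deg, hD.mul, hD.zero⟩
    obtain ⟨c1, c2, c3⟩ := quad_inv hchain
    simp only at c1 c2 c3
    rw [special_iff, q0] at hs
    by_cases hns : chi d1 w1 = g
    · -- the reduced system is non-special
      left
      refine ⟨d', w', k, C, e, u, N, hDcp, by omega, ?_⟩
      by_contra hcon
      push Not at hcon
      have h2 := hDcp.chi_one hcon
      omega
    · right
      have h3 := hDcp.chi_le
      refine ⟨d', w', k, C, e, u, N, d1, w1, hDcp, hchain, hred, hle.1, hle.2.1, by omega,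
        hle.2.2, ?_⟩
      rw [special_iff, q2]
      have h3 := chi_le_dim P d1 w1
      rw [q2] at h3
      constructor
      · omega
      · rw [hg1e] at h3 ⊢
        omega

theorem gap_eq {s : ℕ} (d : ℕ) (w : Fin s → ℕ) : (gap w d : ℤ) = |2 * chi d w| := by
  have h1 : 2 * chi d w = ((d : ℤ) + 1) * (d + 2) - ∑ j, (w j : ℤ) * (w j + 1) := by
    rw [two_chi]
    unfold ip kk
    have h2 : ∀ j, (w j : ℤ) * (w j + 1) = (w j : ℤ) * w j + w j := fun j => by ring
    rw [Finset.sum_congr rfl fun j _ => h2 j, Finset.sum_add_distrib]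
    ring
  rw [h1]
  unfold gap
  have e1 : ((∑ i, w i * (w i + 1) : ℕ) : ℤ) = ∑ i, (w i : ℤ) * (w i + 1) := by push_cast; rfl
  have e2 : (((d + 1) * (d + 2) : ℕ) : ℤ) = ((d : ℤ) + 1) * (d + 2) := by push_cast; rfl
  rw [← e1, ← e2]
  rcases le_total ((d + 1) * (d + 2)) (∑ i, w i * (w i + 1)) with h3 | h3
  · rw [abs_of_nonpos (by omega)]
    omega
  · rw [abs_of_nonneg (by omega)]
    omega

theorem nineStd_of {r d μ : ℕ} {w : Fin (r + 4) → ℕ} (hred : Reduced d w)
    (h9 : (Finset.univ.filter fun i => μ < w i).card ≤ 9) :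
    NineStd w d (Finset.univ.filter fun i => μ < w i) := by
  classical
  refine ⟨h9, fun K _ hK => ?_⟩
  -- enlarge `K` to three elements
  obtain ⟨K', h1, h2⟩ : ∃ K' : Finset (Fin (r + 4)), K ⊆ K' ∧ K'.card = 3 :=
    Finset.exists_superset_card_eq hK (by rw [Fintype.card_fin]; omega)
  obtain ⟨a, b, c, hab, hac, hbc, rfl⟩ := Finset.card_eq_three.1 h2
  refine (Finset.sum_le_sum_of_subset h1).trans ?_
  rw [Finset.sum_insert (by simp [hab, hac]), Finset.sum_insert (by simp [hbc]),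
    Finset.sum_singleton]
  have := hred a b c hab hac hbc
  omega

theorem num_nine {s : ℕ} {d μ : ℕ} {w : Fin s → ℕ}
    (h : 30000000 * (((μ : ℤ) + 1) * (d + μ + 2)) ≤ small μ w + 4 * |chi d w|) :
    30000000 * ((μ + 1) * (d + μ + 2)) ≤
      ∑ i ∈ (Finset.univ.filter fun i => μ < w i)ᶜ, w i + 2 * gap w d := by
  classical
  have h3 : ((∑ i ∈ (Finset.univ.filter fun i => μ < w i)ᶜ, w i : ℕ) : ℤ) = small μ w := by
    unfold small gS
    rw [← Finset.sum_filter]
    push_cast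
    refine Finset.sum_congr ?_ fun _ _ => rfl
    ext i
    rw [Finset.mem_compl, Finset.mem_filter, Finset.mem_filter]
    simp
  have h4 := gap_eq d w
  rw [abs_mul, abs_two] at h4
  have h5 : ((30000000 * ((μ + 1) * (d + μ + 2)) : ℕ) : ℤ) ≤
      ((∑ i ∈ (Finset.univ.filter fun i => μ < w i)ᶜ, w i + 2 * gap w d : ℕ) : ℤ) := by
    push_cast
    push_cast at h3 h4
    rw [h3, h4]
    linarith
  exact_mod_cast h5

/-- **The Harbourne-Hirschowitz statement for at most nine multiplicities larger than `μ`.** -/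
theorem hh_nine {r : ℕ} {I : ℕ → (Fin (r + 4) → ℕ) → Prop}
    (hI1 : ∀ (d k : ℕ) (w : Fin (r + 4) → ℕ) (a b : Fin (r + 4)), a ≠ b → (∀ j, w j ≤ d) →
      w b ≤ w a → w a + w b = d + k → 0 < k → I d w → I (d - k) (sb a b k w))
    (hI2 : ∀ (d t : ℕ) (w w' : Fin (r + 4) → ℕ) (a b c : Fin (r + 4)), a ≠ b → a ≠ c → b ≠ c →
      (∀ j, w j ≤ d) → w b ≤ w a → w c ≤ w b → (∀ j, j ≠ a → j ≠ b → w j ≤ w c) →
      w a + w b ≤ d → w a + w b + w c = d + t → 0 < t → w' a = w a - t → w' b = w b - t →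
      w' c = w c - t → (∀ j, j ≠ a → j ≠ b → j ≠ c → w' j = w j) → I d w → I (d - t) w')
    (d μ : ℕ) (w : Fin (r + 4) → ℕ) (hI : I d w)
    (h9 : (Finset.univ.filter fun i => μ < w i).card ≤ 9) :
    ∃ F : MvPolynomial (Fin (r + 4) × Fin 2) ℚ, F ≠ 0 ∧ ∀ (K : Type) [Field K] [CharZero K]
      (P : Fin (r + 4) → Fin 2 → K), evP P F ≠ 0 → Special P d w →
        MSpecial P d w ∨
        ∃ (d' : ℕ) (w' : Fin (r + 4) → ℕ) (k : ℕ) (C : Fin k → MvPolynomial (Fin 3) K)
          (e : Fin k → ℕ) (u : Fin k → Fin (r + 4) → ℕ) (N : Fin k → ℕ) (d1 : ℕ)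
          (w1 : Fin (r + 4) → ℕ),
          Dcp P d w d' w' C e u N ∧ Relation.ReflTransGen Quad (d', w') (d1, w1) ∧
          Reduced d1 w1 ∧ (∀ j, w1 j ≤ w j) ∧ d1 ≤ d ∧ chi d w ≤ chi d1 w1 ∧
          (small μ w1 + 4 * |chi d1 w1| < 30000000 * (((μ : ℤ) + 1) * (d1 + μ + 2))) ∧
          I d1 w1 ∧ Special P d1 w1 := by
  classical
  obtain ⟨F, hF, h⟩ := hhg hI1 hI2 d w hI
  -- the finitely many vectors below `w`
  have hfin : (Set.Iic w).Finite := Set.finite_Iic w
  choose G hG hG' using fun v : Fin (r + 4) → ℕ => nine_points v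
  refine ⟨F * ∏ v ∈ hfin.toFinset, G v, mul_ne_zero hF
    (Finset.prod_ne_zero_iff.2 fun v _ => hG v), fun K _ _ P hP hs => ?_⟩
  rw [map_mul, map_prod] at hP
  have q3 := Finset.prod_ne_zero_iff.1 (right_ne_zero_of_mul hP)
  rcases h K P (left_ne_zero_of_mul hP) hs with h1 |
    ⟨d', w', k, C, e, u, N, d1, w1, c1, c2, c3, c4, c5, c6, c8, c7⟩
  · exact Or.inl h1
  · right
    refine ⟨d', w', k, C, e, u, N, d1, w1, c1, c2, c3, c4, c5, c6, ?_, c8, c7⟩
    by_contra hcon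
    push Not at hcon
    have h9' : (Finset.univ.filter fun i => μ < w1 i).card ≤ 9 := by
      refine (Finset.card_le_card fun j hj => ?_).trans h9
      rw [Finset.mem_filter] at hj ⊢
      exact ⟨hj.1, lt_of_lt_of_le hj.2 (c4 j)⟩
    have hstd := nineStd_of c3 h9'
    have hne := q3 w1 (by
      rw [Set.Finite.mem_toFinset, Set.mem_Iic]
      exact c4)
    have hE := hG' w1 P hne d1 μ _ hstd (fun i hi => by
      by_contra h2
      exact hi (Finset.mem_filter.2 ⟨Finset.mem_univ _, by omega⟩)) (num_nine hcon)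
    have hE' : Module.finrank K ↥(VS (fun j => aff (P j)) w1 d1) =
        (d1 + 2).choose 2 - ∑ j, (w1 j + 1).choose 2 := by
      rw [vs_eq_forms]
      exact hE
    rw [special_iff, hE'] at c7
    unfold chi at c7
    have h6 : (∑ j, ((w1 j + 1).choose 2 : ℤ)) = ((∑ j, (w1 j + 1).choose 2 : ℕ) : ℤ) := by
      push_cast
      rfl
    rw [h6] at c7
    omega

/-- The Harbourne-Hirschowitz statement outside the window. -/
theorem hh_nine_big {r : ℕ} (d μ : ℕ) (w : Fin (r + 4) → ℕ)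
    (h9 : (Finset.univ.filter fun i => μ < w i).card ≤ 9)
    (hbig : 30000000 * (((μ : ℤ) + 1) * (d + μ + 2)) ≤ 4 * chi d w) :
    ∃ F : MvPolynomial (Fin (r + 4) × Fin 2) ℚ, F ≠ 0 ∧ ∀ (K : Type) [Field K] [CharZero K]
      (P : Fin (r + 4) → Fin 2 → K), evP P F ≠ 0 → (Special P d w ↔ MSpecial P d w) := by
  obtain ⟨F, hF, h⟩ := hh_nine (I := fun _ _ => True) (fun _ _ _ _ _ _ _ _ _ _ _ => trivial)
    (fun _ _ _ _ _ _ _ _ _ _ _ _ _ _ _ _ _ _ _ _ _ _ => trivial) d μ w trivial h9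
  refine ⟨F, hF, fun K _ _ P hP => ⟨fun hs => ?_, fun hs => hs.special⟩⟩
  rcases h K P hP hs with h1 |
    ⟨d', w', k, C, e, u, N, d1, w1, c1, c2, c3, c4, c5, c6, c7, -, c8⟩
  · exact h1
  · exfalso
    have h2 : (0 : ℤ) ≤ small μ w1 := Finset.sum_nonneg fun i _ => gS_nonneg _ _
    have h3 := le_abs_self (chi d1 w1)
    have h4 := base_mono (μ := μ) c5
    linarith

/-- The Harbourne-Hirschowitz statement if there are many small points, and some room. -/
theorem hh_nine_many {r : ℕ} (d μ : ℕ) (w : Fin (r + 4) → ℕ)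
    (h9 : (Finset.univ.filter fun i => μ < w i).card ≤ 9) (hIv : Iv μ d w) :
    ∃ F : MvPolynomial (Fin (r + 4) × Fin 2) ℚ, F ≠ 0 ∧ ∀ (K : Type) [Field K] [CharZero K]
      (P : Fin (r + 4) → Fin 2 → K), evP P F ≠ 0 → (Special P d w ↔ MSpecial P d w) := by
  obtain ⟨F, hF, h⟩ := hh_nine (I := fun d w => Iv μ d w ∨ Iw μ d w)
    (by
      rintro d k w a b hab hd hba hk hk0 (h1 | h1)
      · exact Or.inl (h1.line hab hd hba hk hk0)
      · exfalso
        obtain ⟨c, hc⟩ : ∃ c : Fin (r + 4), c ∉ ({a, b} : Finset (Fin (r + 4))) := by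
          by_contra hcon
          push Not at hcon
          have h2 : (Finset.univ : Finset (Fin (r + 4))).card ≤
              ({a, b} : Finset (Fin (r + 4))).card := Finset.card_le_card fun x _ => hcon x
          rw [Finset.card_univ, Fintype.card_fin, Finset.card_pair hab] at h2
          omega
        rw [Finset.mem_insert, Finset.mem_singleton] at hc
        push Not at hc
        have := h1.1 a b c hab hc.1.symm hc.2.symm
        omega)
    (by
      rintro d t w w' a b c hab hac hbc hd hba hcb hj hp ht ht0 ha hb hc hr (h1 | h1)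
      · exact h1.quad hab hac hbc hd hba hcb hj hp ht ha hb hc hr ht0
      · exfalso
        have := h1.1 a b c hab hac hbc
        omega)
    d μ w (Or.inl hIv) h9
  refine ⟨F, hF, fun K _ _ P hP => ⟨fun hs => ?_, fun hs => hs.special⟩⟩
  rcases h K P hP hs with h1 |
    ⟨d', w', k, C, e, u, N, d1, w1, c1, c2, c3, c4, c5, c6, c7, c9, c8⟩
  · exact h1
  · exfalso
    have h3 := abs_nonneg (chi d1 w1)
    rcases c9 with h2 | h2
    · have h4 := h2.1
      have h5 : (0 : ℤ) ≤ ((μ : ℤ) + 1) * (d1 + μ + 2) := by positivity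
      linarith
    · have h4 := h2.2
      linarith

end Pool.Agent.K7.H33.BP.HH
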