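import Pool.Agent.K7.H33.BP.Sq

/-! Exactness for small multiplicities on an almost exact set. -/

set_option autoImplicit false

namespace Pool.Agent.K7.H33.BP

open Pool.Agent.TH2

open Finset Module Pool.Agent.TH176.Nag Pool.Agent.TH603.Sur Pool.Agent.TH763.DB Pool.Agent.TH2.NU
open Pool.Agent.Y205.MD H932R3 Pool.Agent.Y205.FW Pool.Agent.Y205.AV
open Pool.Agent.TH387.SH (TF coe_TF card_TF)

theorem two_condM (M : Multiset ℕ) : 2 * NU.condM M = sqs M + M.sum := by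
  have h1 := two_cond (vec M)
  rw [cond_vec] at h1
  rw [h1, sum_vec M fun x => x ^ 2, sum_vec M fun x => x, Multiset.map_id']
  rfl

theorem leaf_S {S : Finset (ℤ × ℤ)} {M : Multiset ℕ} {μ c G0 G1 T X L δ e0 e1 E : ℕ}
    (hS : Ap (8 * (μ + 1)) S E)
    (hM : ∀ x ∈ M, 1 ≤ x ∧ x + 1 ≤ 8 * (μ + 1)) (hL : 17 * M.sum ≤ 136 * X + 4 * G1 + 17 * e1)
    (hn : M.card ≤ X + e0) (he1 : 2 * e1 ≤ 63 * (μ + 1) ^ 2) (he0 : 4 * e0 ≤ 63 * (μ + 1) ^ 2)
    (hX : L = 64 * X + e1) (hcd : NU.condM M + G0 = T + G1) (hgain : 56 * X ≤ 2 * (G0 + G1))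
    (hδ : 2 * S.card = 2 * T + δ ∨ 2 * S.card + δ = 2 * T)
    (h : 8 * E + 320 * (μ + 1) ^ 2 ≤ L + 2 * δ) (hc : S.card ≤ c + T) :
    crkM S M ≤ c + G0 := by
  obtain ⟨P, hP⟩ : ∃ P, P = (μ + 1) ^ 2 := ⟨_, rfl⟩
  rw [← hP] at he1 he0 h
  have hc2 := two_condM M
  have hsq := sq1_eq M
  by_cases hsur : sq1 M + E ≤ 2 * S.card
  · have h1 := hS.cs M (fun v hv => (hM v hv).2) hsur
    omega
  · push Not at hsur
    rcases hS.ce M (fun v hv => ⟨(hM v hv).1, by have := (hM v hv).2; omega⟩) with h0 | h0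
    · rw [h0]
      exact Nat.zero_le _
    · omega

/-- exactness of small multiplicities on an almost exact set -/
theorem ex_S {n : ℕ} {w : Fin n → ℕ} {μ δ E : ℕ} {S : Finset (ℤ × ℤ)}
    (hS0 : ∀ u ∈ S, 0 ≤ u.1 ∧ 0 ≤ u.2) (hS : Ap (8 * (μ + 1)) S E)
    (hpos : ∀ p, 1 ≤ w p) (hμ : ∀ p, w p ≤ μ)
    (hδ : 2 * S.card = 2 * ∑ p, (w p + 1).choose 2 + δ ∨
      2 * S.card + δ = 2 * ∑ p, (w p + 1).choose 2)
    (h : 8 * E + 320 * (μ + 1) ^ 2 ≤ ∑ p, w p + 2 * δ) : Ex S w := by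
  classical
  obtain ⟨V, hV⟩ : ∃ V : Finset ℕ, V = univ.image w := ⟨_, rfl⟩
  have hVv : ∀ v ∈ V, 1 ≤ v ∧ v ≤ μ := by
    intro v hv
    rw [hV] at hv
    obtain ⟨p, -, hp⟩ := mem_image.1 hv
    rw [← hp]
    exact ⟨hpos p, hμ p⟩
  obtain ⟨L, hL⟩ : ∃ L, L = ∑ p, w p := ⟨_, rfl⟩
  obtain ⟨T, hTd⟩ : ∃ T, T = ∑ p, (w p + 1).choose 2 := ⟨_, rfl⟩
  have hcT : cond w = T := hTd.symm
  rw [← hTd] at hδ
  rw [← hL] at h
  -- the classes
  obtain ⟨Nf, hNf⟩ : ∃ Nf : ℕ → ℕ, ∀ v, Nf v = nb w v / 64 := ⟨_, fun _ => rfl⟩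
  obtain ⟨Rf, hRf⟩ : ∃ Rf : ℕ → ℕ, ∀ v, Rf v = nb w v % 64 := ⟨_, fun _ => rfl⟩
  have hNR : ∀ v, 64 * Nf v + Rf v = nb w v := fun v => by
    rw [hNf, hRf]
    exact Nat.div_add_mod _ _
  have hR63 : ∀ v, Rf v ≤ 63 := fun v => by
    rw [hRf]
    have := Nat.mod_lt (nb w v) (show 0 < 64 by norm_num)
    omega
  obtain ⟨E', hE⟩ : ∃ E' : Multiset ℕ, E' = ∑ v ∈ V, Multiset.replicate (Rf v) v := ⟨_, rfl⟩
  have hEsum : ∀ t : ℕ → ℕ, (E'.map t).sum = ∑ v ∈ V, Rf v * t v := by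
    intro t
    rw [hE, map_sum_fin]
    refine sum_congr rfl fun v _ => ?_
    rw [Multiset.map_replicate, Multiset.sum_replicate]
    rfl
  have hwsum : ∀ t : ℕ → ℕ, ∑ p, t (w p) = ∑ v ∈ V, nb w v * t v := by
    intro t
    rw [Finset.sum_comp t w, hV]
    rfl
  have hw : ∀ t : ℕ → ℕ, ∑ p, t (w p) =
      ((∑ v ∈ V, Multiset.replicate (4 ^ 3 * Nf v) v + E').map t).sum := by
    intro t
    rw [Multiset.map_add, Multiset.sum_add, hEsum, map_sum_fin, hwsum, ← sum_add_distrib]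
    refine sum_congr rfl fun v _ => ?_
    rw [Multiset.map_replicate, Multiset.sum_replicate, smul_eq_mul, ← hNR v]
    ring
  unfold Ex
  rw [← crkM_eq hw, hcT]
  refine classes_acc hS0 3 Nf V fun a g0 g1 hleaf => ?_
  have hlo : ∀ v ∈ V, 8 * v ≤ a v := fun v hv => by simpa using (hleaf v hv).lo
  have hhi : ∀ v ∈ V, a v + 1 ≤ 8 * (v + 1) := fun v hv => by simpa using (hleaf v hv).hi
  have hcd : ∀ v ∈ V, Nf v * (a v + 1).choose 2 + g0 v =
      64 * Nf v * (v + 1).choose 2 + g1 v := fun v hv => by simpa using (hleaf v hv).cd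
  have hga : ∀ v ∈ V, Nf v * v * 64 ≤ 2 * (g0 v + g1 v) + Nf v * v * 8 := fun v hv => by
    simpa using (hleaf v hv).gain
  obtain ⟨M, hM⟩ : ∃ M, M = ∑ v ∈ V, Multiset.replicate (Nf v) (a v) + E' := ⟨_, rfl⟩
  rw [← hM]
  have hMsum : ∀ t : ℕ → ℕ, (M.map t).sum = ∑ v ∈ V, (Nf v * t (a v) + Rf v * t v) := by
    intro t
    rw [hM, Multiset.map_add, Multiset.sum_add, hEsum, map_sum_fin, ← sum_add_distrib]
    refine sum_congr rfl fun v _ => ?_
    rw [Multiset.map_replicate, Multiset.sum_replicate, smul_eq_mul]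
  have hMV : ∀ x ∈ M, ∃ v ∈ V, x = a v ∨ x = v := by
    intro x hx
    rw [hM, Multiset.mem_add, hE] at hx
    rcases hx with hx | hx
    · obtain ⟨v, hv, hx⟩ := mem_sum_fin V _ x hx
      exact ⟨v, hv, Or.inl (Multiset.eq_of_mem_replicate hx)⟩
    · obtain ⟨v, hv, hx⟩ := mem_sum_fin V _ x hx
      exact ⟨v, hv, Or.inr (Multiset.eq_of_mem_replicate hx)⟩
  obtain ⟨X, hX⟩ : ∃ X, X = ∑ v ∈ V, Nf v * v := ⟨_, rfl⟩
  obtain ⟨e1, he1⟩ : ∃ e1, e1 = ∑ v ∈ V, Rf v * v := ⟨_, rfl⟩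
  obtain ⟨e0, he0⟩ : ∃ e0, e0 = ∑ v ∈ V, Rf v := ⟨_, rfl⟩
  have hVsub : V ⊆ Finset.Icc 1 μ := fun v hv => Finset.mem_Icc.2 (hVv v hv)
  have hLX : L = 64 * X + e1 := by
    have h1 := hwsum fun x => x
    rw [hL, h1, hX, he1, mul_sum, ← sum_add_distrib]
    refine sum_congr rfl fun v _ => ?_
    rw [← hNR v]
    ring
  have hsumV : 2 * ∑ v ∈ V, v ≤ μ * (μ + 1) := by
    have h1 : ∑ v ∈ V, v ≤ ∑ v ∈ Finset.range (μ + 1), v :=
      sum_le_sum_of_subset fun v hv => by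
        rw [Finset.mem_range]
        have := (hVv v hv).2
        omega
    have h2 := Finset.sum_range_id_mul_two (μ + 1)
    rw [Nat.add_sub_cancel] at h2
    have e : μ * (μ + 1) = (μ + 1) * μ := mul_comm _ _
    omega
  have hcardV : V.card ≤ μ := by
    have := card_le_card hVsub
    rwa [Nat.card_Icc, Nat.add_sub_cancel] at this
  have hP1 : μ * (μ + 1) ≤ (μ + 1) ^ 2 := by
    rw [sq]
    exact Nat.mul_le_mul_right _ (Nat.le_succ μ)
  have hP2 : 4 * μ ≤ (μ + 1) ^ 2 := by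
    zify
    have := sq_nonneg ((μ : ℤ) - 1)
    linarith [this]
  refine leaf_S hS (c := S.card - T) (G0 := ∑ v ∈ V, g0 v)
    (G1 := ∑ v ∈ V, g1 v) (T := T) (X := X) (L := L) (δ := δ) (e0 := e0) (e1 := e1)
    ?_ ?_ ?_ ?_ ?_ hLX ?_ ?_ hδ h (by omega)
  · intro x hx
    obtain ⟨v, hv, h | h⟩ := hMV _ hx
    · have h1 := hlo v hv
      have h2 := hVv v hv
      have h3 := hhi v hv
      constructor <;> omega
    · have h2 := hVv v hv
      constructor <;> omega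
  · have h1 := hMsum fun x => x
    rw [Multiset.map_id'] at h1
    have h2 : ∑ v ∈ V, 17 * (Nf v * a v + Rf v * v) ≤
        ∑ v ∈ V, (136 * (Nf v * v) + 4 * g1 v + 17 * (Rf v * v)) := by
      refine sum_le_sum fun v hv => ?_
      have h3 := leaf_lin (hVv v hv).1 (hlo v hv) (hcd v hv) (hga v hv)
      omega
    have h4 : ∑ v ∈ V, (136 * (Nf v * v) + 4 * g1 v + 17 * (Rf v * v)) =
        136 * X + 4 * ∑ v ∈ V, g1 v + 17 * e1 := by
      rw [sum_add_distrib, sum_add_distrib, ← mul_sum, ← mul_sum, ← mul_sum, ← hX, ← he1]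
    rw [← mul_sum] at h2
    rw [h1]
    omega
  · have h1 := hMsum fun _ => 1
    simp only [mul_one, Multiset.map_const', Multiset.sum_replicate, smul_eq_mul] at h1
    rw [h1, sum_add_distrib, ← he0]
    refine Nat.add_le_add_right ?_ _
    rw [hX]
    refine sum_le_sum fun v hv => ?_
    calc Nf v = Nf v * 1 := (mul_one _).symm
      _ ≤ Nf v * v := Nat.mul_le_mul_left _ (hVv v hv).1
  · have h1 : e1 ≤ 63 * ∑ v ∈ V, v := by
      rw [he1, mul_sum]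
      exact sum_le_sum fun v _ => Nat.mul_le_mul_right _ (hR63 v)
    omega
  · have h1 : e0 ≤ 63 * V.card := by
      rw [he0]
      refine (sum_le_sum fun v _ => hR63 v).trans ?_
      rw [sum_const, smul_eq_mul, mul_comm]
    omega
  · have h1 := hMsum fun x => (x + 1).choose 2
    have h2 := hwsum fun x => (x + 1).choose 2
    have h3 : Pool.Agent.TH2.NU.condM M = ∑ v ∈ V, (Nf v * (a v + 1).choose 2 + Rf v * (v + 1).choose 2) := h1
    rw [h3, hTd, h2, ← sum_add_distrib, ← sum_add_distrib]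
    refine sum_congr rfl fun v hv => ?_
    have h4 := hcd v hv
    have e : nb w v * (v + 1).choose 2 = 64 * Nf v * (v + 1).choose 2 +
        Rf v * (v + 1).choose 2 := by
      rw [← hNR v]
      ring
    omega
  · have h1 : ∑ v ∈ V, Nf v * v * 64 ≤ ∑ v ∈ V, (2 * (g0 v + g1 v) + Nf v * v * 8) :=
      sum_le_sum hga
    rw [sum_add_distrib, ← mul_sum, sum_add_distrib, ← sum_mul, ← sum_mul, ← hX] at h1
    omega

/-- the same for multisets -/
theorem exM_S {M : Multiset ℕ} {μ δ E : ℕ} {S : Finset (ℤ × ℤ)}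
    (hS0 : ∀ u ∈ S, 0 ≤ u.1 ∧ 0 ≤ u.2) (hS : Ap (8 * (μ + 1)) S E)
    (hM : ∀ v ∈ M, 1 ≤ v ∧ v ≤ μ)
    (hδ : 2 * S.card = 2 * NU.condM M + δ ∨ 2 * S.card + δ = 2 * NU.condM M)
    (h : 8 * E + 320 * (μ + 1) ^ 2 ≤ M.sum + 2 * δ) : crkM S M ≤ S.card - NU.condM M := by
  have hmem : ∀ p, vec M p ∈ M := fun p => by
    rw [← Multiset.mem_toList]
    exact List.get_mem _ _
  have h1 := ex_S (w := vec M) hS0 hS (fun p => (hM _ (hmem p)).1) (fun p => (hM _ (hmem p)).2)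
    (δ := δ) (by
      have := cond_vec M
      unfold Pool.Agent.TH603.Sur.cond at this
      rw [this]
      exact hδ) (by
      have := sum_vec M fun x => x
      rw [this, Multiset.map_id']
      exact h)
  unfold Ex at h1
  rw [cond_vec] at h1
  exact h1

end Pool.Agent.K7.H33.BP
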