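import Pool.Agent.K7.H33.BP.Corner
import Pool.Agent.K7.H33.BP.Leaf
import Pool.Agent.Y205.AV.Main

/-! Large points in toric position and arbitrary small points. -/

set_option autoImplicit false

namespace Pool.Agent.K7.H33.BP

open Pool.Agent.TH2

open Finset Pool.Agent.TH176.Nag Pool.Agent.TH603.Sur Pool.Agent.TH2.NU H932R3
open Pool.Agent.Y205.MD Pool.Agent.Y205.FW Pool.Agent.Y205.AV
open Pool.Agent.TH387.SH (TF coe_TF card_TF)

/-- The multiplicities of points which can be cut off at the three corners of a triangle of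
size `d`. -/
def Toric (d : ℕ) (M : Multiset ℕ) : Prop :=
  ∃ (e f : Fin 3 → ℕ) (N : Fin 3 → Multiset ℕ), (∀ i, Corner (e i) (f i) (N i)) ∧
    (∀ i, e i + f (i + 1) ≤ d) ∧ M = N 0 + N 1 + N 2

theorem disj {d e f e' f' : ℕ} {x y z : ℤ} (hx : 0 ≤ x) (hy : 0 ≤ y) (hz : 0 ≤ z)
    (hd : x + y + z = d) (hb : e + f' ≤ d) (hf : f ≤ d) (he' : e' ≤ d)
    (h0 : (f : ℤ) * x + e * y < e * f) (h1 : (f' : ℤ) * y + e' * z < e' * f') : False := by
  have g0 := tri_mono hy hf h0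
  have g1 := tri_mono' hy he' h1
  have hb' : (e : ℤ) + f' ≤ d := by exact_mod_cast hb
  have h2 : (d : ℤ) * (x + z) < (e + f') * (d - y) := by linarith
  have h3 : ((e : ℤ) + f') * (d - y) ≤ d * (d - y) := mul_le_mul_of_nonneg_right hb' (by linarith)
  have h4 : x + z = d - y := by linarith
  rw [h4] at h2
  linarith

theorem sum_lt {d e f : ℕ} {x y : ℤ} (hx : 0 ≤ x) (hy : 0 ≤ y) (he : e ≤ d) (hf : f ≤ d)
    (h0 : (f : ℤ) * x + e * y < e * f) : x + y < d := by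
  have g0 := tri_mono' hx he (tri_mono hy hf h0)
  have hd : (0 : ℤ) ≤ d := Nat.cast_nonneg _
  by_contra hcon
  push Not at hcon
  have := mul_le_mul_of_nonneg_left hcon hd
  linarith

theorem toric_cut {d : ℕ} {M : Multiset ℕ} (h : Toric d M) :
    ∃ (S : Finset (ℤ × ℤ)) (P : ℤ × ℤ → Prop), IsPoly P ∧ (∀ m, m ∈ S ↔ P m) ∧
      (∀ m ∈ S, 0 ≤ m.1 ∧ 0 ≤ m.2 ∧ m.1 + m.2 ≤ d) ∧
      (∀ w, crkM (TF d) (M + w) ≤ crkM S w) ∧ (TF d).card = S.card + NU.condM M := by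
  obtain ⟨e, f, N, hC, hd, rfl⟩ := h
  obtain ⟨P0, h0⟩ := exists_good (hC 0)
  obtain ⟨P1, h1⟩ := exists_good (hC 1)
  obtain ⟨P2, h2⟩ := exists_good (hC 2)
  have d0 : e 0 + f 1 ≤ d := hd 0
  have d1 : e 1 + f 2 ≤ d := hd 1
  have d2 : e 2 + f 0 ≤ d := hd 2
  obtain ⟨φ0, hs0, ht0⟩ : ∃ φ : Fr, (∀ m, φ.s m = m.1) ∧ ∀ m, φ.t m = m.2 :=
    ⟨⟨1, 0, 0, 1, 0, 0, by norm_num⟩, fun m => by simp [Fr.s], fun m => by simp [Fr.t]⟩
  obtain ⟨φ1, hs1, ht1⟩ : ∃ φ : Fr, (∀ m, φ.s m = m.2) ∧ ∀ m, φ.t m = d - m.1 - m.2 :=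
    ⟨⟨0, 1, -1, -1, 0, d, by norm_num⟩, fun m => by simp [Fr.s], fun m => by
      simp only [Fr.t]
      ring⟩
  obtain ⟨φ2, hs2, ht2⟩ : ∃ φ : Fr, (∀ m, φ.s m = d - m.1 - m.2) ∧ ∀ m, φ.t m = m.1 :=
    ⟨⟨-1, -1, 1, 0, d, 0, by norm_num⟩, fun m => by
      simp only [Fr.s]
      ring, fun m => by simp [Fr.t]⟩
  -- the first corner
  obtain ⟨R1, m1, c1, k1⟩ := h0.cut φ0 (TF d) (fun m hm => by
      rw [mem_TF] at hm
      exact ⟨hm.1, hm.2.1⟩) (fun m hm => by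
      rw [mem_TF] at hm
      rw [hs0, ht0]
      exact ⟨hm.1, hm.2.1⟩) (fun m a1 a2 a3 => by
      rw [hs0] at a1 a3
      rw [ht0] at a2 a3
      have a4 := h0.tri _ _ a1 a2 a3
      have a5 := sum_lt a1 a2 (by omega) (by omega : f 0 ≤ d) a4
      rw [mem_TF]
      exact ⟨a1, a2, a5.le⟩)
  simp only [hs0, ht0, mem_TF] at m1
  -- the second corner
  obtain ⟨R2, m2, c2, k2⟩ := h1.cut φ1 R1 (fun m hm => by
      rw [m1] at hm
      exact ⟨hm.1.1, hm.1.2.1⟩) (fun m hm => by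
      rw [m1] at hm
      rw [hs1, ht1]
      exact ⟨hm.1.2.1, by linarith [hm.1.2.2]⟩) (fun m a1 a2 a3 => by
      rw [hs1] at a1 a3
      rw [ht1] at a2 a3
      have a4 := h1.tri _ _ a1 a2 a3
      have a5 := sum_lt a1 a2 (by omega) (by omega : f 1 ≤ d) a4
      rw [m1]
      have a6 : 0 ≤ m.1 := by linarith
      refine ⟨⟨a6, a1, by linarith⟩, ?_⟩
      by_contra a7
      have a8 := h0.tri _ _ a6 a1 a7
      exact disj a6 a1 a2 (by ring) d0 (by omega) (by omega) a8 a4)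
  simp only [hs1, ht1, m1] at m2
  -- the third corner
  obtain ⟨R3, m3, c3, k3⟩ := h2.cut φ2 R2 (fun m hm => by
      rw [m2] at hm
      exact ⟨hm.1.1.1, hm.1.1.2.1⟩) (fun m hm => by
      rw [m2] at hm
      rw [hs2, ht2]
      exact ⟨by linarith [hm.1.1.2.2], hm.1.1.1⟩) (fun m a1 a2 a3 => by
      rw [hs2] at a1 a3
      rw [ht2] at a2 a3
      have a4 := h2.tri _ _ a1 a2 a3
      have a5 := sum_lt a1 a2 (by omega) (by omega : f 2 ≤ d) a4
      rw [m2]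
      have a6 : 0 ≤ m.2 := by linarith
      refine ⟨⟨⟨a2, a6, by linarith⟩, ?_⟩, ?_⟩
      · by_contra a7
        have a8 := h0.tri _ _ a2 a6 a7
        exact disj a1 a2 a6 (by ring) d2 (by omega) (by omega) a4 a8
      · by_contra a7
        have a8 := h1.tri _ _ a6 a1 a7
        exact disj a6 a1 a2 (by ring) d1 (by omega) (by omega) a8 a4)
  simp only [hs2, ht2, m2] at m3
  refine ⟨R3, fun m => ((((0 ≤ 1 * m.1 + 0 * m.2) ∧ (0 ≤ 0 * m.1 + 1 * m.2)) ∧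
    (-(d : ℤ) ≤ -1 * m.1 + -1 * m.2)) ∧ P0 (1 * m.1 + 0 * m.2 + 0, 0 * m.1 + 1 * m.2 + 0)) ∧
    (P1 (0 * m.1 + 1 * m.2 + 0, -1 * m.1 + -1 * m.2 + d) ∧
      P2 (-1 * m.1 + -1 * m.2 + d, 1 * m.1 + 0 * m.2 + 0)), ?_, ?_, ?_, ?_, ?_⟩
  · exact (((((IsPoly.half 1 0 0).and (IsPoly.half 0 1 0)).and (IsPoly.half (-1) (-1) (-d))).and
      (h0.poly.subst 1 0 0 1 0 0))).and
      ((h1.poly.subst 0 1 (-1) (-1) 0 d).and (h2.poly.subst (-1) (-1) 1 0 d 0))
  · intro m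
    beta_reduce
    rw [m3]
    have e1 : ((1 * m.1 + 0 * m.2 + 0, 0 * m.1 + 1 * m.2 + 0) : ℤ × ℤ) = (m.1, m.2) := by
      ext
      · ring
      · ring
    have e2 : ((0 * m.1 + 1 * m.2 + 0, -1 * m.1 + -1 * m.2 + d) : ℤ × ℤ) =
        (m.2, d - m.1 - m.2) := by
      ext
      · ring
      · ring
    have e3 : ((-1 * m.1 + -1 * m.2 + d, 1 * m.1 + 0 * m.2 + 0) : ℤ × ℤ) =
        (d - m.1 - m.2, m.1) := by
      ext
      · ring
      · ring
    rw [e1, e2, e3]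
    constructor
    · rintro ⟨⟨⟨⟨g1, g2, g3⟩, g4⟩, g5⟩, g6⟩
      exact ⟨⟨⟨⟨by linarith, by linarith⟩, by linarith⟩, g4⟩, g5, g6⟩
    · rintro ⟨⟨⟨⟨g1, g2⟩, g3⟩, g4⟩, g5, g6⟩
      exact ⟨⟨⟨⟨by linarith, by linarith, by linarith⟩, g4⟩, g5⟩, g6⟩
  · intro m hm
    rw [m3] at hm
    exact hm.1.1.1
  · intro w
    have g1 := c1 (N 1 + (N 2 + w))
    have g2 := c2 (N 2 + w)
    have g3 := c3 w
    have e3 : N 0 + N 1 + N 2 + w = N 0 + (N 1 + (N 2 + w)) := by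
      rw [add_assoc, add_assoc]
    rw [e3]
    omega
  · rw [condM_add, condM_add]
    omega

theorem main_crk {d μ δ : ℕ} {M W : Multiset ℕ} (hM : Toric d M) (hW : ∀ v ∈ W, 1 ≤ v ∧ v ≤ μ)
    (hδ : (d + 1) * (d + 2) = 2 * NU.condM (M + W) + δ ∨ (d + 1) * (d + 2) + δ = 2 * NU.condM (M + W))
    (h : 4000000 * ((μ + 1) * (d + μ + 2)) ≤ W.sum + 2 * δ) :
    crkM (TF d) (M + W) ≤ (TF d).card - NU.condM (M + W) := by
  obtain ⟨S, P, hP, hS, hSd, hc, hcard⟩ := toric_cut hM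
  have hAp : Ap (8 * (μ + 1)) S (14080 * ((8 * (μ + 1)) * (d + 1)) + 7150 * (8 * (μ + 1)) ^ 2) := by
    refine Ap_poly (by omega) hP hS fun m hm => ?_
    have := hSd m hm
    push_cast
    omega
  have h2 := two_card_TF d
  rw [condM_add] at hδ ⊢
  have h3 := exM_S (δ := δ) (fun m hm => ⟨(hSd m hm).1, (hSd m hm).2.1⟩) hAp hW (by omega) (by
    refine le_trans ?_ h
    have e1 : 8 * (14080 * ((8 * (μ + 1)) * (d + 1)) + 7150 * (8 * (μ + 1)) ^ 2) +
        320 * (μ + 1) ^ 2 = 901120 * ((μ + 1) * (d + 1)) + 3661120 * ((μ + 1) * (μ + 1)) := by ring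
    have e2 : 4000000 * ((μ + 1) * (d + μ + 2)) =
        4000000 * ((μ + 1) * (d + 1)) + 4000000 * ((μ + 1) * (μ + 1)) := by ring
    omega)
  have h4 := hc W
  omega

theorem crkM_filter {S : Finset (ℤ × ℤ)} (hS : ∀ m ∈ S, 0 ≤ m.1 ∧ 0 ≤ m.2) (M W : Multiset ℕ) :
    crkM S (M + W) ≤ crkM S (M + W.filter fun v => v ≠ 0) := by
  induction W using Multiset.induction_on generalizing M with
  | empty => simp
  | cons a W ih =>
    by_cases ha : a = 0
    · subst ha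
      rw [Multiset.filter_cons_of_neg _ (by simp)]
      refine le_trans ?_ (ih M)
      have h1 := crkM_cut (M := {0}) (N := M + W) (S := ∅) (T := S) (by simp) hS 0 0 (by simp)
      have h2 := crkM_le_card ∅ {0}
      rw [card_empty] at h2
      rw [empty_union] at h1
      have e : M + 0 ::ₘ W = {0} + (M + W) := by
        rw [Multiset.add_cons, Multiset.singleton_add]
      rw [e]
      omega
    · rw [Multiset.filter_cons_of_pos _ (by simpa using ha)]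
      have h1 := ih (a ::ₘ M)
      rw [Multiset.cons_add, Multiset.cons_add] at h1
      rw [Multiset.add_cons, Multiset.add_cons]
      exact h1

/-- **Large points in toric position and arbitrary small points.** -/
theorem dec_toric {n : ℕ} {w : Fin n → ℕ} {I : Finset (Fin n)} {d μ : ℕ}
    (hI : Toric d (I.val.map w)) (hμ : ∀ i, i ∉ I → w i ≤ μ)
    (h : 4000000 * ((μ + 1) * (d + μ + 2)) ≤ ∑ i ∈ Iᶜ, w i + 2 * gap w d) :
    ((d + 1) * (d + 2) ≤ ∑ p, w p * (w p + 1) → Emp w (TZ d)) ∧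
      (∑ p, w p * (w p + 1) ≤ (d + 1) * (d + 2) → Sur w (TZ d)) := by
  classical
  obtain ⟨M, hM⟩ : ∃ M, M = I.val.map w := ⟨_, rfl⟩
  obtain ⟨W0, hW0⟩ : ∃ W0, W0 = (Iᶜ).val.map w := ⟨_, rfl⟩
  obtain ⟨W, hW⟩ : ∃ W, W = W0.filter fun v => v ≠ 0 := ⟨_, rfl⟩
  have hall : ∀ t : ℕ → ℕ, ∑ p, t (w p) = ((M + W0).map t).sum := by
    intro t
    rw [Multiset.map_add, Multiset.sum_add, hM, hW0, Multiset.map_map, Multiset.map_map,
      ← sum_add_sum_compl I]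
    rfl
  have hfil : ∀ t : ℕ → ℕ, t 0 = 0 → (W0.map t).sum = (W.map t).sum := by
    intro t ht
    rw [hW]
    clear hW hall hW0
    induction W0 using Multiset.induction_on with
    | empty => simp
    | cons a W0 ih =>
      by_cases ha : a = 0
      · subst ha
        rw [Multiset.filter_cons_of_neg _ (by simp), Multiset.map_cons, Multiset.sum_cons, ht,
          zero_add, ih]
      · rw [Multiset.filter_cons_of_pos _ (by simpa using ha), Multiset.map_cons,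
          Multiset.sum_cons, Multiset.map_cons, Multiset.sum_cons, ih]
  have hsum0 : ∑ i ∈ Iᶜ, w i = W.sum := by
    have h1 := hfil (fun x => x) rfl
    rw [Multiset.map_id', Multiset.map_id'] at h1
    rw [← h1, hW0]
    rfl
  have hcond : cond w = NU.condM (M + W) := by
    have h1 := hall fun x => (x + 1).choose 2
    have h2 := hfil (fun x => (x + 1).choose 2) (by norm_num)
    unfold Pool.Agent.TH603.Sur.cond Pool.Agent.TH2.NU.condM
    rw [h1, Multiset.map_add, Multiset.sum_add, h2, Multiset.map_add, Multiset.sum_add]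
  have hc2 := two_sum w
  have hcw : cond w = ∑ p, (w p + 1).choose 2 := rfl
  have hWμ : ∀ v ∈ W, 1 ≤ v ∧ v ≤ μ := by
    intro v hv
    rw [hW, Multiset.mem_filter, hW0, Multiset.mem_map] at hv
    obtain ⟨⟨i, hi, rfl⟩, h2⟩ := hv
    exact ⟨by omega, hμ i (mem_compl.1 hi)⟩
  have key : crkM (TF d) (M + W) ≤ (TF d).card - NU.condM (M + W) := by
    refine main_crk (μ := μ) (δ := gap w d) (by rw [hM]; exact hI) hWμ ?_ ?_
    · rw [← hcond, hcw, hc2]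
      unfold gap
      omega
    · rw [← hsum0]
      exact h
  have hex : Ex (TF d) w := by
    unfold Ex
    rw [← crkM_eq hall, hcond]
    refine le_trans ?_ key
    rw [hW]
    refine crkM_filter (fun m hm => ?_) _ _
    rw [mem_TF] at hm
    exact ⟨hm.1, hm.2.1⟩
  have hTF := two_card_TF d
  constructor
  · intro hle
    have hE : Emp w (↑(TF d) : Set (ℤ × ℤ)) := Emp_of_Ex hex (by omega)
    rw [coe_TF] at hE
    exact hE
  · intro hle
    have hS : Sur w (↑(TF d) : Set (ℤ × ℤ)) := Sur_of_Ex hex (by omega)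
    rw [coe_TF] at hS
    exact hS

/-- for general points -/
theorem toric_points {n : ℕ} (w : Fin n → ℕ) :
    ∃ F : MvPolynomial (Fin n × Fin 2) ℚ, F ≠ 0 ∧ ∀ {L : Type} [Field L] [CharZero L]
      (P : Fin n → Fin 2 → L), MvPolynomial.aeval (fun ij : Fin n × Fin 2 => P ij.1 ij.2) F ≠ 0 →
      ∀ (d μ : ℕ) (I : Finset (Fin n)), Toric d (I.val.map w) → (∀ i, i ∉ I → w i ≤ μ) →
        4000000 * ((μ + 1) * (d + μ + 2)) ≤ ∑ i ∈ Iᶜ, w i + 2 * gap w d →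
        ExpDim L w P d := by
  obtain ⟨F, h1, h2⟩ := expDim_two (w := w)
    (A := fun d => (d + 1) * (d + 2) ≤ ∑ p, w p * (w p + 1) ∧
      ∃ (μ : ℕ) (I : Finset (Fin n)), Toric d (I.val.map w) ∧ (∀ i, i ∉ I → w i ≤ μ) ∧
        4000000 * ((μ + 1) * (d + μ + 2)) ≤ ∑ i ∈ Iᶜ, w i + 2 * gap w d)
    (B := fun d => ∑ p, w p * (w p + 1) ≤ (d + 1) * (d + 2) ∧
      ∃ (μ : ℕ) (I : Finset (Fin n)), Toric d (I.val.map w) ∧ (∀ i, i ∉ I → w i ≤ μ) ∧
        4000000 * ((μ + 1) * (d + μ + 2)) ≤ ∑ i ∈ Iᶜ, w i + 2 * gap w d)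
    (N := ∑ p, w p * (w p + 1))
    (fun d hd => by
      have h := hd.1
      have e : (d + 1) * (d + 2) = d * d + 3 * d + 2 := by ring
      omega)
    (fun d hd => by
      obtain ⟨h, μ, I, hI, hμ, hd⟩ := hd
      exact (dec_toric hI hμ hd).1 h)
    (fun d hd => by
      obtain ⟨h, μ, I, hI, hμ, hd⟩ := hd
      exact (dec_toric hI hμ hd).2 h)
  refine ⟨F, h1, fun {L} _ _ P hP d μ I hI hμ hd => h2 P hP d ?_⟩
  rcases le_total ((d + 1) * (d + 2)) (∑ p, w p * (w p + 1)) with h | h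
  · exact Or.inl ⟨h, μ, I, hI, hμ, hd⟩
  · exact Or.inr ⟨h, μ, I, hI, hμ, hd⟩

end Pool.Agent.K7.H33.BP
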