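import Pool.Agent.K7.H33.BP.Big

/-! Nine large points in standard form. -/

set_option autoImplicit false

namespace Pool.Agent.K7.H33.BP

open Pool.Agent.TH2

open Finset Pool.Agent.TH176.Nag Pool.Agent.TH603.Sur Pool.Agent.TH2.NU
open Pool.Agent.Y205.MD Pool.Agent.Y205.FW Pool.Agent.Y205.AV
open Pool.Agent.TH387.SH (TF coe_TF card_TF)

/-- five points in the lowest strip -/
theorem pack5 {B d h p q r s δ : ℕ} (hB : 2 ≤ B) (hd : h + q + p + δ ≤ d) (hp : p ≤ h)
    (hq : q ≤ h) (hr : r ≤ h) (hrd : h + r ≤ d) (hsq : s ≤ q) (hs : s + 1 ≤ h + δ ∨ s = 0)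
    (hδ : δ ≤ 1) (hsd : h + q + s ≤ d) :
    ApM B (Z d fun m => True ∧ 0 * m.1 + 1 * m.2 < (h : ℤ))
      ({h} + {r} + {q} + {s} + {p}) (3 * (14080 * (B * (d + 1)) + 7150 * B ^ 2) + 7 * B ^ 2) := by
  have key := ApM.split (B := B) (d := d)
    (P := fun m => True ∧ 0 * m.1 + 1 * m.2 < (h : ℤ)) 1 1 h
    (ApM.up (u := h) 0 0 (by omega) (by omega) (by omega) (by
        intro m h1 h2 h3
        simp only [true_and]
        omega))
    (ApM.split 1 0 (h + 1)
      (ApM.split 0 1 r (ApM.down (u := r) h (r - 1) (by omega) (by omega) (by omega) (by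
          intro m h1 h2 h3
          simp only [true_and]
          omega))
        (ApM.poly hB (((((IsPoly.true.and (IsPoly.lt 0 1 h)).and
          (IsPoly.half 1 1 _)).and (IsPoly.lt 1 0 _)).and (IsPoly.half 0 1 _)))))
      (ApM.split 1 1 (h + 1 + q) (ApM.up (u := q) (h + 1) 0 (by omega) (by omega) (by omega) (by
          intro m h1 h2 h3
          simp only [true_and]
          omega))
        (ApM.split 1 0 (h + q + δ + 1)
          (ApM.split 0 1 (s + 1 - δ) (ApM.down (u := s) (h + q + δ) (s - δ) (by omega) (by omega)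
              (by omega) (by
              intro m h1 h2 h3
              simp only [true_and]
              omega))
            (ApM.poly hB (((((((IsPoly.true.and (IsPoly.lt 0 1 h)).and
              (IsPoly.half 1 1 _)).and (IsPoly.half 1 0 _)).and (IsPoly.half 1 1 _)).and
              (IsPoly.lt 1 0 _)).and (IsPoly.half 0 1 _)))))
          (ApM.split 1 1 (h + q + δ + 1 + p) (ApM.up (u := p) (h + q + δ + 1) 0 (by omega)
              (by omega) (by omega) (by
              intro m h1 h2 h3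
              simp only [true_and]
              omega))
            (ApM.poly hB (((((((IsPoly.true.and (IsPoly.lt 0 1 h)).and
              (IsPoly.half 1 1 _)).and (IsPoly.half 1 0 _)).and (IsPoly.half 1 1 _)).and
              (IsPoly.half 1 0 _)).and (IsPoly.half 1 1 _))))))))
  have e : ({h} + (({r} + 0) + ({q} + (({s} + 0) + ({p} + 0)))) : Multiset ℕ) =
      {h} + {r} + {q} + {s} + {p} := by
    abel
  rw [e] at key
  exact key.mono (by omega)

theorem Z_true (d : ℕ) : Z d (fun _ => True) = TF d := by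
  ext m
  rw [mem_Z, mem_TF]
  simp

/-- nine points -/
theorem pack9 {B d δ a1 a2 a3 a4 a5 a6 a7 a8 a9 : ℕ} (hB : 2 ≤ B) (h12 : a2 ≤ a1) (h23 : a3 ≤ a2)
    (h34 : a4 ≤ a3) (h45 : a5 ≤ a4) (h56 : a6 ≤ a5) (h67 : a7 ≤ a6) (h78 : a8 ≤ a7) (h89 : a9 ≤ a8)
    (hδ : δ ≤ 1) (hd : a1 + a2 + a3 + δ ≤ d) (hs : a9 + 1 ≤ a1 + δ ∨ a9 = 0) :
    ApM B (TF d) ({a1} + {a2} + {a3} + {a4} + {a5} + {a6} + {a7} + {a8} + {a9})
      (84480 * (B * (d + 1)) + 42914 * B ^ 2) := by
  have g1 := pack5 (B := B) (d := d) (h := a1) (p := a2) (q := a3) (r := a4) (s := a9) (δ := δ) hB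
    (by omega) h12 (by omega) (by omega) (by omega) (by omega) hs hδ (by omega)
  have g2 := pack4 (B := B) (d := d) (h := a1) (p := a5) (q := a6) (r := a7) (s := a8) hB
    (by omega) h56 h67 (by omega)
  have key := ApM.split (P := fun _ => True) 0 1 a1 g1 g2
  rw [Z_true] at key
  have e : ({a1} + {a4} + {a3} + {a9} + {a2} + ({a5} + {a6} + {a7} + {a8}) : Multiset ℕ) =
      {a1} + {a2} + {a3} + {a4} + {a5} + {a6} + {a7} + {a8} + {a9} := by
    abel
  rw [e] at key
  exact key.mono (by omega)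

/-- small points and nine large ones -/
theorem main9 {d μ δ a1 a2 a3 a4 a5 a6 a7 a8 a9 : ℕ} {W : Multiset ℕ} (h12 : a2 ≤ a1)
    (h23 : a3 ≤ a2) (h34 : a4 ≤ a3) (h45 : a5 ≤ a4) (h56 : a6 ≤ a5) (h67 : a7 ≤ a6) (h78 : a8 ≤ a7)
    (h89 : a9 ≤ a8) (hd : a1 + a2 + a3 ≤ d) (hW : ∀ v ∈ W, 1 ≤ v ∧ v ≤ μ) {M : Multiset ℕ}
    (hM : M = {a1} + {a2} + {a3} + {a4} + {a5} + {a6} + {a7} + {a8} + {a9})
    (hδ : (d + 1) * (d + 2) = 2 * NU.condM M + 2 * NU.condM W + δ ∨
      (d + 1) * (d + 2) + δ = 2 * NU.condM M + 2 * NU.condM W)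
    (h : 30000000 * ((μ + 1) * (d + μ + 2)) ≤ W.sum + 2 * δ) :
    crkM (TF d) (M + W) ≤ (TF d).card - (NU.condM M + NU.condM W) := by
  have hTF := two_card_TF d
  rw [← hTF] at hδ
  have hT0 : ∀ m ∈ TF d, 0 ≤ m.1 ∧ 0 ≤ m.2 := fun m hm => by
    rw [mem_TF] at hm
    exact ⟨hm.1, hm.2.1⟩
  obtain ⟨E, hE⟩ : ∃ E, E = 84480 * ((8 * (μ + 1)) * (d + 1)) + 42914 * (8 * (μ + 1)) ^ 2 +
      2 * (d + 1) := ⟨_, rfl⟩
  have hnum : 8 * E + 320 * (μ + 1) ^ 2 ≤ W.sum + 2 * δ := by
    refine le_trans ?_ h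
    have e1 : 8 * E + 320 * (μ + 1) ^ 2 = 5406720 * ((μ + 1) * (d + 1)) +
        21972288 * ((μ + 1) * (μ + 1)) + 16 * (d + 1) := by rw [hE]; ring
    have e2 : 30000000 * ((μ + 1) * (d + μ + 2)) =
        30000000 * ((μ + 1) * (d + 1)) + 30000000 * ((μ + 1) * (μ + 1)) := by ring
    have e3 : 1 * (d + 1) ≤ (μ + 1) * (d + 1) := Nat.mul_le_mul_right _ (by omega)
    omega
  by_cases hgood : ∃ δ, δ ≤ 1 ∧ a1 + a2 + a3 + δ ≤ d ∧ (a9 + 1 ≤ a1 + δ ∨ a9 = 0)
  · obtain ⟨δ', g1, g2, g3⟩ := hgood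
    have hAp := pack9 (B := 8 * (μ + 1)) (by omega) h12 h23 h34 h45 h56 h67 h78 h89 g1 g2 g3
    rw [← hM] at hAp
    have hAp2 : ApM (8 * (μ + 1)) (TF d) M E := hAp.mono (by rw [hE]; omega)
    exact ex_big hT0 hAp2.ce hAp2.cs hW hδ hnum
  · -- nine equal multiplicities, a third of the degree
    have q1 : ¬ (a9 + 1 ≤ a1 ∨ a9 = 0) := fun hc => hgood ⟨0, by omega, by omega, by omega⟩
    have q2 : ¬ a1 + a2 + a3 + 1 ≤ d := fun hc => hgood ⟨1, by omega, by omega, by omega⟩
    obtain ⟨t, ht⟩ : ∃ t, a9 = t + 1 := ⟨a9 - 1, by omega⟩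
    obtain rfl : a1 = t + 1 := by omega
    obtain rfl : a2 = t + 1 := by omega
    obtain rfl : a3 = t + 1 := by omega
    obtain rfl : a4 = t + 1 := by omega
    obtain rfl : a5 = t + 1 := by omega
    obtain rfl : a6 = t + 1 := by omega
    obtain rfl : a7 = t + 1 := by omega
    obtain rfl : a8 = t + 1 := by omega
    subst ht
    obtain ⟨N, hN⟩ : ∃ N : Multiset ℕ, N = {t + 1} + {t + 1} + {t + 1} + {t + 1} + {t + 1} +
        {t + 1} + {t + 1} + {t + 1} := ⟨_, rfl⟩
    have hAp := pack9 (B := 8 * (μ + 1)) (d := d) (δ := 0) (a1 := t + 1) (a2 := t + 1)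
      (a3 := t + 1) (a4 := t + 1) (a5 := t + 1) (a6 := t + 1) (a7 := t + 1) (a8 := t + 1) (a9 := t)
      (by omega) le_rfl le_rfl le_rfl le_rfl le_rfl le_rfl le_rfl (by omega) (by omega) (by omega)
      (by omega)
    rw [← hN] at hM hAp
    have hc1 : NU.condM M = NU.condM N + (t + 2).choose 2 := by
      rw [hM, condM_add, condM_single]
    have hc2 : NU.condM (N + {t}) = NU.condM N + (t + 1).choose 2 := by
      rw [condM_add, condM_single]
    have hc3 : (t + 2).choose 2 = (t + 1).choose 2 + (t + 1) := by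
      rw [Nat.choose_succ_succ' (t + 1) 1, Nat.choose_one_right]
      ring
    have hc4 : NU.condM N = 8 * (t + 2).choose 2 := by
      rw [hN]
      simp only [condM_add, condM_single]
      ring
    have hdt : d = 3 * (t + 1) := by omega
    refine ex_big hT0 (M := M) (E := E) ?_ ?_ hW hδ hnum
    · intro A hA
      have h1 := crkM_anti1 hT0 (Nat.le_succ t) (N + A)
      have e1 : (t + 1) ::ₘ (N + A) = M + A := by
        rw [hM, ← Multiset.singleton_add]
        abel
      have e2 : t ::ₘ (N + A) = N + {t} + A := by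
        rw [← Multiset.singleton_add]
        abel
      rw [Nat.succ_eq_add_one, e1, e2] at h1
      rcases hAp.ce A hA with h2 | h2
      · left; omega
      · right
        rw [hE]
        omega
    · intro A _ hA
      exfalso
      have h3 := two_card_TF d
      have h4 : 2 * (t + 2).choose 2 = (t + 1) * (t + 2) := Pool.Agent.TH2.NU.two_choose (t + 1)
      have h5 : 2 * (TF d).card = 9 * ((t + 1) * (t + 2)) + 2 := by
        rw [h3, hdt]
        ring
      omega

end Pool.Agent.K7.H33.BP
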