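import Pool.Agent.K7.H33.BP.Chains

/-! Regions of a triangle of exponents with large points and arbitrary small points; cutting them
into pieces. -/

set_option autoImplicit false

namespace Pool.Agent.K7.H33.BP

open Pool.Agent.TH2

open Finset Pool.Agent.TH176.Nag Pool.Agent.TH603.Sur Pool.Agent.TH2.NU
open Pool.Agent.Y205.MD Pool.Agent.Y205.FW Pool.Agent.Y205.AV
open Pool.Agent.TH387.SH (TF coe_TF card_TF)

/-- the set `R` with the large points `M` is almost exact for small multiplicities up to `B`, with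
the error `E` -/
structure ApM (B : ℕ) (R : Finset (ℤ × ℤ)) (M : Multiset ℕ) (E : ℕ) : Prop where
  ind : crkM R M + NU.condM M ≤ R.card
  ce : ∀ W : Multiset ℕ, (∀ v ∈ W, 1 ≤ v ∧ v ≤ B) →
    crkM R (M + W) = 0 ∨ 2 * crkM R (M + W) + sqs W + 2 * NU.condM M ≤ 2 * R.card + E
  cs : ∀ W : Multiset ℕ, (∀ v ∈ W, v + 1 ≤ B) → sq1 W + E + 2 * NU.condM M ≤ 2 * R.card →
    crkM R (M + W) + NU.condM M + NU.condM W ≤ R.card

theorem ApM.mono {B E E' : ℕ} {R : Finset (ℤ × ℤ)} {M : Multiset ℕ} (h : ApM B R M E)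
    (hE : E ≤ E') : ApM B R M E' := by
  refine ⟨h.ind, fun W hW => ?_, fun W hW h1 => h.cs W hW (by omega)⟩
  rcases h.ce W hW with h1 | h1
  · exact Or.inl h1
  · exact Or.inr (by omega)

theorem ApM.of_ap {B E : ℕ} {R : Finset (ℤ × ℤ)} (h : Ap B R E) : ApM B R 0 E := by
  refine ⟨?_, fun W hW => ?_, fun W hW h1 => ?_⟩
  · have := crkM_le_card R 0
    rw [condM_zero]
    omega
  · rw [zero_add, condM_zero]
    rcases h.ce W hW with h1 | h1
    · exact Or.inl h1
    · exact Or.inr (by omega)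
  · rw [condM_zero] at h1
    rw [zero_add, condM_zero]
    have := h.cs W hW (by omega)
    omega

/-- two sets separated by a line -/
theorem ApM.union {B E1 E2 : ℕ} {S T : Finset (ℤ × ℤ)} {M1 M2 : Multiset ℕ}
    (h1 : ApM B S M1 E1) (h2 : ApM B T M2 E2)
    (hS0 : ∀ m ∈ S, 0 ≤ m.1 ∧ 0 ≤ m.2) (hT0 : ∀ m ∈ T, 0 ≤ m.1 ∧ 0 ≤ m.2)
    (a b : ℤ) (hcut : ∀ m ∈ S, ∀ m' ∈ T, a * m.1 + b * m.2 < a * m'.1 + b * m'.2) :
    ApM B (S ∪ T) (M1 + M2) (E1 + E2 + B ^ 2) := by
  classical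
  have hd : Disjoint S T := by
    rw [disjoint_left]
    intro p hp hq
    exact lt_irrefl _ (hcut p hp p hq)
  have key : ∀ M N, crkM (S ∪ T) (M + N) ≤ crkM S M + crkM T N := fun M N =>
    crkM_cut hS0 hT0 a b hcut
  have hc := card_union_of_disjoint hd
  have i1 := h1.ind
  have i2 := h2.ind
  have hM := condM_add M1 M2
  refine ⟨?_, fun W hW => ?_, fun W hW h => ?_⟩
  · have := key M1 M2
    omega
  · rcases exists_part (fun v => v ^ 2) (C := B ^ 2) W
      (fun v hv => Nat.pow_le_pow_left (hW v hv).2 2) (2 * S.card + E1 - 2 * NU.condM M1)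
      with h3 | ⟨N, R, h3, h4, h5⟩
    · change sqs W ≤ _ at h3
      have h4 := key (M1 + W) M2
      have e : M1 + W + M2 = M1 + M2 + W := by abel
      rw [e] at h4
      have h7 := h2.ce 0 (by simp)
      rw [add_zero, sqs_zero] at h7
      rcases h1.ce W hW with h6 | h6
      · rcases h7 with h7 | h7
        · left; omega
        · right; omega
      · rcases h7 with h7 | h7
        · right; omega
        · right; omega
    · change _ < sqs N at h4
      change sqs N ≤ _ at h5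
      have h6 : crkM S (M1 + N) = 0 := by
        rcases h1.ce N (fun v hv => hW v (by rw [h3]; exact Multiset.mem_add.2 (Or.inl hv)))
          with h6 | h6
        · exact h6
        · omega
      have h7 := key (M1 + N) (M2 + R)
      have e : M1 + N + (M2 + R) = M1 + M2 + W := by rw [h3]; abel
      rw [e] at h7
      have h9 : sqs W = sqs N + sqs R := by rw [h3, sqs_add]
      rcases h2.ce R (fun v hv => hW v (by rw [h3]; exact Multiset.mem_add.2 (Or.inr hv)))
        with h8 | h8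
      · left; omega
      · right; omega
  · rcases Nat.lt_or_ge (2 * S.card) (E1 + 2 * NU.condM M1) with hlt | hge
    · have h3 := h2.cs W hW (by omega)
      have h4 := key M1 (M2 + W)
      rw [← add_assoc] at h4
      omega
    · rcases exists_part' (fun v => (v + 1) ^ 2) (C := B ^ 2) W
        (fun v hv => Nat.pow_le_pow_left (hW v hv) 2) (2 * S.card - E1 - 2 * NU.condM M1)
        with h3 | ⟨N, R, h3, h4, h5⟩
      · change sq1 W ≤ _ at h3
        have h4 := h1.cs W hW (by omega)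
        have h5 := key (M1 + W) M2
        have e : M1 + W + M2 = M1 + M2 + W := by abel
        rw [e] at h5
        omega
      · change sq1 N ≤ _ at h4
        change _ < sq1 N + _ at h5
        have h9 : sq1 W = sq1 N + sq1 R := by rw [h3, sq1_add]
        have h10 : NU.condM W = NU.condM N + NU.condM R := by rw [h3, condM_add]
        have h6 := h1.cs N (fun v hv => hW v (by rw [h3]; exact Multiset.mem_add.2 (Or.inl hv)))
          (by omega)
        have h7 := h2.cs R (fun v hv => hW v (by rw [h3]; exact Multiset.mem_add.2 (Or.inr hv)))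
          (by omega)
        have h8 := key (M1 + N) (M2 + R)
        have e : M1 + N + (M2 + R) = M1 + M2 + W := by rw [h3]; abel
        rw [e] at h8
        omega

/-- more points -/
theorem crkM_more {S : Finset (ℤ × ℤ)} (hS : ∀ m ∈ S, 0 ≤ m.1 ∧ 0 ≤ m.2) (M W : Multiset ℕ) :
    crkM S (M + W) ≤ crkM S M := by
  have h1 := crkM_cut (M := W) (N := M) (S := ∅) (T := S) (by simp) hS 0 0 (by simp)
  have h2 := crkM_le_card ∅ W
  rw [card_empty] at h2
  rw [empty_union, add_comm W M] at h1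
  omega

/-- one large point on its triangle -/
theorem ApM.tri {B u : ℕ} (φ : Fr) {T : Finset (ℤ × ℤ)} (hT0 : ∀ m ∈ T, 0 ≤ m.1 ∧ 0 ≤ m.2)
    (hmT : ∀ m, m ∈ T ↔ 0 ≤ φ.s m ∧ 0 ≤ φ.t m ∧ φ.s m + φ.t m < u) : ApM B T {u} 0 := by
  classical
  obtain ⟨c1, c2⟩ := cut_one φ u hT0 (fun m hm => ⟨((hmT m).1 hm).1, ((hmT m).1 hm).2.1⟩)
    (fun m h1 h2 h3 => (hmT m).2 ⟨h1, h2, h3⟩)
  have he : (T.filter fun m => (u : ℤ) ≤ φ.s m + φ.t m) = ∅ := by
    rw [eq_empty_iff_forall_notMem]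
    intro m hm
    rw [mem_filter, hmT] at hm
    omega
  rw [he] at c1 c2
  rw [card_empty] at c2
  have h0 : ∀ W, crkM T ({u} + W) = 0 := by
    intro W
    have h1 := c1 W
    have h2 := crkM_le_card ∅ W
    rw [card_empty] at h2
    omega
  have h00 : crkM T {u} = 0 := by
    have := h0 0
    rwa [add_zero] at this
  have hc := condM_single u
  refine ⟨by omega, fun W _ => Or.inl (h0 W), fun W hW h => ?_⟩
  have hW0 : W = 0 := by
    induction W using Multiset.induction_on with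
    | empty => rfl
    | cons a W _ =>
      exfalso
      rw [sq1_cons] at h
      have : 1 ≤ (a + 1) ^ 2 := Nat.one_le_pow _ _ (by omega)
      omega
  subst hW0
  have := h0 0
  rw [condM_zero]
  omega

open Classical in
/-- the part of the triangle of size `d` described by `P` -/
noncomputable def Z (d : ℕ) (P : ℤ × ℤ → Prop) : Finset (ℤ × ℤ) := (TF d).filter P

open Classical in
theorem mem_Z {d : ℕ} {P : ℤ × ℤ → Prop} {m : ℤ × ℤ} :
    m ∈ Z d P ↔ (0 ≤ m.1 ∧ 0 ≤ m.2 ∧ m.1 + m.2 ≤ d) ∧ P m := by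
  unfold Z
  rw [mem_filter, mem_TF]

theorem Z_pos {d : ℕ} {P : ℤ × ℤ → Prop} : ∀ m ∈ Z d P, 0 ≤ m.1 ∧ 0 ≤ m.2 := by
  intro m hm
  rw [mem_Z] at hm
  exact ⟨hm.1.1, hm.1.2.1⟩

theorem ApM.split {B d E1 E2 : ℕ} {P : ℤ × ℤ → Prop} {M1 M2 : Multiset ℕ} (a b c : ℤ)
    (h1 : ApM B (Z d fun m => P m ∧ a * m.1 + b * m.2 < c) M1 E1)
    (h2 : ApM B (Z d fun m => P m ∧ c ≤ a * m.1 + b * m.2) M2 E2) :
    ApM B (Z d P) (M1 + M2) (E1 + E2 + B ^ 2) := by
  classical
  have e : Z d P = (Z d fun m => P m ∧ a * m.1 + b * m.2 < c) ∪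
      (Z d fun m => P m ∧ c ≤ a * m.1 + b * m.2) := by
    ext m
    rw [mem_union, mem_Z, mem_Z, mem_Z]
    rcases lt_or_ge (a * m.1 + b * m.2) c with h | h
    · constructor
      · rintro ⟨h3, h4⟩
        exact Or.inl ⟨h3, h4, h⟩
      · rintro (⟨h3, h4, -⟩ | ⟨h3, h4, -⟩) <;> exact ⟨h3, h4⟩
    · constructor
      · rintro ⟨h3, h4⟩
        exact Or.inr ⟨h3, h4, h⟩
      · rintro (⟨h3, h4, -⟩ | ⟨h3, h4, -⟩) <;> exact ⟨h3, h4⟩
  rw [e]
  refine h1.union h2 Z_pos Z_pos a b ?_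
  intro m hm m' hm'
  rw [mem_Z] at hm hm'
  exact lt_of_lt_of_le hm.2.2 hm'.2.2

/-- an upward triangle -/
theorem ApM.up {B d u : ℕ} {P : ℤ × ℤ → Prop} (a b : ℤ) (ha : 0 ≤ a) (hb : 0 ≤ b)
    (hd : a + b + u ≤ d + 1) (hP : ∀ m : ℤ × ℤ, 0 ≤ m.1 → 0 ≤ m.2 → m.1 + m.2 ≤ d →
      (P m ↔ a ≤ m.1 ∧ b ≤ m.2 ∧ m.1 + m.2 < a + b + u)) : ApM B (Z d P) {u} 0 := by
  refine ApM.tri ⟨1, 0, 0, 1, -a, -b, by norm_num⟩ Z_pos fun m => ?_
  rw [mem_Z]
  unfold Fr.s Fr.t
  simp only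
  constructor
  · rintro ⟨⟨h1, h2, h3⟩, h4⟩
    rw [hP m h1 h2 h3] at h4
    omega
  · intro h
    have h1 : 0 ≤ m.1 := by omega
    have h2 : 0 ≤ m.2 := by omega
    have h3 : m.1 + m.2 ≤ d := by omega
    refine ⟨⟨h1, h2, h3⟩, ?_⟩
    rw [hP m h1 h2 h3]
    omega

/-- a downward triangle -/
theorem ApM.down {B d u : ℕ} {P : ℤ × ℤ → Prop} (a b : ℤ) (ha : (u : ℤ) ≤ a + 1)
    (hb : (u : ℤ) ≤ b + 1) (hd : u = 0 ∨ a + b ≤ d)
    (hP : ∀ m : ℤ × ℤ, 0 ≤ m.1 → 0 ≤ m.2 → m.1 + m.2 ≤ d →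
      (P m ↔ m.1 ≤ a ∧ m.2 ≤ b ∧ a + b < m.1 + m.2 + u)) : ApM B (Z d P) {u} 0 := by
  refine ApM.tri ⟨-1, 0, 0, -1, a, b, by norm_num⟩ Z_pos fun m => ?_
  rw [mem_Z]
  unfold Fr.s Fr.t
  simp only
  constructor
  · rintro ⟨⟨h1, h2, h3⟩, h4⟩
    rw [hP m h1 h2 h3] at h4
    omega
  · intro h
    have h1 : 0 ≤ m.1 := by omega
    have h2 : 0 ≤ m.2 := by omega
    have h3 : m.1 + m.2 ≤ d := by omega
    refine ⟨⟨h1, h2, h3⟩, ?_⟩
    rw [hP m h1 h2 h3]
    omega

theorem IsPoly.lt (a b c : ℤ) : IsPoly fun m => a * m.1 + b * m.2 < c :=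
  (IsPoly.half (-a) (-b) (1 - c)).congr fun m => by
    constructor <;> intro h <;> linarith

/-- a polygon without large points -/
theorem ApM.poly {B d : ℕ} (hB : 2 ≤ B) {P : ℤ × ℤ → Prop} (hP : IsPoly P) :
    ApM B (Z d P) 0 (14080 * (B * (d + 1)) + 7150 * B ^ 2) := by
  refine ApM.of_ap (Ap_poly hB (P := fun m => (((0 ≤ 1 * m.1 + 0 * m.2) ∧
    (0 ≤ 0 * m.1 + 1 * m.2)) ∧ (-(d : ℤ) ≤ -1 * m.1 + -1 * m.2)) ∧ P m)
    ((((IsPoly.half 1 0 0).and (IsPoly.half 0 1 0)).and (IsPoly.half (-1) (-1) (-d))).and hP) ?_ ?_)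
  · intro m
    rw [mem_Z]
    constructor
    · rintro ⟨⟨h1, h2, h3⟩, h4⟩
      exact ⟨⟨⟨by linarith, by linarith⟩, by linarith⟩, h4⟩
    · rintro ⟨⟨⟨h1, h2⟩, h3⟩, h4⟩
      exact ⟨⟨by linarith, by linarith, by linarith⟩, h4⟩
  · intro m hm
    rw [mem_Z] at hm
    push_cast
    omega

/-- four points in a strip below and a triangle above -/
theorem pack4 {B d h p q r s : ℕ} (hB : 2 ≤ B) (hd : h + p + q ≤ d) (hqp : q ≤ p) (hrq : r ≤ q)
    (hsq : s ≤ q) : ApM B (Z d fun m => True ∧ (h : ℤ) ≤ 0 * m.1 + 1 * m.2)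
      ({p} + {q} + {r} + {s}) (3 * (14080 * (B * (d + 1)) + 7150 * B ^ 2) + 6 * B ^ 2) := by
  have key := ApM.split (B := B) (d := d)
    (P := fun m => True ∧ (h : ℤ) ≤ 0 * m.1 + 1 * m.2) 0 1 (h + p)
    (ApM.split 1 1 (h + p) (ApM.up (u := p) 0 h (by omega) (by omega) (by omega) (by
        intro m h1 h2 h3
        simp only [true_and]
        omega))
      (ApM.split 1 0 (p + 1)
        (ApM.split 0 1 (h + r) (ApM.down (u := r) p (h + r - 1) (by omega) (by omega) (by omega) (by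
            intro m h1 h2 h3
            simp only [true_and]
            omega))
          (ApM.poly hB ((((((IsPoly.true.and (IsPoly.half 0 1 h)).and (IsPoly.lt 0 1 _)).and
            (IsPoly.half 1 1 _)).and (IsPoly.lt 1 0 _)).and (IsPoly.half 0 1 _)))))
        (ApM.split 1 1 (h + p + 1 + q) (ApM.up (u := q) (p + 1) h (by omega) (by omega) (by omega)
            (by
              intro m h1 h2 h3
              simp only [true_and]
              omega))
          (ApM.poly hB ((((((IsPoly.true.and (IsPoly.half 0 1 h)).and (IsPoly.lt 0 1 _)).and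
            (IsPoly.half 1 1 _)).and (IsPoly.half 1 0 _)).and (IsPoly.half 1 1 _)))))))
    (ApM.split 1 1 (h + p + s) (ApM.up (u := s) 0 (h + p) (by omega) (by omega) (by omega) (by
        intro m h1 h2 h3
        simp only [true_and]
        omega))
      (ApM.poly hB (((IsPoly.true.and (IsPoly.half 0 1 h)).and (IsPoly.half 0 1 _)).and
        (IsPoly.half 1 1 _))))
  have e : ({p} + (({r} + 0) + ({q} + 0)) + ({s} + 0) : Multiset ℕ) = {p} + {q} + {r} + {s} := by
    abel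
  rw [e] at key
  exact key.mono (by omega)

end Pool.Agent.K7.H33.BP
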