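import Pool.Agent.K7.H33.BP.Sq

/-! Dyadic squares: intersections of half planes are almost exact. -/

set_option autoImplicit false

namespace Pool.Agent.K7.H33.BP

open Finset

section quad
variable (S : Finset (ℤ × ℤ)) (B : ℕ)

/-- a dyadic square -/
noncomputable def Qd (j p q : ℕ) : Finset (ℤ × ℤ) :=
  SQ ((p * (2 ^ j * B) : ℕ) : ℤ) ((q * (2 ^ j * B) : ℕ) : ℤ) (2 ^ j * B)

/-- the square meets a set and its complement -/
def Cr (R : Set (ℤ × ℤ)) (j p q : ℕ) : Prop :=
  (∃ m ∈ Qd B j p q, m ∈ R) ∧ ∃ m ∈ Qd B j p q, m ∉ R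

open Classical in
/-- the number of the dyadic squares inside of a given one which are crossed by the boundary -/
noncomputable def X : ℕ → ℕ → ℕ → ℕ
  | 0, p, q => if Cr B ↑S 0 p q then 1 else 0
  | j + 1, p, q => (if Cr B ↑S (j + 1) p q then 1 else 0) +
      (X j (2 * p) (2 * q) + X j (2 * p + 1) (2 * q) + X j (2 * p) (2 * q + 1) +
        X j (2 * p + 1) (2 * q + 1))

variable {S B}

theorem mem_Qd {j p q : ℕ} {m : ℤ × ℤ} : m ∈ Qd B j p q ↔
    (((p * (2 ^ j * B) : ℕ) : ℤ) ≤ m.1 ∧ m.1 < (((p + 1) * (2 ^ j * B) : ℕ) : ℤ)) ∧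
      (((q * (2 ^ j * B) : ℕ) : ℤ) ≤ m.2 ∧ m.2 < (((q + 1) * (2 ^ j * B) : ℕ) : ℤ)) := by
  unfold Qd
  rw [mem_SQ]
  have e1 : (p + 1) * (2 ^ j * B) = p * (2 ^ j * B) + 2 ^ j * B := by ring
  have e2 : (q + 1) * (2 ^ j * B) = q * (2 ^ j * B) + 2 ^ j * B := by ring
  rw [e1, e2]
  push_cast
  rfl

theorem quad (hB : 2 ≤ B) : ∀ j p q : ℕ,
    Ap B (S ∩ Qd B j p q) (110 * B ^ 2 * (1 + 4 * X S B j p q)) := by
  classical
  have hsq : ∀ j p q, Ap B (Qd B j p q) (105 * B ^ 2) := by
    intro j p q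
    have h1 : 1 ≤ 2 ^ j := Nat.one_le_two_pow
    have h2 : 1 * B ≤ 2 ^ j * B := Nat.mul_le_mul_right _ h1
    exact Ap.square (by omega) _ _ (by omega)
  -- a square which is not crossed
  have hnc : ∀ j p q, ¬ Cr B ↑S j p q → Ap B (S ∩ Qd B j p q) (110 * B ^ 2) := by
    intro j p q h
    by_cases h1 : ∃ m ∈ Qd B j p q, m ∈ (↑S : Set (ℤ × ℤ))
    · have h2 : ∀ m ∈ Qd B j p q, m ∈ S := by
        intro m hm
        by_contra hcon
        exact h ⟨h1, m, hm, fun h3 => hcon (mem_coe.1 h3)⟩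
      have e : S ∩ Qd B j p q = Qd B j p q := inter_eq_right.2 h2
      rw [e]
      exact (hsq j p q).mono (by omega)
    · have e : S ∩ Qd B j p q = ∅ := by
        rw [eq_empty_iff_forall_notMem]
        intro m hm
        rw [mem_inter] at hm
        exact h1 ⟨m, hm.2, mem_coe.2 hm.1⟩
      rw [e]
      exact (Ap.empty B).mono (Nat.zero_le _)
  intro j
  induction j with
  | zero =>
    intro p q
    by_cases h : Cr B ↑S 0 p q
    · have h1 := (hsq 0 p q).sub (S := S ∩ Qd B 0 p q) inter_subset_right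
      refine h1.mono ?_
      have e1 : X S B 0 p q = 1 := by
        unfold X
        rw [if_pos h]
      have e2 : (Qd B 0 p q).card = B ^ 2 := by
        unfold Qd
        rw [card_SQ]
        ring
      rw [e1, e2]
      omega
    · refine (hnc 0 p q h).mono ?_
      exact Nat.le_mul_of_pos_right _ (by omega)
  | succ j ih =>
    intro p q
    by_cases h : Cr B ↑S (j + 1) p q
    · have e1 : X S B (j + 1) p q = 1 + (X S B j (2 * p) (2 * q) + X S B j (2 * p + 1) (2 * q) +
          X S B j (2 * p) (2 * q + 1) + X S B j (2 * p + 1) (2 * q + 1)) := by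
        conv_lhs => unfold X
        rw [if_pos h]
      obtain ⟨b, hb⟩ : ∃ b, b = 2 ^ j * B := ⟨_, rfl⟩
      have hb' : 2 ^ (j + 1) * B = 2 * b := by rw [hb]; ring
      have hmem : ∀ (j' p q : ℕ) (m : ℤ × ℤ), m ∈ Qd B j p q ↔
          (((p * b : ℕ) : ℤ) ≤ m.1 ∧ m.1 < (((p + 1) * b : ℕ) : ℤ)) ∧
          (((q * b : ℕ) : ℤ) ≤ m.2 ∧ m.2 < (((q + 1) * b : ℕ) : ℤ)) := by
        intro _ p q m
        rw [mem_Qd, ← hb]
      have e : S ∩ Qd B (j + 1) p q =
          ((S ∩ Qd B j (2 * p) (2 * q)) ∪ (S ∩ Qd B j (2 * p + 1) (2 * q))) ∪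
          ((S ∩ Qd B j (2 * p) (2 * q + 1)) ∪ (S ∩ Qd B j (2 * p + 1) (2 * q + 1))) := by
        rw [← inter_union_distrib_left, ← inter_union_distrib_left, ← inter_union_distrib_left]
        congr 1
        ext m
        simp only [mem_union, hmem j, mem_Qd (j := j + 1), hb']
        have g1 : p * (2 * b) = 2 * p * b := by ring
        have g2 : (p + 1) * (2 * b) = 2 * p * b + 2 * b := by ring
        have g3 : (2 * p + 1) * b = 2 * p * b + b := by ring
        have g4 : (2 * p + 1 + 1) * b = 2 * p * b + 2 * b := by ring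
        have g5 : q * (2 * b) = 2 * q * b := by ring
        have g6 : (q + 1) * (2 * b) = 2 * q * b + 2 * b := by ring
        have g7 : (2 * q + 1) * b = 2 * q * b + b := by ring
        have g8 : (2 * q + 1 + 1) * b = 2 * q * b + 2 * b := by ring
        rw [g1, g2, g3, g4, g5, g6, g7, g8]
        push_cast
        constructor
        · rintro ⟨⟨h1, h2⟩, h3, h4⟩
          by_cases h5 : m.1 < 2 * (p : ℤ) * b + b
          · by_cases h6 : m.2 < 2 * (q : ℤ) * b + b
            · left; left; exact ⟨⟨h1, h5⟩, h3, h6⟩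
            · right; left; exact ⟨⟨h1, h5⟩, by omega, h4⟩
          · by_cases h6 : m.2 < 2 * (q : ℤ) * b + b
            · left; right; exact ⟨⟨by omega, h2⟩, h3, h6⟩
            · right; right; exact ⟨⟨by omega, h2⟩, by omega, h4⟩
        · have hb0 : (0 : ℤ) ≤ b := Nat.cast_nonneg _
          rintro ((⟨⟨h1, h2⟩, h3, h4⟩ | ⟨⟨h1, h2⟩, h3, h4⟩) | (⟨⟨h1, h2⟩, h3, h4⟩ |
            ⟨⟨h1, h2⟩, h3, h4⟩)) <;> refine ⟨⟨?_, ?_⟩, ?_, ?_⟩ <;> omega
      have hpos : ∀ p q, ∀ m ∈ S ∩ Qd B j p q, 0 ≤ m.1 ∧ 0 ≤ m.2 := by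
        intro p q m hm
        rw [mem_inter, mem_Qd] at hm
        exact ⟨(Nat.cast_nonneg _).trans hm.2.1.1, (Nat.cast_nonneg _).trans hm.2.2.1⟩
      have hpos2 : ∀ p q p' q', ∀ m ∈ (S ∩ Qd B j p q) ∪ (S ∩ Qd B j p' q'),
          0 ≤ m.1 ∧ 0 ≤ m.2 := by
        intro p q p' q' m hm
        rcases mem_union.1 hm with hm | hm
        · exact hpos _ _ m hm
        · exact hpos _ _ m hm
      have u1 := (ih (2 * p) (2 * q)).union (ih (2 * p + 1) (2 * q)) (hpos _ _) (hpos _ _) 1 0 (by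
        intro m hm m' hm'
        rw [mem_inter, mem_Qd] at hm hm'
        have := hm.2.1.2
        have := hm'.2.1.1
        omega)
      have u2 := (ih (2 * p) (2 * q + 1)).union (ih (2 * p + 1) (2 * q + 1)) (hpos _ _)
        (hpos _ _) 1 0 (by
        intro m hm m' hm'
        rw [mem_inter, mem_Qd] at hm hm'
        have := hm.2.1.2
        have := hm'.2.1.1
        omega)
      have u3 := u1.union u2 (hpos2 _ _ _ _) (hpos2 _ _ _ _) 0 1 (by
        intro m hm m' hm'
        have g1 : m.2 < (((2 * q + 1) * (2 ^ j * B) : ℕ) : ℤ) := by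
          rcases mem_union.1 hm with hm | hm
          · rw [mem_inter, mem_Qd] at hm
            exact hm.2.2.2
          · rw [mem_inter, mem_Qd] at hm
            exact hm.2.2.2
        have g2 : (((2 * q + 1) * (2 ^ j * B) : ℕ) : ℤ) ≤ m'.2 := by
          rcases mem_union.1 hm' with hm' | hm'
          · rw [mem_inter, mem_Qd] at hm'
            exact hm'.2.2.1
          · rw [mem_inter, mem_Qd] at hm'
            exact hm'.2.2.1
        omega)
      rw [e]
      refine u3.mono ?_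
      rw [e1]
      have hr : ∀ a b c d P : ℕ, 110 * P * (1 + 4 * a) + 110 * P * (1 + 4 * b) + P +
          (110 * P * (1 + 4 * c) + 110 * P * (1 + 4 * d) + P) + P ≤
          110 * P * (1 + 4 * (1 + (a + b + c + d))) := by
        intro a b c d P
        have h1 : 110 * P * (1 + 4 * a) + 110 * P * (1 + 4 * b) + P +
          (110 * P * (1 + 4 * c) + 110 * P * (1 + 4 * d) + P) + P =
          443 * P + 440 * (P * (a + b + c + d)) := by ring
        have h2 : 110 * P * (1 + 4 * (1 + (a + b + c + d))) =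
          550 * P + 440 * (P * (a + b + c + d)) := by ring
        omega
      exact hr _ _ _ _ _
    · refine (hnc (j + 1) p q h).mono ?_
      exact Nat.le_mul_of_pos_right _ (by omega)

/-- sums over pairs -/
theorem sum_two (f : ℕ → ℕ) (n : ℕ) :
    ∑ p ∈ range n, (f (2 * p) + f (2 * p + 1)) = ∑ p ∈ range (2 * n), f p := by
  induction n with
  | zero => rfl
  | succ n ih =>
    have e : 2 * (n + 1) = 2 * n + 1 + 1 := by ring
    rw [sum_range_succ, ih, e, sum_range_succ, sum_range_succ]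
    ring

open Classical in
theorem X_count {κ : ℕ}
    (hc : ∀ j n, ∑ p ∈ range n, ∑ q ∈ range n, (if Cr B (↑S : Set (ℤ × ℤ)) j p q then 1 else 0) ≤
      2 * κ * n) :
    ∀ j n, ∑ p ∈ range n, ∑ q ∈ range n, X S B j p q + 2 * κ * n ≤ 4 * κ * n * 2 ^ j := by
  intro j
  induction j with
  | zero =>
    intro n
    have h1 := hc 0 n
    have e : ∑ p ∈ range n, ∑ q ∈ range n, X S B 0 p q =
        ∑ p ∈ range n, ∑ q ∈ range n, (if Cr B (↑S : Set (ℤ × ℤ)) 0 p q then 1 else 0) := by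
      refine sum_congr rfl fun p _ => sum_congr rfl fun q _ => ?_
      unfold X
      rfl
    have e2 : 4 * κ * n * 2 ^ 0 = 2 * κ * n + 2 * κ * n := by ring
    rw [e, e2]
    omega
  | succ j ih =>
    intro n
    have h1 := hc (j + 1) n
    have h2 := ih (2 * n)
    have e : ∑ p ∈ range n, ∑ q ∈ range n, X S B (j + 1) p q =
        ∑ p ∈ range n, ∑ q ∈ range n, (if Cr B (↑S : Set (ℤ × ℤ)) (j + 1) p q then 1 else 0) +
        ∑ p ∈ range (2 * n), ∑ q ∈ range (2 * n), X S B j p q := by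
      rw [← sum_two]
      simp only [← sum_two (fun q => X S B j _ q)]
      rw [← sum_add_distrib]
      refine sum_congr rfl fun p _ => ?_
      rw [← sum_add_distrib, ← sum_add_distrib]
      refine sum_congr rfl fun q _ => ?_
      conv_lhs => unfold X
      ring
    have e2 : 4 * κ * n * 2 ^ (j + 1) = 4 * κ * (2 * n) * 2 ^ j := by ring
    have e3 : 2 * κ * (2 * n) = 2 * κ * n + 2 * κ * n := by ring
    rw [e, e2]
    omega

end quad

end Pool.Agent.K7.H33.BP
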