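import Pool.Agent.K7.H33.SH.Conv
import Pool.Agent.K7.H33.SH.Segre

set_option autoImplicit false

/-!
# The reduction of a nonempty linear system to a reduced class
-/

namespace Pool.Agent.K7.H33.BP.HH

open MvPolynomial Pool.Agent.W609 Pool.Agent.W609.CR Pool.Agent.K7.H33.SH

/-- The decomposition of a nonempty linear system and its reduction. -/
theorem redu {K : Type} [Field K] [CharZero K] {r : ℕ} {I : ℕ → (Fin (r + 4) → ℕ) → Prop}
    (hI1 : ∀ (d k : ℕ) (w : Fin (r + 4) → ℕ) (a b : Fin (r + 4)), a ≠ b → (∀ j, w j ≤ d) →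
      w b ≤ w a → w a + w b = d + k → 0 < k → I d w → I (d - k) (sb a b k w))
    (hI2 : ∀ (d t : ℕ) (w w' : Fin (r + 4) → ℕ) (a b c : Fin (r + 4)), a ≠ b → a ≠ c → b ≠ c →
      (∀ j, w j ≤ d) → w b ≤ w a → w c ≤ w b → (∀ j, j ≠ a → j ≠ b → w j ≤ w c) →
      w a + w b ≤ d → w a + w b + w c = d + t → 0 < t → w' a = w a - t → w' b = w b - t →
      w' c = w c - t → (∀ j, j ≠ a → j ≠ b → j ≠ c → w' j = w j) → I d w → I (d - t) w') :
    ∀ (d : ℕ) (P : Fin (r + 4) → Fin 2 → K)
      (_ : AlgebraicIndependent ℚ (fun ij : Fin (r + 4) × Fin 2 => P ij.1 ij.2))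
      (w : Fin (r + 4) → ℕ) (_ : I d w)
      (_ : 0 < Module.finrank K ↥(VS (fun j => aff (P j)) w d)),
      ∃ (d' : ℕ) (w' : Fin (r + 4) → ℕ) (k : ℕ) (C : Fin k → MvPolynomial (Fin 3) K)
        (e : Fin k → ℕ) (u : Fin k → Fin (r + 4) → ℕ) (N : Fin k → ℕ),
        Dec P d w d' w' C e u N ∧
        Module.finrank K ↥(VS (fun j => aff (P j)) w' d') =
          Module.finrank K ↥(VS (fun j => aff (P j)) w d) ∧
        ∃ (P1 : Fin (r + 4) → Fin 2 → K) (d1 : ℕ) (w1 : Fin (r + 4) → ℕ),
          AlgebraicIndependent ℚ (fun ij : Fin (r + 4) × Fin 2 => P1 ij.1 ij.2) ∧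
          Relation.ReflTransGen Quad (d', w') (d1, w1) ∧ ((∀ j, w1 j ≤ w j) ∧ d1 ≤ d ∧ I d1 w1) ∧
          Reduced d1 w1 ∧
          Module.finrank K ↥(VS (fun j => aff (P1 j)) w1 d1) =
            Module.finrank K ↥(VS (fun j => aff (P j)) w' d') := by
  classical
  have n0 : ((0 : Fin (r + 4)) : ℕ) = 0 := rfl
  have n1 : ((1 : Fin (r + 4)) : ℕ) = 1 := Nat.mod_eq_of_lt (show 1 < r + 4 by omega)
  have n2 : ((2 : Fin (r + 4)) : ℕ) = 2 := Nat.mod_eq_of_lt (show 2 < r + 4 by omega)
  intro d
  induction d using Nat.strong_induction_on with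
  | _ d ih =>
    intro P hP w hI hpos
    obtain ⟨σ, hσ⟩ := exists_sort w
    have ne01 : σ 0 ≠ σ 1 := fun h => by
      have := congrArg Fin.val (σ.injective h)
      rw [n0, n1] at this
      omega
    have h21 : w (σ 1) ≤ w (σ 0) := hσ (by rw [Fin.le_def, n1, n0]; omega)
    have h32 : w (σ 2) ≤ w (σ 1) := hσ (by rw [Fin.le_def, n1, n2]; omega)
    have hwd : ∀ j, w j ≤ d := by
      intro j
      have hf := vs_fin (fun j => aff (P j)) w d
      have h1 : Nontrivial ↥(VS (fun j => aff (P j)) w d) := Module.finrank_pos_iff.1 hpos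
      obtain ⟨⟨f, hf⟩, hf0⟩ := exists_ne (0 : ↥(VS (fun j => aff (P j)) w d))
      rw [mem_VS] at hf
      exact van_le (fun h => hf0 (Subtype.ext h)) hf.1 (hf.2 j)
    have ne02 : σ 0 ≠ σ 2 := fun h => by
      have := congrArg Fin.val (σ.injective h)
      rw [n0, n2] at this
      omega
    have ne12 : σ 1 ≠ σ 2 := fun h => by
      have := congrArg Fin.val (σ.injective h)
      rw [n1, n2] at this
      omega
    have hrest : ∀ j, j ≠ σ 0 → j ≠ σ 1 → w j ≤ w (σ 2) := by
      intro j h0 h1
      have h2 : w (σ (σ.symm j)) ≤ w (σ 2) := by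
        refine hσ ?_
        rw [Fin.le_def, n2]
        by_contra hcon
        push Not at hcon
        have h3 : ((σ.symm j : Fin (r + 4)) : ℕ) = 0 ∨ ((σ.symm j : Fin (r + 4)) : ℕ) = 1 := by
          omega
        rcases h3 with h3 | h3
        · apply h0
          have h4 : σ.symm j = 0 := Fin.ext (by rw [h3, n0])
          rw [← h4, σ.apply_symm_apply]
        · apply h1
          have h4 : σ.symm j = 1 := Fin.ext (by rw [h3, n1])
          rw [← h4, σ.apply_symm_apply]
      rw [σ.apply_symm_apply] at h2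
      exact h2
    rcases Nat.lt_or_ge d (w (σ 0) + w (σ 1)) with hline | hline
    · -- a line splits off
      obtain ⟨k, hk⟩ : ∃ k, k = w (σ 0) + w (σ 1) - d := ⟨_, rfl⟩
      have w0 := hwd (σ 0)
      have w1 := hwd (σ 1)
      have hdim := line_k hP ne01 k w d (by omega) (by omega) (by omega) (by omega)
      have hsle : ∀ j, sb (σ 0) (σ 1) k w j ≤ w j := by
        intro j
        unfold sb
        split_ifs <;> omega
      obtain ⟨d', w', n, C, e, u, N, hD, hd1, P1, d1, w1, c1, c2, c3, c4, c5⟩ :=
        ih (d - k) (by omega) P hP (sb (σ 0) (σ 1) k w)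
          (hI1 d k w _ _ ne01 hwd h21 (by omega) (by omega) hI) (by rw [← hdim]; exact hpos)
      exact ⟨d', w', n + 1, _, _, _, _,
        hD.line hP ne01 (by omega) (by omega) (by omega) (by omega) (by omega),
        hd1.trans hdim.symm, P1, d1, w1, c1, c2,
        ⟨fun j => (c3.1 j).trans (hsle j), c3.2.1.trans (Nat.sub_le _ _), c3.2.2⟩, c4, c5⟩
    · rcases Nat.lt_or_ge d (w (σ 0) + w (σ 1) + w (σ 2)) with hlt | hge
      · -- a quadratic transformation
        obtain ⟨i, hi⟩ : ∃ i : Fin 3 → Fin (r + 4), i = fun k => σ ⟨k.1, by omega⟩ := ⟨_, rfl⟩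
        have hinj : Function.Injective i := by
          intro a b hab
          rw [hi] at hab
          have h1 := σ.injective hab
          exact Fin.ext (Fin.mk.inj h1)
        have i0 : i 0 = σ 0 := by
          rw [hi]
          rfl
        have i1 : i 1 = σ 1 := by
          rw [hi]
          show σ _ = σ 1
          congr 1
        have i2 : i 2 = σ 2 := by
          rw [hi]
          show σ _ = σ 2
          congr 1
        have p : PS i d w := by
          constructor
          · rw [i0, i1]; omega
          · rw [i0, i2]; omega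
          · rw [i1, i2]; omega
        obtain ⟨P', hP', hr⟩ := exists_crel hP hinj
        have hdim := hr.dim p
        have hcdv : cd i d w = 2 * d - (w (σ 0) + w (σ 1) + w (σ 2)) := by
          unfold cd
          rw [i0, i1, i2]
        obtain ⟨t, ht⟩ : ∃ t, t = w (σ 0) + w (σ 1) + w (σ 2) - d := ⟨_, rfl⟩
        have hwle : ∀ j, wcr d i w j ≤ w j := by
          intro j
          unfold wcr
          rw [i0, i1, i2]
          split_ifs with c0 c1 c2
          · rw [c0]; omega
          · rw [c1]; omega
          · rw [c2]; omega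
          · exact le_rfl
        obtain ⟨d', w', n, C, e, u, N, hD, hd1, P1, d1, w1, c1, c2, c3, c4, c5⟩ :=
          ih (cd i d w) (by omega) P' hP' (wcr d i w) (by
            have hcd : cd i d w = d - t := by omega
            rw [hcd]
            refine hI2 d t w _ (σ 0) (σ 1) (σ 2) ne01 ne02 ne12 hwd h21 h32 hrest hline (by omega)
              (by omega) ?_ ?_ ?_ ?_ hI
            · unfold wcr
              rw [i0, i1, i2, if_pos rfl]
              omega
            · unfold wcr
              rw [i0, i1, i2, if_neg ne01.symm, if_pos rfl]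
              omega
            · unfold wcr
              rw [i0, i1, i2, if_neg ne02.symm, if_neg ne12.symm, if_pos rfl]
              omega
            · intro j q0 q1 q2
              unfold wcr
              rw [i0, i1, i2, if_neg q0, if_neg q1, if_neg q2]) (by rw [hdim]; exact hpos)
        obtain ⟨pM, C', hD'⟩ := hD.pull hP hP' hr p
        have hdM := hr.symm.dim pM
        refine ⟨_, _, n, C', _, _, N, hD', ?_, P1, d1, w1, c1, ?_,
          ⟨fun j => (c3.1 j).trans (hwle j), c3.2.1.trans (by omega), c3.2.2⟩, c4, ?_⟩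
        · rw [hdM, hd1, hdim]
        · refine Relation.ReflTransGen.head ⟨i, hinj, pM.cr hinj, ?_⟩ c2
          rw [cd_cr hinj pM, wcr_cr hinj pM]
        · rw [hdM, c5]
      · -- the reduced case
        have hred : Reduced d w := by
          intro i j k hij hik hjk
          have hw' : ∀ l, w l = (fun j => w (σ j)) (σ.symm l) := by
            intro l
            show w l = w (σ (σ.symm l))
            rw [σ.apply_symm_apply]
          rw [hw' i, hw' j, hw' k]
          refine le_trans ?_ hge
          have hij' : σ.symm i ≠ σ.symm j := fun h => hij (σ.symm.injective h)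
          have hik' : σ.symm i ≠ σ.symm k := fun h => hik (σ.symm.injective h)
          have hjk' : σ.symm j ≠ σ.symm k := fun h => hjk (σ.symm.injective h)
          exact three_sorted hσ hij' hik' hjk'
        refine ⟨d, w, 0, Fin.elim0, Fin.elim0, Fin.elim0, Fin.elim0, ?_, rfl, P, d, w, hP,
          Relation.ReflTransGen.refl, ⟨fun j => le_rfl, le_rfl, hI⟩, hred, rfl⟩
        refine ⟨fun a => a.elim0, fun a => a.elim0, fun a => a.elim0, ?_, ?_, fun a => a.elim0,
          fun C e u h => red_nef hred h⟩
        · simp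
        · intro j
          simp

end Pool.Agent.K7.H33.BP.HH
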