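import Pool.Agent.K7.H33.BP.Quad

/-! Intersections of half planes: the number of the dyadic squares crossed by the boundary. -/

set_option autoImplicit false

namespace Pool.Agent.K7.H33.BP

open Finset

section count
variable {B : ℕ}

theorem Cr_compl {R : Set (ℤ × ℤ)} {j p q : ℕ} (h : Cr B R j p q) : Cr B Rᶜ j p q :=
  ⟨h.2, by
    obtain ⟨m, h1, h2⟩ := h.1
    exact ⟨m, h1, fun h3 => h3 h2⟩⟩

/-- moving to the right and up -/
theorem Cr_pp {R : Set (ℤ × ℤ)} (hR : ∀ m m' : ℤ × ℤ, m ∈ R → m.1 ≤ m'.1 → m.2 ≤ m'.2 → m' ∈ R)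
    {j p q p' q' : ℕ} (h : Cr B R j p q) (h' : Cr B R j p' q') (hp : p < p') (hq : q < q') :
    False := by
  obtain ⟨m, h1, h2⟩ := h.1
  obtain ⟨m', h3, h4⟩ := h'.2
  rw [mem_Qd] at h1 h3
  refine h4 (hR m m' h2 ?_ ?_)
  · have h5 : (((p + 1) * (2 ^ j * B) : ℕ) : ℤ) ≤ ((p' * (2 ^ j * B) : ℕ) : ℤ) := by
      exact_mod_cast Nat.mul_le_mul_right _ hp
    linarith [h1.1.2, h3.1.1]
  · have h5 : (((q + 1) * (2 ^ j * B) : ℕ) : ℤ) ≤ ((q' * (2 ^ j * B) : ℕ) : ℤ) := by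
      exact_mod_cast Nat.mul_le_mul_right _ hq
    linarith [h1.2.2, h3.2.1]

/-- moving to the right and down -/
theorem Cr_pm {R : Set (ℤ × ℤ)} (hR : ∀ m m' : ℤ × ℤ, m ∈ R → m.1 ≤ m'.1 → m'.2 ≤ m.2 → m' ∈ R)
    {j p q p' q' : ℕ} (h : Cr B R j p q) (h' : Cr B R j p' q') (hp : p < p') (hq : q' < q) :
    False := by
  obtain ⟨m, h1, h2⟩ := h.1
  obtain ⟨m', h3, h4⟩ := h'.2
  rw [mem_Qd] at h1 h3
  refine h4 (hR m m' h2 ?_ ?_)
  · have h5 : (((p + 1) * (2 ^ j * B) : ℕ) : ℤ) ≤ ((p' * (2 ^ j * B) : ℕ) : ℤ) := by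
      exact_mod_cast Nat.mul_le_mul_right _ hp
    linarith [h1.1.2, h3.1.1]
  · have h5 : (((q' + 1) * (2 ^ j * B) : ℕ) : ℤ) ≤ ((q * (2 ^ j * B) : ℕ) : ℤ) := by
      exact_mod_cast Nat.mul_le_mul_right _ hq
    linarith [h1.2.1, h3.2.2]

open Classical in
/-- at most one crossed square on every diagonal -/
theorem count_pp {R : Set (ℤ × ℤ)}
    (hR : ∀ m m' : ℤ × ℤ, m ∈ R → m.1 ≤ m'.1 → m.2 ≤ m'.2 → m' ∈ R) (j n : ℕ) :
    ((range n ×ˢ range n).filter fun x => Cr B R j x.1 x.2).card ≤ 2 * n := by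
  rw [← card_range (2 * n)]
  refine card_le_card_of_injOn (fun x => x.1 + n - x.2) ?_ ?_
  · intro x hx
    rw [mem_coe, mem_filter, mem_product, mem_range, mem_range] at hx
    rw [mem_coe, mem_range]
    have := hx.1.1
    have := hx.1.2
    simp only
    omega
  · rintro ⟨p, q⟩ hx ⟨p', q'⟩ hy h
    rw [mem_coe, mem_filter, mem_product, mem_range, mem_range] at hx hy
    simp only at hx hy h
    obtain ⟨⟨hp, hq⟩, hc⟩ := hx
    obtain ⟨⟨hp', hq'⟩, hc'⟩ := hy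
    rcases lt_trichotomy p p' with h1 | h1 | h1
    · exact absurd (Cr_pp hR hc hc' h1 (by omega)) not_false
    · have : q = q' := by omega
      rw [h1, this]
    · exact absurd (Cr_pp hR hc' hc h1 (by omega)) not_false

open Classical in
theorem count_pm {R : Set (ℤ × ℤ)}
    (hR : ∀ m m' : ℤ × ℤ, m ∈ R → m.1 ≤ m'.1 → m'.2 ≤ m.2 → m' ∈ R) (j n : ℕ) :
    ((range n ×ˢ range n).filter fun x => Cr B R j x.1 x.2).card ≤ 2 * n := by
  rw [← card_range (2 * n)]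
  refine card_le_card_of_injOn (fun x => x.1 + x.2) ?_ ?_
  · intro x hx
    rw [mem_coe, mem_filter, mem_product, mem_range, mem_range] at hx
    rw [mem_coe, mem_range]
    have := hx.1.1
    have := hx.1.2
    simp only
    omega
  · rintro ⟨p, q⟩ hx ⟨p', q'⟩ hy h
    rw [mem_coe, mem_filter, mem_product, mem_range, mem_range] at hx hy
    simp only at hx hy h
    obtain ⟨⟨hp, hq⟩, hc⟩ := hx
    obtain ⟨⟨hp', hq'⟩, hc'⟩ := hy
    rcases lt_trichotomy p p' with h1 | h1 | h1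
    · exact absurd (Cr_pm hR hc hc' h1 (by omega)) not_false
    · have : q = q' := by omega
      rw [h1, this]
    · exact absurd (Cr_pm hR hc' hc h1 (by omega)) not_false

open Classical in
theorem count_mm {R : Set (ℤ × ℤ)}
    (hR : ∀ m m' : ℤ × ℤ, m ∈ R → m'.1 ≤ m.1 → m'.2 ≤ m.2 → m' ∈ R) (j n : ℕ) :
    ((range n ×ˢ range n).filter fun x => Cr B R j x.1 x.2).card ≤ 2 * n := by
  refine (card_le_card ?_).trans (count_pp (B := B) (R := Rᶜ) (fun m m' h1 h2 h3 h4 =>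
    h1 (hR m' m h4 h2 h3)) j n)
  intro x hx
  rw [mem_filter] at hx ⊢
  exact ⟨hx.1, Cr_compl hx.2⟩

open Classical in
theorem count_mp {R : Set (ℤ × ℤ)}
    (hR : ∀ m m' : ℤ × ℤ, m ∈ R → m'.1 ≤ m.1 → m.2 ≤ m'.2 → m' ∈ R) (j n : ℕ) :
    ((range n ×ˢ range n).filter fun x => Cr B R j x.1 x.2).card ≤ 2 * n := by
  refine (card_le_card ?_).trans (count_pm (B := B) (R := Rᶜ) (fun m m' h1 h2 h3 h4 =>
    h1 (hR m' m h4 h2 h3)) j n)
  intro x hx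
  rw [mem_filter] at hx ⊢
  exact ⟨hx.1, Cr_compl hx.2⟩

end count

/-- an intersection of half planes -/
def IsPoly (P : ℤ × ℤ → Prop) : Prop :=
  ∃ H : Set (ℤ × ℤ × ℤ), ∀ m, P m ↔ ∀ h ∈ H, h.2.2 ≤ h.1 * m.1 + h.2.1 * m.2

theorem IsPoly.true : IsPoly fun _ => True := ⟨∅, by simp⟩

theorem IsPoly.half (a b c : ℤ) : IsPoly fun m => c ≤ a * m.1 + b * m.2 :=
  ⟨{(a, b, c)}, by simp⟩

theorem IsPoly.and {P Q : ℤ × ℤ → Prop} (hP : IsPoly P) (hQ : IsPoly Q) :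
    IsPoly fun m => P m ∧ Q m := by
  obtain ⟨H, hH⟩ := hP
  obtain ⟨G, hG⟩ := hQ
  refine ⟨H ∪ G, fun m => ?_⟩
  beta_reduce
  rw [hH, hG]
  constructor
  · rintro ⟨h1, h2⟩ h (h3 | h3)
    · exact h1 h h3
    · exact h2 h h3
  · intro h1
    exact ⟨fun h h3 => h1 h (Or.inl h3), fun h h3 => h1 h (Or.inr h3)⟩

theorem IsPoly.subst {P : ℤ × ℤ → Prop} (hP : IsPoly P) (a b c d u v : ℤ) :
    IsPoly fun m => P (a * m.1 + b * m.2 + u, c * m.1 + d * m.2 + v) := by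
  obtain ⟨H, hH⟩ := hP
  refine ⟨(fun h : ℤ × ℤ × ℤ => (h.1 * a + h.2.1 * c, h.1 * b + h.2.1 * d,
    h.2.2 - h.1 * u - h.2.1 * v)) '' H, fun m => ?_⟩
  beta_reduce
  rw [hH]
  constructor
  · rintro h1 _ ⟨h, h2, rfl⟩
    have h3 := h1 h h2
    simp only at h3 ⊢
    linarith
  · intro h1 h h2
    have h3 := h1 _ ⟨h, h2, rfl⟩
    simp only at h3 ⊢
    linarith

theorem IsPoly.congr {P Q : ℤ × ℤ → Prop} (hP : IsPoly P) (h : ∀ m, Q m ↔ P m) : IsPoly Q := by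
  obtain ⟨H, hH⟩ := hP
  exact ⟨H, fun m => (h m).trans (hH m)⟩

/-- a polygon is an intersection of four monotone sets -/
theorem IsPoly.four {P : ℤ × ℤ → Prop} (hP : IsPoly P) : ∃ R1 R2 R3 R4 : Set (ℤ × ℤ),
    (∀ m, P m ↔ m ∈ R1 ∧ m ∈ R2 ∧ m ∈ R3 ∧ m ∈ R4) ∧
    (∀ m m' : ℤ × ℤ, m ∈ R1 → m.1 ≤ m'.1 → m.2 ≤ m'.2 → m' ∈ R1) ∧
    (∀ m m' : ℤ × ℤ, m ∈ R2 → m.1 ≤ m'.1 → m'.2 ≤ m.2 → m' ∈ R2) ∧
    (∀ m m' : ℤ × ℤ, m ∈ R3 → m'.1 ≤ m.1 → m.2 ≤ m'.2 → m' ∈ R3) ∧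
    (∀ m m' : ℤ × ℤ, m ∈ R4 → m'.1 ≤ m.1 → m'.2 ≤ m.2 → m' ∈ R4) := by
  obtain ⟨H, hH⟩ := hP
  refine ⟨{m | ∀ h ∈ H, 0 ≤ h.1 → 0 ≤ h.2.1 → h.2.2 ≤ h.1 * m.1 + h.2.1 * m.2},
    {m | ∀ h ∈ H, 0 ≤ h.1 → h.2.1 ≤ 0 → h.2.2 ≤ h.1 * m.1 + h.2.1 * m.2},
    {m | ∀ h ∈ H, h.1 ≤ 0 → 0 ≤ h.2.1 → h.2.2 ≤ h.1 * m.1 + h.2.1 * m.2},
    {m | ∀ h ∈ H, h.1 ≤ 0 → h.2.1 ≤ 0 → h.2.2 ≤ h.1 * m.1 + h.2.1 * m.2}, ?_, ?_, ?_, ?_, ?_⟩
  · intro m
    rw [hH]
    constructor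
    · intro h1
      exact ⟨fun h h2 _ _ => h1 h h2, fun h h2 _ _ => h1 h h2, fun h h2 _ _ => h1 h h2,
        fun h h2 _ _ => h1 h h2⟩
    · rintro ⟨h1, h2, h3, h4⟩ h hh
      rcases le_total 0 h.1 with g1 | g1
      · rcases le_total 0 h.2.1 with g2 | g2
        · exact h1 h hh g1 g2
        · exact h2 h hh g1 g2
      · rcases le_total 0 h.2.1 with g2 | g2
        · exact h3 h hh g1 g2
        · exact h4 h hh g1 g2
  · intro m m' h1 h2 h3 h hh g1 g2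
    have h4 := h1 h hh g1 g2
    have h5 := mul_le_mul_of_nonneg_left h2 g1
    have h6 := mul_le_mul_of_nonneg_left h3 g2
    linarith
  · intro m m' h1 h2 h3 h hh g1 g2
    have h4 := h1 h hh g1 g2
    have h5 := mul_le_mul_of_nonneg_left h2 g1
    have h6 := mul_le_mul_of_nonpos_left h3 g2
    linarith
  · intro m m' h1 h2 h3 h hh g1 g2
    have h4 := h1 h hh g1 g2
    have h5 := mul_le_mul_of_nonpos_left h2 g1
    have h6 := mul_le_mul_of_nonneg_left h3 g2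
    linarith
  · intro m m' h1 h2 h3 h hh g1 g2
    have h4 := h1 h hh g1 g2
    have h5 := mul_le_mul_of_nonpos_left h2 g1
    have h6 := mul_le_mul_of_nonpos_left h3 g2
    linarith

/-- **Polygons are almost exact.** -/
theorem Ap_poly {B N : ℕ} (hB : 2 ≤ B) {S : Finset (ℤ × ℤ)} {P : ℤ × ℤ → Prop} (hP : IsPoly P)
    (hS : ∀ m, m ∈ S ↔ P m) (hN : ∀ m ∈ S, (0 ≤ m.1 ∧ m.1 < N) ∧ (0 ≤ m.2 ∧ m.2 < N)) :
    Ap B S (14080 * (B * N) + 7150 * B ^ 2) := by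
  classical
  obtain ⟨R1, R2, R3, R4, hR, h1, h2, h3, h4⟩ := hP.four
  have hc : ∀ j n, ∑ p ∈ range n, ∑ q ∈ range n,
      (if Cr B (↑S : Set (ℤ × ℤ)) j p q then 1 else 0) ≤ 2 * 4 * n := by
    intro j n
    rw [← sum_product', ← card_filter]
    have hsub : ((range n ×ˢ range n).filter fun x => Cr B (↑S : Set (ℤ × ℤ)) j x.1 x.2) ⊆
        (((range n ×ˢ range n).filter fun x => Cr B R1 j x.1 x.2) ∪
          ((range n ×ˢ range n).filter fun x => Cr B R2 j x.1 x.2)) ∪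
        (((range n ×ˢ range n).filter fun x => Cr B R3 j x.1 x.2) ∪
          ((range n ×ˢ range n).filter fun x => Cr B R4 j x.1 x.2)) := by
      intro x hx
      rw [mem_filter] at hx
      obtain ⟨hx0, ⟨m, hm, hmS⟩, m', hm', hmS'⟩ := hx
      have k1 := (hR m).1 ((hS m).1 (mem_coe.1 hmS))
      have k2 : ¬ (m' ∈ R1 ∧ m' ∈ R2 ∧ m' ∈ R3 ∧ m' ∈ R4) := fun h =>
        hmS' (mem_coe.2 ((hS m').2 ((hR m').2 h)))
      simp only [mem_union, mem_filter]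
      by_cases g1 : m' ∈ R1
      · by_cases g2 : m' ∈ R2
        · by_cases g3 : m' ∈ R3
          · by_cases g4 : m' ∈ R4
            · exact absurd ⟨g1, g2, g3, g4⟩ k2
            · right; right; exact ⟨hx0, ⟨m, hm, k1.2.2.2⟩, m', hm', g4⟩
          · right; left; exact ⟨hx0, ⟨m, hm, k1.2.2.1⟩, m', hm', g3⟩
        · left; right; exact ⟨hx0, ⟨m, hm, k1.2.1⟩, m', hm', g2⟩
      · left; left; exact ⟨hx0, ⟨m, hm, k1.1⟩, m', hm', g1⟩
    have k1 := card_le_card hsub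
    have k2 := card_union_le (((range n ×ˢ range n).filter fun x => Cr B R1 j x.1 x.2) ∪
          ((range n ×ˢ range n).filter fun x => Cr B R2 j x.1 x.2))
        (((range n ×ˢ range n).filter fun x => Cr B R3 j x.1 x.2) ∪
          ((range n ×ˢ range n).filter fun x => Cr B R4 j x.1 x.2))
    have k3 := card_union_le ((range n ×ˢ range n).filter fun x => Cr B R1 j x.1 x.2)
          ((range n ×ˢ range n).filter fun x => Cr B R2 j x.1 x.2)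
    have k4 := card_union_le ((range n ×ˢ range n).filter fun x => Cr B R3 j x.1 x.2)
          ((range n ×ˢ range n).filter fun x => Cr B R4 j x.1 x.2)
    have k5 := count_pp (B := B) h1 j n
    have k6 := count_pm (B := B) h2 j n
    have k7 := count_mp (B := B) h3 j n
    have k8 := count_mm (B := B) h4 j n
    omega
  -- the level
  have hex : ∃ j, N ≤ 2 ^ j * B := by
    refine ⟨N, ?_⟩
    have h5 : N < 2 ^ N := Nat.lt_two_pow_self
    have h6 : 2 ^ N * 1 ≤ 2 ^ N * B := Nat.mul_le_mul_left _ (by omega)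
    omega
  obtain ⟨j, hj, hjm⟩ : ∃ j, N ≤ 2 ^ j * B ∧ 2 ^ j * B ≤ 2 * N + B := by
    refine ⟨Nat.find hex, Nat.find_spec hex, ?_⟩
    rcases Nat.eq_zero_or_pos (Nat.find hex) with h0 | h0
    · rw [h0]
      omega
    · have h5 := Nat.find_min hex (m := Nat.find hex - 1) (by omega)
      push Not at h5
      have h6 : 2 ^ (Nat.find hex) * B = 2 * (2 ^ (Nat.find hex - 1) * B) := by
        have : Nat.find hex = Nat.find hex - 1 + 1 := by omega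
        conv_lhs => rw [this]
        rw [pow_succ]
        ring
      omega
  have hX := X_count (S := S) (B := B) (κ := 4) hc j 1
  rw [sum_range_one, sum_range_one] at hX
  have h5 := quad (S := S) hB j 0 0
  have e : S ∩ Qd B j 0 0 = S := by
    rw [inter_eq_left]
    intro m hm
    have := hN m hm
    rw [mem_Qd]
    have h6 : (N : ℤ) ≤ ((2 ^ j * B : ℕ) : ℤ) := by exact_mod_cast hj
    rw [zero_add, one_mul, zero_mul]
    refine ⟨⟨?_, ?_⟩, ?_, ?_⟩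
    · simpa using this.1.1
    · linarith [this.1.2]
    · simpa using this.2.1
    · linarith [this.2.2]
  rw [e] at h5
  refine h5.mono ?_
  have h6 : 110 * B ^ 2 * (1 + 4 * X S B j 0 0) ≤ 110 * B ^ 2 * (1 + 64 * 2 ^ j) :=
    Nat.mul_le_mul_left _ (by omega)
  have h7 : 110 * B ^ 2 * (1 + 64 * 2 ^ j) = 110 * B ^ 2 + 7040 * (B * (2 ^ j * B)) := by ring
  have h8 : B * (2 ^ j * B) ≤ B * (2 * N + B) := Nat.mul_le_mul_left _ hjm
  have h9 : B * (2 * N + B) = 2 * (B * N) + B ^ 2 := by ring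
  omega

end Pool.Agent.K7.H33.BP
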