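import Pool.Agent.K7.H33.BP.Base

/-! Triangles and squares of exponents. -/

set_option autoImplicit false

namespace Pool.Agent.K7.H33.BP

open Pool.Agent.TH2

open Finset Pool.Agent.TH176.Nag Pool.Agent.TH603.Sur Pool.Agent.TH2.NU
open Pool.Agent.Y205.MD Pool.Agent.Y205.FW Pool.Agent.Y205.AV

open Pool.Agent.TH387.SH (TF coe_TF card_TF)

theorem two_card_TF (d : ℕ) : 2 * (TF d).card = (d + 1) * (d + 2) := by
  rw [card_TF]
  exact Pool.Agent.TH2.NU.two_choose (d + 1)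

theorem cond_vec (M : Multiset ℕ) : cond (vec M) = NU.condM M := by
  unfold Pool.Agent.TH603.Sur.cond Pool.Agent.TH2.NU.condM
  exact sum_vec M fun x => (x + 1).choose 2

theorem mem_TF {d : ℕ} {m : ℤ × ℤ} : m ∈ TF d ↔ 0 ≤ m.1 ∧ 0 ≤ m.2 ∧ m.1 + m.2 ≤ d := by
  rw [← mem_coe, coe_TF]
  rfl

/-- a triangle -/
theorem Ap.tri {B : ℕ} (hB : 1 ≤ B) (t : ℕ) : Ap B (TF t) (52 * B ^ 2) := by
  have hNod : StNodes := Pool.Agent.Y901.FW.nodes
  refine ⟨fun M hM => ?_, fun M hM h => ?_⟩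
  · rw [two_card_TF]
    exact crkM_arb hM hB
  · rw [two_card_TF] at h
    have h1 : SurM M (TZ t) := SurM_arb hNod hM hB (by omega)
    have h2 : crk (TF t) (vec M) + cond (vec M) ≤ (TF t).card :=
      crk_of_Sur (by rw [coe_TF]; exact h1)
    rw [cond_vec] at h2
    exact h2

/-- a square -/
noncomputable def SQ (p q : ℤ) (s : ℕ) : Finset (ℤ × ℤ) :=
  Finset.Ico p (p + s) ×ˢ Finset.Ico q (q + s)

theorem mem_SQ {p q : ℤ} {s : ℕ} {m : ℤ × ℤ} :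
    m ∈ SQ p q s ↔ (p ≤ m.1 ∧ m.1 < p + s) ∧ (q ≤ m.2 ∧ m.2 < q + s) := by
  unfold SQ
  rw [mem_product, mem_Ico, mem_Ico]

theorem card_SQ (p q : ℤ) (s : ℕ) : (SQ p q s).card = s ^ 2 := by
  unfold SQ
  rw [card_product, Int.card_Ico, Int.card_Ico]
  have e1 : (p + (s : ℤ) - p).toNat = s := by omega
  have e2 : (q + (s : ℤ) - q).toNat = s := by omega
  rw [e1, e2, sq]

theorem Ap.sq0 {B : ℕ} (hB : 1 ≤ B) (s : ℕ) : Ap B (SQ 0 0 (s + 2)) (105 * B ^ 2) := by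
  classical
  have e : SQ 0 0 (s + 2) = TF (s + 1) ∪ (SQ 0 0 (s + 2)).filter fun m => ((s : ℤ) + 2 ≤ m.1 + m.2) := by
    ext m
    rw [mem_union, mem_filter, mem_TF, mem_SQ]
    push_cast
    constructor
    · rintro ⟨⟨h1, h2⟩, h3, h4⟩
      by_cases h : (s : ℤ) + 2 ≤ m.1 + m.2
      · right; refine ⟨⟨⟨?_, ?_⟩, ?_, ?_⟩, ?_⟩ <;> omega
      · left; refine ⟨?_, ?_, ?_⟩ <;> omega
    · rintro (⟨h1, h2, h3⟩ | ⟨⟨⟨h1, h2⟩, h3, h4⟩, h5⟩)
      · refine ⟨⟨?_, ?_⟩, ?_, ?_⟩ <;> omega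
      · refine ⟨⟨?_, ?_⟩, ?_, ?_⟩ <;> omega
  have hdis : Disjoint (TF (s + 1))
      ((SQ 0 0 (s + 2)).filter fun m => ((s : ℤ) + 2 ≤ m.1 + m.2)) := by
    rw [disjoint_left]
    intro m h1 h2
    rw [mem_TF] at h1
    rw [mem_filter] at h2
    push_cast at h1
    omega
  have hcard : ((SQ 0 0 (s + 2)).filter fun m => ((s : ℤ) + 2 ≤ m.1 + m.2)).card = (TF s).card := by
    have h1 := card_union_of_disjoint hdis
    rw [← e, card_SQ] at h1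
    have h2 := two_card_TF (s + 1)
    have h3 := two_card_TF s
    have h4 : 2 * (s + 2) ^ 2 = (s + 1 + 1) * (s + 1 + 2) + (s + 1) * (s + 2) := by ring
    omega
  have h2 : Ap B ((SQ 0 0 (s + 2)).filter fun m => ((s : ℤ) + 2 ≤ m.1 + m.2)) (52 * B ^ 2) := by
    refine (Ap.tri hB s).map (-1) 0 0 (-1) (s + 1) (s + 1) (by norm_num) ?_ hcard
    intro m hm
    rw [mem_filter, mem_SQ] at hm
    rw [mem_TF]
    push_cast at hm
    obtain ⟨⟨⟨h1, h2⟩, h3, h4⟩, h5⟩ := hm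
    refine ⟨?_, ?_, ?_⟩
    · simp only; omega
    · simp only; omega
    · simp only; omega
  rw [e]
  refine ((Ap.tri hB (s + 1)).union h2 ?_ ?_ 1 1 ?_).mono (by omega)
  · intro m hm
    rw [mem_TF] at hm
    exact ⟨hm.1, hm.2.1⟩
  · intro m hm
    rw [mem_filter, mem_SQ] at hm
    exact ⟨hm.1.1.1, hm.1.2.1⟩
  · intro m hm m' hm'
    rw [mem_TF] at hm
    rw [mem_filter] at hm'
    have h1 := hm.2.2
    have h2 := hm'.2
    push_cast at h1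
    omega

theorem Ap.square {B : ℕ} (hB : 1 ≤ B) (p q : ℤ) {s : ℕ} (hs : 2 ≤ s) :
    Ap B (SQ p q s) (105 * B ^ 2) := by
  obtain ⟨t, rfl⟩ : ∃ t, s = t + 2 := ⟨s - 2, by omega⟩
  refine (Ap.sq0 hB t).map 1 0 0 1 (-p) (-q) (by norm_num) ?_ (by rw [card_SQ, card_SQ])
  intro m hm
  rw [mem_SQ] at hm ⊢
  obtain ⟨⟨h1, h2⟩, h3, h4⟩ := hm
  refine ⟨⟨?_, ?_⟩, ?_, ?_⟩
  · simp only; omega
  · simp only; omega
  · simp only; omega
  · simp only; omega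

end Pool.Agent.K7.H33.BP
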