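import Pool.Agent.K7.H33.BP.Strips
import Pool.Agent.K7.H33.BP.Chains

/-! At most `s ^ 2` large points: general points of the plane. -/

set_option autoImplicit false

namespace Pool.Agent.K7.H33.BP

open Pool.Agent.TH2

open Finset Pool.Agent.TH176.Nag Pool.Agent.TH603.Sur Pool.Agent.TH2.NU H932R3
open Pool.Agent.Y205.MD Pool.Agent.Y205.FW Pool.Agent.Y205.AV
open Pool.Agent.TH387.SH (TF coe_TF card_TF)

/-- The points of `J` are at most `s ^ 2`, and the sum of the multiplicities of at most `s` of them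
is at most `d + 2 - s`. -/
def SqStd {n : ℕ} (m : Fin n → ℕ) (d s : ℕ) (J : Finset (Fin n)) : Prop :=
  J.card ≤ s ^ 2 ∧ ∀ K ⊆ J, K.card ≤ s → ∑ i ∈ K, m i + s ≤ d + 2

theorem sq_list {n : ℕ} {m : Fin n → ℕ} {d s : ℕ} {J : Finset (Fin n)} (h : SqStd m d s J) :
    ∃ (a : ℕ → ℕ) (k : ℕ), Antitone a ∧ ∑ i ∈ range s, a i + s ≤ d + 2 ∧
      J.val.map m + Multiset.replicate k 0 = (Multiset.range (s ^ 2)).map a := by
  classical
  obtain ⟨h9, h3⟩ := h
  obtain ⟨l, hl⟩ : ∃ l, l = J.toList.mergeSort (fun i j => decide (m j ≤ m i)) := ⟨_, rfl⟩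
  have hperm : l.Perm J.toList := by
    rw [hl]
    exact List.mergeSort_perm _ _
  have hsort : l.Pairwise (fun i j => m j ≤ m i) := by
    have := List.pairwise_mergeSort (le := fun i j => decide (m j ≤ m i)) (by
      intro a b c h1 h2
      simp only [decide_eq_true_eq] at *
      omega) (by
      intro a b
      simp only [Bool.or_eq_true, decide_eq_true_eq]
      omega) J.toList
    rw [← hl] at this
    simpa using this
  have hlen : l.length ≤ s ^ 2 := by
    rw [hperm.length_eq, Finset.length_toList]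
    exact h9
  have hcoe : (↑(l.map m) : Multiset ℕ) = J.val.map m := by
    rw [← Multiset.map_coe, Multiset.coe_eq_coe.2 hperm, Finset.coe_toList]
  have htake : ((l.take s).map m).sum + s ≤ d + 2 := by
    have hnd : l.Nodup := hperm.nodup_iff.2 (Finset.nodup_toList J)
    have hnd3 : (l.take s).Nodup := hnd.sublist (List.take_sublist s l)
    have h4 := h3 (l.take s).toFinset (fun x hx => by
      rw [List.mem_toFinset] at hx
      have := (List.take_subset s l) hx
      rw [hperm.mem_iff, Finset.mem_toList] at this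
      exact this) ((List.toFinset_card_le _).trans (by
        rw [List.length_take]
        omega))
    rw [List.sum_toFinset _ hnd3] at h4
    exact h4
  obtain ⟨L, hL⟩ : ∃ L, L = l.map m ++ List.replicate (s ^ 2 - l.length) 0 := ⟨_, rfl⟩
  have hLlen : L.length = s ^ 2 := by
    rw [hL, List.length_append, List.length_map, List.length_replicate]
    omega
  have hLs : L.Pairwise (fun a b => b ≤ a) := by
    rw [hL, List.pairwise_append]
    refine ⟨?_, ?_, ?_⟩
    · rw [List.pairwise_map]
      exact hsort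
    · rw [List.pairwise_replicate]
      exact Or.inr le_rfl
    · intro a _ b hb
      rw [List.eq_of_mem_replicate hb]
      exact Nat.zero_le _
  have hL3 : (L.take s).sum + s ≤ d + 2 := by
    rw [hL, List.take_append, List.sum_append, List.take_replicate, List.sum_replicate,
      ← List.map_take, smul_zero, add_zero]
    exact htake
  have hLm : (↑L : Multiset ℕ) = J.val.map m + Multiset.replicate (s ^ 2 - l.length) 0 := by
    rw [hL, ← Multiset.coe_add, hcoe, Multiset.coe_replicate]
  have hss : s ≤ s ^ 2 := by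
    rcases Nat.eq_zero_or_pos s with h0 | h0
    · rw [h0]; norm_num
    · rw [pow_two]
      exact Nat.le_mul_of_pos_left s h0
  have htk : ∀ k, k ≤ s ^ 2 → (List.range k).map (fun i => L.getD i 0) = L.take k := by
    intro k hk
    apply List.ext_getElem
    · rw [List.length_map, List.length_range, List.length_take, hLlen]
      omega
    · intro i h1 h2
      rw [List.length_take, hLlen] at h2
      rw [List.getElem_map, List.getElem_range, List.getElem_take,
        List.getD_eq_getElem _ _ (by omega)]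
  refine ⟨fun i => L.getD i 0, s ^ 2 - l.length, ?_, ?_, ?_⟩
  · intro i j hij
    rcases hij.eq_or_lt with rfl | hij
    · exact le_rfl
    · by_cases hj : j < L.length
      · simp only
        rw [List.getD_eq_getElem _ _ hj, List.getD_eq_getElem _ _ (hij.trans hj)]
        exact List.pairwise_iff_getElem.1 hLs i j (hij.trans hj) hj hij
      · simp only
        rw [List.getD_eq_default _ _ (by omega)]
        exact Nat.zero_le _
  · have e : ∑ i ∈ range s, L.getD i 0 = (L.take s).sum := by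
      rw [← htk s hss]
      rfl
    rw [e]
    exact hL3
  · rw [← hLm]
    have e : (Multiset.range (s ^ 2)).map (fun i => L.getD i 0) =
        (↑((List.range (s ^ 2)).map (fun i => L.getD i 0)) : Multiset ℕ) := rfl
    rw [e, htk _ le_rfl, List.take_of_length_le (by omega)]

/-- **At most `s ^ 2` large points and arbitrary small points.** -/
theorem dec_sq {n : ℕ} {w : Fin n → ℕ} {I : Finset (Fin n)} {d μ s : ℕ}
    (hI : SqStd w d s I) (hμ : ∀ i, i ∉ I → w i ≤ μ)
    (h : 4000000 * (s ^ 2 + 1) * ((μ + 1) * (d + μ + 2)) ≤ ∑ i ∈ Iᶜ, w i + 2 * gap w d) :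
    ((d + 1) * (d + 2) ≤ ∑ p, w p * (w p + 1) → Emp w (TZ d)) ∧
      (∑ p, w p * (w p + 1) ≤ (d + 1) * (d + 2) → Sur w (TZ d)) := by
  classical
  obtain ⟨a, k, q1, q2, hMk⟩ := sq_list hI
  obtain ⟨M, hM⟩ : ∃ M, M = I.val.map w := ⟨_, rfl⟩
  obtain ⟨W0, hW0⟩ : ∃ W0, W0 = (Iᶜ).val.map w := ⟨_, rfl⟩
  obtain ⟨W, hW⟩ : ∃ W, W = W0.filter fun v => v ≠ 0 := ⟨_, rfl⟩
  have hall : ∀ t : ℕ → ℕ, ∑ p, t (w p) = ((M + W0).map t).sum := by
    intro t
    rw [Multiset.map_add, Multiset.sum_add, hM, hW0, Multiset.map_map, Multiset.map_map,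
      ← sum_add_sum_compl I]
    rfl
  have hfil : ∀ t : ℕ → ℕ, t 0 = 0 → (W0.map t).sum = (W.map t).sum := by
    intro t ht
    rw [hW]
    clear hW hall hW0
    induction W0 using Multiset.induction_on with
    | empty => simp
    | cons a W0 ih =>
      by_cases ha : a = 0
      · subst ha
        rw [Multiset.filter_cons_of_neg _ (by simp), Multiset.map_cons, Multiset.sum_cons, ht,
          zero_add, ih]
      · rw [Multiset.filter_cons_of_pos _ (by simpa using ha), Multiset.map_cons,
          Multiset.sum_cons, Multiset.map_cons, Multiset.sum_cons, ih]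
  have hsum0 : ∑ i ∈ Iᶜ, w i = W.sum := by
    have h1 := hfil (fun x => x) rfl
    rw [Multiset.map_id', Multiset.map_id'] at h1
    rw [← h1, hW0]
    rfl
  have hcond : cond w = NU.condM (M + W) := by
    have h1 := hall fun x => (x + 1).choose 2
    have h2 := hfil (fun x => (x + 1).choose 2) (by norm_num)
    unfold Pool.Agent.TH603.Sur.cond Pool.Agent.TH2.NU.condM
    rw [h1, Multiset.map_add, Multiset.sum_add, h2, Multiset.map_add, Multiset.sum_add]
  have hc2 := two_sum w
  have hcw : cond w = ∑ p, (w p + 1).choose 2 := rfl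
  have hWμ : ∀ v ∈ W, 1 ≤ v ∧ v ≤ μ := by
    intro v hv
    rw [hW, Multiset.mem_filter, hW0, Multiset.mem_map] at hv
    obtain ⟨⟨i, hi, rfl⟩, h2⟩ := hv
    exact ⟨by omega, hμ i (mem_compl.1 hi)⟩
  rw [← hM] at hMk
  have hck : NU.condM (M + Multiset.replicate k 0) = NU.condM M := by
    rw [condM_add]
    have : NU.condM (Multiset.replicate k 0) = 0 := by
      unfold Pool.Agent.TH2.NU.condM
      rw [Multiset.map_replicate, Multiset.sum_replicate]
      norm_num
    omega
  have hadd : NU.condM (M + W) = NU.condM M + NU.condM W := condM_add _ _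
  have key : crkM (TF d) (M + Multiset.replicate k 0 + W) ≤
      (TF d).card - (NU.condM (M + Multiset.replicate k 0) + NU.condM W) := by
    refine mainSq (μ := μ) (δ := gap w d) q1 q2 hWμ hMk ?_ ?_
    · rw [hck]
      unfold gap
      omega
    · rw [← hsum0]
      exact h
  have hzero : crkM (TF d) (M + W) ≤ crkM (TF d) (M + Multiset.replicate k 0 + W) := by
    have := crkM_zeros (S := TF d) k (M + W)
    rw [add_right_comm] at this
    exact this
  have hex : Ex (TF d) w := by
    unfold Ex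
    rw [← crkM_eq hall, hcond, hadd, ← hck]
    refine le_trans ?_ (hzero.trans key)
    rw [hW]
    refine crkM_filter (fun m hm => ?_) _ _
    rw [mem_TF] at hm
    exact ⟨hm.1, hm.2.1⟩
  have hTF := two_card_TF d
  constructor
  · intro hle
    have hE : Emp w (↑(TF d) : Set (ℤ × ℤ)) := Emp_of_Ex hex (by omega)
    rw [coe_TF] at hE
    exact hE
  · intro hle
    have hS : Sur w (↑(TF d) : Set (ℤ × ℤ)) := Sur_of_Ex hex (by omega)
    rw [coe_TF] at hS
    exact hS

/-- for general points -/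
theorem sq_points {n : ℕ} (w : Fin n → ℕ) :
    ∃ F : MvPolynomial (Fin n × Fin 2) ℚ, F ≠ 0 ∧ ∀ {L : Type} [Field L] [CharZero L]
      (P : Fin n → Fin 2 → L), MvPolynomial.aeval (fun ij : Fin n × Fin 2 => P ij.1 ij.2) F ≠ 0 →
      ∀ (d μ s : ℕ) (I : Finset (Fin n)), SqStd w d s I → (∀ i, i ∉ I → w i ≤ μ) →
        4000000 * (s ^ 2 + 1) * ((μ + 1) * (d + μ + 2)) ≤ ∑ i ∈ Iᶜ, w i + 2 * gap w d →
        ExpDim L w P d := by
  obtain ⟨F, h1, h2⟩ := expDim_two (w := w)
    (A := fun d => (d + 1) * (d + 2) ≤ ∑ p, w p * (w p + 1) ∧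
      ∃ (μ s : ℕ) (I : Finset (Fin n)), SqStd w d s I ∧ (∀ i, i ∉ I → w i ≤ μ) ∧
        4000000 * (s ^ 2 + 1) * ((μ + 1) * (d + μ + 2)) ≤ ∑ i ∈ Iᶜ, w i + 2 * gap w d)
    (B := fun d => ∑ p, w p * (w p + 1) ≤ (d + 1) * (d + 2) ∧
      ∃ (μ s : ℕ) (I : Finset (Fin n)), SqStd w d s I ∧ (∀ i, i ∉ I → w i ≤ μ) ∧
        4000000 * (s ^ 2 + 1) * ((μ + 1) * (d + μ + 2)) ≤ ∑ i ∈ Iᶜ, w i + 2 * gap w d)
    (N := ∑ p, w p * (w p + 1))
    (fun d hd => by
      have h := hd.1
      have e : (d + 1) * (d + 2) = d * d + 3 * d + 2 := by ring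
      omega)
    (fun d hd => by
      obtain ⟨h, μ, s, I, hI, hμ, hd⟩ := hd
      exact (dec_sq hI hμ hd).1 h)
    (fun d hd => by
      obtain ⟨h, μ, s, I, hI, hμ, hd⟩ := hd
      exact (dec_sq hI hμ hd).2 h)
  refine ⟨F, h1, fun {L} _ _ P hP d μ s I hI hμ hd => h2 P hP d ?_⟩
  rcases le_total ((d + 1) * (d + 2)) (∑ p, w p * (w p + 1)) with h | h
  · exact Or.inl ⟨h, μ, s, I, hI, hμ, hd⟩
  · exact Or.inr ⟨h, μ, s, I, hI, hμ, hd⟩

end Pool.Agent.K7.H33.BP
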