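import Pool.Agent.K7.H33.BP.Big

/-! Packing at most `s ^ 2` large points into horizontal strips. -/

set_option autoImplicit false

namespace Pool.Agent.K7.H33.BP

open Pool.Agent.TH2

open Finset Pool.Agent.TH176.Nag Pool.Agent.TH603.Sur Pool.Agent.TH2.NU
open Pool.Agent.Y205.MD Pool.Agent.Y205.FW Pool.Agent.Y205.AV
open Pool.Agent.TH387.SH (TF coe_TF card_TF)

theorem ApM.congr {B d E : ℕ} {P Q : ℤ × ℤ → Prop} {M : Multiset ℕ} (h : ApM B (Z d P) M E)
    (hPQ : ∀ m : ℤ × ℤ, 0 ≤ m.1 → 0 ≤ m.2 → m.1 + m.2 ≤ d → (P m ↔ Q m)) : ApM B (Z d Q) M E := by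
  have e : Z d P = Z d Q := by
    ext m
    rw [mem_Z, mem_Z]
    constructor
    · rintro ⟨h1, h2⟩
      exact ⟨h1, (hPQ m h1.1 h1.2.1 h1.2.2).1 h2⟩
    · rintro ⟨h1, h2⟩
      exact ⟨h1, (hPQ m h1.1 h1.2.1 h1.2.2).2 h2⟩
  rw [← e]
  exact h

/-- the part `x ≥ a`, `b ≤ y < b + h` -/
def St (a b h : ℕ) (m : ℤ × ℤ) : Prop := (a : ℤ) ≤ m.1 ∧ (b : ℤ) ≤ m.2 ∧ m.2 < b + h

/-- the first upward triangle, the next downward triangle, and the rest -/
theorem st_step {B d a b h u w E : ℕ} {M : Multiset ℕ} (hB : 2 ≤ B) (hu : u ≤ h) (hw : w ≤ u)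
    (hd : a + b + u + w ≤ d + 1) (hd' : a + b + u ≤ d + 1) (hr : ApM B (Z d (St (a + u + 1) b h)) M E) :
    ApM B (Z d (St a b h)) ({u} + ({w} + M))
      (E + (14080 * (B * (d + 1)) + 7150 * B ^ 2) + 3 * B ^ 2) := by
  have key := ApM.split (B := B) (d := d) (P := St a b h) 1 1 (a + b + u)
    (ApM.up (u := u) a b (by omega) (by omega) (by omega) (by
        intro m h1 h2 h3
        unfold St
        omega))
    (ApM.split 1 0 (a + u + 1)
      (ApM.split 0 1 (b + w) (ApM.down (u := w) (a + u) (b + w - 1) (by omega) (by omega) (by omega)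
          (by
            intro m h1 h2 h3
            unfold St
            omega))
        (ApM.congr (ApM.poly hB (((((IsPoly.half 1 0 a).and (IsPoly.half 0 1 b)).and
          (IsPoly.lt 0 1 (b + h))).and (IsPoly.half 1 1 (a + b + u))).and ((IsPoly.lt 1 0 (a + u + 1)).and
          (IsPoly.half 0 1 (b + w))))) (by
            intro m h1 h2 h3
            unfold St
            constructor
            · rintro ⟨⟨⟨⟨q1, q2⟩, q3⟩, q4⟩, q5, q6⟩
              refine ⟨⟨⟨⟨?_, ?_, ?_⟩, ?_⟩, ?_⟩, ?_⟩ <;> linarith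
            · rintro ⟨⟨⟨⟨q1, q2, q3⟩, q4⟩, q5⟩, q6⟩
              refine ⟨⟨⟨⟨?_, ?_⟩, ?_⟩, ?_⟩, ?_, ?_⟩ <;> linarith)))
      (ApM.congr hr (by
        intro m h1 h2 h3
        unfold St
        push_cast
        constructor
        · rintro ⟨q1, q2, q3⟩
          refine ⟨⟨⟨?_, ?_, ?_⟩, ?_⟩, ?_⟩ <;> linarith
        · rintro ⟨⟨⟨q1, q2, q3⟩, q4⟩, q5⟩
          refine ⟨?_, ?_, ?_⟩ <;> linarith)))
  rw [add_zero] at key
  exact key.mono (by omega)

/-- a strip: `s + 1` upward and `s` downward triangles -/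
theorem strip {B d b h t : ℕ} (hB : 2 ≤ B) : ∀ (s : ℕ) (u w : ℕ → ℕ) (a : ℕ),
    (∀ i, i ≤ s → u i ≤ h ∧ t ≤ u i) → (∀ i, w i ≤ t) →
    a + b + ∑ i ∈ range (s + 1), u i + (s + 1) ≤ d + 2 →
    ApM B (Z d (St a b h)) ((Multiset.range (s + 1)).map u + (Multiset.range s).map w)
      ((s + 1) * (14080 * (B * (d + 1)) + 7150 * B ^ 2) + (3 * s + 1) * B ^ 2) := by
  intro s
  induction s with
  | zero =>
    intro u w a hu hw hd
    have hu0 := hu 0 le_rfl
    rw [zero_add, sum_range_one] at hd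
    have key := ApM.split (B := B) (d := d) (P := St a b h) 1 1 (a + b + u 0)
      (ApM.up (u := u 0) a b (by omega) (by omega) (by omega) (by
          intro m h1 h2 h3
          unfold St
          omega))
      (ApM.congr (ApM.poly hB ((((IsPoly.half 1 0 a).and (IsPoly.half 0 1 b)).and
          (IsPoly.lt 0 1 (b + h))).and (IsPoly.half 1 1 (a + b + u 0)))) (by
            intro m h1 h2 h3
            unfold St
            constructor
            · rintro ⟨⟨⟨q1, q2⟩, q3⟩, q4⟩
              refine ⟨⟨?_, ?_, ?_⟩, ?_⟩ <;> linarith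
            · rintro ⟨⟨q1, q2, q3⟩, q4⟩
              refine ⟨⟨⟨?_, ?_⟩, ?_⟩, ?_⟩ <;> linarith))
    rw [add_zero] at key
    have e : (Multiset.range (0 + 1)).map u + (Multiset.range 0).map w = {u 0} := by
      simp
    rw [e]
    exact key.mono (by omega)
  | succ s ih =>
    intro u w a hu hw hd
    have hu0 := hu 0 (Nat.zero_le _)
    have hu1 := hu 1 (by omega)
    have hw0 := hw 0
    have hsum : ∑ i ∈ range (s + 1 + 1), u i = ∑ i ∈ range (s + 1), u (i + 1) + u 0 :=
      sum_range_succ' _ _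
    have hsum1 : u 1 ≤ ∑ i ∈ range (s + 1), u (i + 1) :=
      single_le_sum (f := fun i => u (i + 1)) (fun i _ => Nat.zero_le _)
        (mem_range.2 (Nat.succ_pos s))
    rw [hsum] at hd
    have h1 := ih (fun i => u (i + 1)) (fun i => w (i + 1)) (a + u 0 + 1)
      (fun i hi => hu (i + 1) (by omega)) (fun i => hw _) (by omega)
    have h2 := st_step (u := u 0) (w := w 0) hB hu0.1 (by omega) (by omega) (by omega) h1
    have e1 : ∀ (k : ℕ) (f : ℕ → ℕ), (Multiset.range (k + 1)).map f =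
        {f 0} + (Multiset.range k).map fun i => f (i + 1) := by
      intro k f
      rw [add_comm k 1, Multiset.range_add, Multiset.map_add, Multiset.map_map]
      have : (Multiset.range 1).map f = {f 0} := by simp
      rw [this]
      congr 1
      exact Multiset.map_congr rfl fun i _ => by
        simp only [Function.comp_apply]
        rw [add_comm]
    rw [e1 (s + 1) u, e1 s w]
    have e2 : {u 0} + (Multiset.range (s + 1)).map (fun i => u (i + 1)) +
        ({w 0} + (Multiset.range s).map fun i => w (i + 1)) =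
        {u 0} + ({w 0} + ((Multiset.range (s + 1)).map (fun i => u (i + 1)) +
          (Multiset.range s).map fun i => w (i + 1))) := by
      abel
    rw [e2]
    refine h2.mono (le_of_eq ?_)
    ring

/-- all strips -/
theorem strips {B d : ℕ} (hB : 2 ≤ B) : ∀ (s : ℕ) (m : ℕ → ℕ) (b : ℕ), Antitone m →
    b + ∑ i ∈ range s, m i + s ≤ d + 2 →
    ApM B (Z d fun p => (b : ℤ) ≤ p.2) ((Multiset.range (s ^ 2)).map m)
      ((s ^ 2 + 1) * (14080 * (B * (d + 1)) + 7152 * B ^ 2)) := by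
  intro s
  induction s with
  | zero =>
    intro m b hm hd
    have e : (Multiset.range (0 ^ 2)).map m = 0 := by simp
    rw [e]
    refine (ApM.congr (ApM.poly hB (IsPoly.half 0 1 b)) (by
      intro m h1 h2 h3
      constructor <;> intro q <;> linarith)).mono ?_
    have : 7150 * B ^ 2 ≤ 7152 * B ^ 2 := Nat.mul_le_mul_right _ (by norm_num)
    omega
  | succ s ih =>
    intro m b hm hd
    have h1 := strip (d := d) (b := b) (h := m 0) (t := m s) hB s m (fun i => m (i + (s + 1))) 0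
      (fun i hi => ⟨hm (Nat.zero_le _), hm hi⟩) (fun i => hm (by omega)) (by omega)
    have hlow : ∑ i ∈ range s, m (i + (2 * s + 1)) ≤ ∑ i ∈ range s, m (i + 1) :=
      sum_le_sum fun i _ => hm (by omega)
    have hsum : ∑ i ∈ range (s + 1), m i = ∑ i ∈ range s, m (i + 1) + m 0 := sum_range_succ' _ _
    have h2 := ih (fun i => m (i + (2 * s + 1))) (b + m 0)
      (fun i j hij => hm (by omega)) (by omega)
    have key := ApM.split (B := B) (d := d) (P := fun p => (b : ℤ) ≤ p.2) 0 1 (b + m 0)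
      (ApM.congr h1 (by
        intro m h1 h2 h3
        unfold St
        push_cast
        constructor
        · rintro ⟨q1, q2, q3⟩
          refine ⟨?_, ?_⟩ <;> linarith
        · rintro ⟨q1, q2⟩
          refine ⟨?_, ?_, ?_⟩ <;> linarith))
      (ApM.congr h2 (by
        intro m h1 h2 h3
        push_cast
        constructor
        · intro q1
          refine ⟨?_, ?_⟩
          · have : (0 : ℤ) ≤ (b : ℤ) := Nat.cast_nonneg _
            omega
          · linarith
        · rintro ⟨q1, q2⟩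
          linarith))
    have e : (Multiset.range ((s + 1) ^ 2)).map m =
        (Multiset.range (s + 1)).map m + (Multiset.range s).map (fun i => m (i + (s + 1))) +
          (Multiset.range (s ^ 2)).map fun i => m (i + (2 * s + 1)) := by
      have e1 : (s + 1) ^ 2 = (s + 1) + s + s ^ 2 := by ring
      rw [e1, Multiset.range_add, Multiset.range_add, Multiset.map_add, Multiset.map_add,
        Multiset.map_map, Multiset.map_map]
      congr 1
      · congr 1
        exact Multiset.map_congr rfl fun i _ => by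
          simp only [Function.comp_apply]
          rw [add_comm]
      · exact Multiset.map_congr rfl fun i _ => by
          simp only [Function.comp_apply]
          congr 1
          ring
    rw [e]
    refine key.mono ?_
    obtain ⟨X, hX⟩ : ∃ X, X = B * (d + 1) := ⟨_, rfl⟩
    rw [← hX]
    obtain ⟨Y, hY⟩ : ∃ Y, Y = B ^ 2 := ⟨_, rfl⟩
    rw [← hY]
    have e3 : ((s + 1) ^ 2 + 1) * (14080 * X + 7152 * Y) =
        (s + 1) * (14080 * X + 7150 * Y) + (3 * s + 1) * Y + (s ^ 2 + 1) * (14080 * X + 7152 * Y) + Y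
          + (s * (14080 * X + 7150 * Y) + s * Y) := by ring
    rw [e3]
    omega

/-- small points and at most `s ^ 2` large ones -/
theorem mainSq {d μ δ s : ℕ} {W : Multiset ℕ} {m : ℕ → ℕ} (hm : Antitone m)
    (hd : ∑ i ∈ range s, m i + s ≤ d + 2) (hW : ∀ v ∈ W, 1 ≤ v ∧ v ≤ μ) {M : Multiset ℕ}
    (hM : M = (Multiset.range (s ^ 2)).map m)
    (hδ : (d + 1) * (d + 2) = 2 * NU.condM M + 2 * NU.condM W + δ ∨
      (d + 1) * (d + 2) + δ = 2 * NU.condM M + 2 * NU.condM W)
    (h : 4000000 * (s ^ 2 + 1) * ((μ + 1) * (d + μ + 2)) ≤ W.sum + 2 * δ) :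
    crkM (TF d) (M + W) ≤ (TF d).card - (NU.condM M + NU.condM W) := by
  have hTF := two_card_TF d
  rw [← hTF] at hδ
  have hT0 : ∀ m ∈ TF d, 0 ≤ m.1 ∧ 0 ≤ m.2 := fun m hm => by
    rw [mem_TF] at hm
    exact ⟨hm.1, hm.2.1⟩
  have h1 := strips (B := 8 * (μ + 1)) (d := d) (by omega) s m 0 hm (by omega)
  have hZ : (Z d fun p => ((0 : ℕ) : ℤ) ≤ p.2) = TF d := by
    ext p
    rw [mem_Z, mem_TF]
    constructor
    · rintro ⟨h2, -⟩
      exact h2
    · intro h2
      exact ⟨h2, by simpa using h2.2.1⟩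
  rw [hZ, ← hM] at h1
  obtain ⟨E, hE⟩ : ∃ E, E = (s ^ 2 + 1) * (14080 * (8 * (μ + 1) * (d + 1)) +
      7152 * (8 * (μ + 1)) ^ 2) := ⟨_, rfl⟩
  rw [← hE] at h1
  have hnum : 8 * E + 320 * (μ + 1) ^ 2 ≤ W.sum + 2 * δ := by
    refine le_trans ?_ h
    obtain ⟨S, hS⟩ : ∃ S, S = s ^ 2 := ⟨_, rfl⟩
    rw [hE, ← hS]
    have e1 : 4000000 * (S + 1) * ((μ + 1) * (d + μ + 2)) =
        8 * ((S + 1) * (14080 * (8 * (μ + 1) * (d + 1)) + 7152 * (8 * (μ + 1)) ^ 2)) +
          320 * (μ + 1) ^ 2 + ((S + 1) * (3098880 * ((μ + 1) * (d + 1))) +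
            S * (338176 * (μ + 1) ^ 2) + 337856 * (μ + 1) ^ 2) := by ring
    rw [e1]
    exact Nat.le_add_right _ _
  exact ex_big hT0 h1.ce h1.cs hW hδ hnum

end Pool.Agent.K7.H33.BP
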